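import Pool.Agent.Run7.h33.LL.Cr

/-!
# Automorphisms of prime order that fix a generating set
-/

set_option autoImplicit false
set_option linter.unusedSectionVars false

namespace Run7.h33.LL

open SimpleGraph Finset Run7.h33.NM Run7.h33.AF

variable {V : Type} [Fintype V] [DecidableEq V] {G : SimpleGraph V} {S : Finset V}

theorem fix_of_orbit {p t : ℕ} (hp : p.Prime) (hpt : t < p) (φ : G ≃g G) (hφ : (⇑φ)^[p] = id)
    {y z a : V} (hy : φ y = y) (hz : φ z = z) (hyz : (nb G y ∩ nb G z).card ≤ t)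
    (hay : G.Adj a y) (haz : G.Adj a z) : φ a = a := by
  by_contra hne
  have hper : Function.IsPeriodicPt (⇑φ) p a := by
    change (⇑φ)^[p] a = a
    rw [hφ]
    rfl
  have hmin : Function.minimalPeriod (⇑φ) a = p := by
    rcases (Nat.dvd_prime hp).1 hper.minimalPeriod_dvd with h | h
    · exact absurd (Function.minimalPeriod_eq_one_iff_isFixedPt.1 h) hne
    · exact h
  have hfix : ∀ (c : V), φ c = c → ∀ i, (⇑φ)^[i] c = c := by
    intro c hc i
    exact Function.IsFixedPt.iterate (f := ⇑φ) hc i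
  have hadj : ∀ (c : V), φ c = c → G.Adj a c → ∀ i, G.Adj ((⇑φ)^[i] a) c := by
    intro c hc hac i
    induction i with
    | zero => exact hac
    | succ i ih =>
      rw [Function.iterate_succ_apply']
      have h1 := φ.map_adj_iff.2 ih
      rw [hc] at h1
      exact h1
  have h2 : (Finset.range p).card ≤ (nb G y ∩ nb G z).card := by
    refine Finset.card_le_card_of_injOn (fun i => (⇑φ)^[i] a) ?_ ?_
    · intro i _
      rw [mem_coe, mem_inter, mem_nb, mem_nb]
      exact ⟨(hadj y hy hay i).symm, (hadj z hz haz i).symm⟩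
    · intro i hi j hj hij
      rw [mem_coe, Finset.mem_range] at hi hj
      have h3 : Set.InjOn (fun i => (⇑φ)^[i] a) (Set.Iio (Function.minimalPeriod (⇑φ) a)) :=
        Function.iterate_injOn_Iio_minimalPeriod
      rw [hmin] at h3
      exact h3 hi hj hij
  rw [Finset.card_range] at h2
  omega

/-- An automorphism of prime order larger than `t` that fixes a generating set is trivial. -/
theorem fix_of_gen {t : ℕ} (hG : Cn G t) (h : ∀ K, ClC G K → S ⊆ K → ∀ v, v ∈ K) {p : ℕ}
    (hp : p.Prime) (hpt : t < p) (φ : G ≃g G) (hφ : (⇑φ)^[p] = id) (hS : ∀ v ∈ S, φ v = v) (v : V) :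
    φ v = v := by
  classical
  have hK : v ∈ (univ.filter fun v => φ v = v) := by
    refine h _ ?_ ?_ v
    · intro u hu w hw huw z hzu hzw
      rw [mem_filter] at hu hw ⊢
      exact ⟨mem_univ _, fix_of_orbit hp hpt φ hφ hu.2 hw.2 (hG u w huw) hzu hzw⟩
    · intro x hx
      rw [mem_filter]
      exact ⟨mem_univ _, hS x hx⟩
  rw [mem_filter] at hK
  exact hK.2

theorem main_cr {V : Type} [Fintype V] {G : SimpleGraph V} {δ A lam : ℕ} (hδ : 2 ≤ δ) (hA : 1 ≤ A)
    (hlam : 1 ≤ lam) (hG : ∀ u v, u ≠ v → (G.commonNeighbors u v).ncard ≤ lam)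
    (hd : ∀ v, δ ≤ (G.neighborSet v).ncard) (hn : Fintype.card V ≤ A * δ ^ 2) :
    ∃ S : Finset V, S.card ≤ 40000 * lam * A * (A * (Nat.log 2 (lam * A) + 1) +
      Nat.log 2 (Nat.log 2 (Fintype.card V))) ∧ CRBounded G lam S ∧
      ∀ p, p.Prime → lam < p → ∀ φ : G ≃g G, (⇑φ)^[p] = id → (∀ v ∈ S, φ v = v) →
        ∀ v, φ v = v := by
  classical
  obtain ⟨S, hS, hgen⟩ := main_gen hδ hA hlam hG hd hn
  exact ⟨S, hS, crBounded_of_gen (cn_of hG) hgen,
    fun p hp hpl φ hφ hSφ => fix_of_gen (cn_of hG) hgen hp hpl φ hφ hSφ⟩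

end Run7.h33.LL
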