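import Pool.Agent.Run7.h33.LL.Lam

/-!
# Colour refinement with splitting of small classes
-/

set_option autoImplicit false
set_option linter.unusedSectionVars false

namespace Run7.h33.LL

open SimpleGraph Finset Run7.h33.NM Run7.h33.AF

section

variable {V : Type}

/-- One round of colour refinement of an equivalence relation `r` (the colours are the classes of
`r`): two vertices stay equivalent if they are equivalent and have the same number of neighbours in
each class. -/
def refineRel (G : SimpleGraph V) (r : V → V → Prop) (u v : V) : Prop :=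
  r u v ∧ ∀ w, {x | G.Adj u x ∧ r x w}.ncard = {x | G.Adj v x ∧ r x w}.ncard

/-- The classes with at most `t` elements are split into single vertices. -/
def splitRel (t : ℕ) (r : V → V → Prop) (u v : V) : Prop :=
  r u v ∧ (u = v ∨ t < {w | r w u}.ncard)

/-- One round: colour refinement, and splitting of the classes with at most `t` elements. -/
def stepRel (G : SimpleGraph V) (t : ℕ) (r : V → V → Prop) : V → V → Prop :=
  splitRel t (refineRel G r)

/-- The vertices of `S` are individualized, the other vertices are equivalent. -/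
def startRel (S : Finset V) (u v : V) : Prop := u = v ∨ (u ∉ S ∧ v ∉ S)

/-- The equivalence relation after `m` rounds. -/
def roundRel (G : SimpleGraph V) (t : ℕ) (S : Finset V) : ℕ → V → V → Prop
  | 0 => startRel S
  | m + 1 => stepRel G t (roundRel G t S m)

/-- After the individualization of the vertices of `S` the graph is `t`-CR-bounded: the repetition of
colour refinement and of the individualization of the vertices in classes with at most `t` elements
leads to the discrete partition. -/
def CRBounded (G : SimpleGraph V) (t : ℕ) (S : Finset V) : Prop :=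
  ∃ m, ∀ u v, roundRel G t S m u v → u = v

end

section

variable {V : Type} [Fintype V] [DecidableEq V] {G : SimpleGraph V} {t : ℕ} {S : Finset V}

theorem startRel_symm {u v : V} (h : startRel S u v) : startRel S v u := by
  rcases h with h | h
  · exact Or.inl h.symm
  · exact Or.inr h.symm

theorem refineRel_symm {r : V → V → Prop} (hr : ∀ u v, r u v → r v u) {u v : V}
    (h : refineRel G r u v) : refineRel G r v u := ⟨hr u v h.1, fun w => (h.2 w).symm⟩

theorem refineRel_trans {r : V → V → Prop} (hr : ∀ u v w, r u v → r v w → r u w) {u v w : V}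
    (h : refineRel G r u v) (h' : refineRel G r v w) : refineRel G r u w :=
  ⟨hr u v w h.1 h'.1, fun x => (h.2 x).trans (h'.2 x)⟩

theorem splitRel_symm {r : V → V → Prop} (hr : ∀ u v, r u v → r v u)
    (hr' : ∀ u v w, r u v → r v w → r u w) {u v : V}
    (h : splitRel t r u v) : splitRel t r v u := by
  refine ⟨hr u v h.1, ?_⟩
  rcases h.2 with h2 | h2
  · exact Or.inl h2.symm
  · right
    have e : {w | r w v} = {w | r w u} := by
      ext w
      exact ⟨fun h3 => hr' w v u h3 (hr u v h.1), fun h3 => hr' w u v h3 h.1⟩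
    rw [e]
    exact h2

theorem splitRel_trans {r : V → V → Prop} (hr' : ∀ u v w, r u v → r v w → r u w) {u v w : V}
    (h : splitRel t r u v) (h' : splitRel t r v w) : splitRel t r u w := by
  refine ⟨hr' u v w h.1 h'.1, ?_⟩
  rcases h.2 with h2 | h2
  · rw [h2]
    exact h'.2
  · exact Or.inr h2

theorem roundRel_equiv (m : ℕ) : (∀ u v, roundRel G t S m u v → roundRel G t S m v u) ∧
    ∀ u v w, roundRel G t S m u v → roundRel G t S m v w → roundRel G t S m u w := by
  induction m with
  | zero =>
    refine ⟨fun u v h => startRel_symm h, ?_⟩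
    intro u v w h h'
    change startRel S u w
    rcases h with h | h
    · rw [h]
      exact h'
    · rcases h' with h' | h'
      · rw [← h']
        exact Or.inr h
      · exact Or.inr ⟨h.1, h'.2⟩
  | succ m ih =>
    have h1 : ∀ u v, refineRel G (roundRel G t S m) u v → refineRel G (roundRel G t S m) v u :=
      fun u v h => refineRel_symm ih.1 h
    have h2 : ∀ u v w, refineRel G (roundRel G t S m) u v → refineRel G (roundRel G t S m) v w →
        refineRel G (roundRel G t S m) u w := fun u v w h h' => refineRel_trans ih.2 h h'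
    exact ⟨fun u v h => splitRel_symm h1 h2 h, fun u v w h h' => splitRel_trans h2 h h'⟩

/-- The vertices that are alone in their class. -/
noncomputable def alone (G : SimpleGraph V) (t : ℕ) (S : Finset V) (m : ℕ) : Finset V := by
  classical
  exact univ.filter fun v => ∀ u, roundRel G t S m u v → u = v

theorem mem_alone {m : ℕ} {v : V} : v ∈ alone G t S m ↔ ∀ u, roundRel G t S m u v → u = v := by
  simp [alone]

theorem alone_succ (m : ℕ) : alone G t S m ⊆ alone G t S (m + 1) := by
  intro v hv
  rw [mem_alone] at hv ⊢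
  intro u hu
  exact hv u hu.1.1

theorem alone_mono {m m' : ℕ} (h : m ≤ m') : alone G t S m ⊆ alone G t S m' := by
  induction m', h using Nat.le_induction with
  | base => exact Subset.rfl
  | succ m' _ ih => exact ih.trans (alone_succ m')

theorem subset_alone : S ⊆ alone G t S 0 := by
  intro v hv
  rw [mem_alone]
  intro u hu
  rcases hu with h | h
  · exact h
  · exact absurd hv h.2

/-- The common neighbours of two single vertices become single. -/
theorem alone_step {m : ℕ} {y z a : V} (hy : y ∈ alone G t S m) (hz : z ∈ alone G t S m)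
    (hyz : (nb G y ∩ nb G z).card ≤ t) (hay : G.Adj a y) (haz : G.Adj a z) :
    a ∈ alone G t S (m + 1) := by
  classical
  have hrefl : ∀ v, roundRel G t S m v v := by
    intro v
    induction m with
    | zero => exact Or.inl rfl
    | succ m ih =>
      -- reflexivity does not need the hypotheses
      have key : ∀ m v, roundRel G t S m v v := by
        intro m
        induction m with
        | zero => intro v; exact Or.inl rfl
        | succ m ih => intro v; exact ⟨⟨ih v, fun _ => rfl⟩, Or.inl rfl⟩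
      exact key (m + 1) v
  -- a vertex equivalent to `a` is adjacent to `y`
  have key : ∀ y, y ∈ alone G t S m → G.Adj a y → ∀ b, refineRel G (roundRel G t S m) b a →
      G.Adj b y := by
    intro y hy hay b hb
    have h1 := hb.2 y
    have e : ∀ c, {x | G.Adj c x ∧ roundRel G t S m x y} = {x | G.Adj c x ∧ x = y} := by
      intro c
      ext x
      constructor
      · rintro ⟨h2, h3⟩
        exact ⟨h2, mem_alone.1 hy x h3⟩
      · rintro ⟨h2, rfl⟩
        exact ⟨h2, hrefl _⟩
    rw [e, e] at h1
    have h2 : 0 < {x | G.Adj a x ∧ x = y}.ncard := by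
      rw [Set.ncard_pos (Set.toFinite _)]
      exact ⟨y, hay, rfl⟩
    rw [← h1, Set.ncard_pos (Set.toFinite _)] at h2
    obtain ⟨x, hx, rfl⟩ := h2
    exact hx
  rw [mem_alone]
  intro u hu
  obtain ⟨h1, h2⟩ := hu
  rcases h2 with h2 | h2
  · exact h2
  · exfalso
    have h3 : {w | refineRel G (roundRel G t S m) w u}.ncard ≤ t := by
      refine le_trans ?_ hyz
      rw [← Set.ncard_coe_finset]
      refine Set.ncard_le_ncard ?_ (Set.toFinite _)
      intro w hw
      have hwa : refineRel G (roundRel G t S m) w a :=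
        refineRel_trans (roundRel_equiv m).2 hw h1
      rw [mem_coe, mem_inter, mem_nb, mem_nb]
      exact ⟨(key y hy hay w hwa).symm, (key z hz haz w hwa).symm⟩
    omega

/-- If a set generates everything by taking common neighbours then its individualization makes the
graph CR-bounded. -/
theorem crBounded_of_gen (hG : Cn G t) (h : ∀ K, ClC G K → S ⊆ K → ∀ v, v ∈ K) :
    CRBounded G t S := by
  classical
  have h1 : ∀ v, ∃ m, v ∈ alone G t S m := by
    obtain ⟨K, hK⟩ : ∃ K : Finset V, K = univ.filter fun v => ∃ m, v ∈ alone G t S m := ⟨_, rfl⟩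
    have hmK : ∀ v, v ∈ K ↔ ∃ m, v ∈ alone G t S m := by
      intro v
      rw [hK, mem_filter]
      simp
    have hcl : ClC G K := by
      intro u hu v hv huv z hzu hzv
      rw [hmK] at hu hv ⊢
      obtain ⟨m, hm⟩ := hu
      obtain ⟨m', hm'⟩ := hv
      exact ⟨max m m' + 1, alone_step (alone_mono (le_max_left _ _) hm)
        (alone_mono (le_max_right _ _) hm') (hG u v huv) hzu hzv⟩
    intro v
    exact (hmK v).1 (h K hcl (fun x hx => (hmK x).2 ⟨0, subset_alone hx⟩) v)
  choose f hf using h1
  refine ⟨univ.sup f, fun u v huv => ?_⟩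
  exact mem_alone.1 (alone_mono (le_sup (mem_univ v)) (hf v)) u huv

end

theorem arith_L {n d lam A lA ll : ℕ} (hlam : 1 ≤ lam) (hA : 1 ≤ A)
    (hn : n ≤ A * (d + 1) ^ 2) :
    (n / max 1 ((d / 4) ^ 2 / lam) + 1) * (1 + 2 * (4 * A) * (32 + 6 * lA) + 2 * (2 * (ll + 1))) ≤
      40000 * lam * A * (A * (lA + 1) + ll) := by
  obtain ⟨q, hq⟩ : ∃ q, q = max 1 ((d / 4) ^ 2 / lam) := ⟨_, rfl⟩
  rw [← hq]
  have hq1 : 1 ≤ q := by rw [hq]; exact le_max_left _ _
  have hdq : (d + 1) ^ 2 ≤ 128 * lam * q := by
    by_cases h4 : d / 4 = 0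
    · have h5 : d + 1 ≤ 8 := by omega
      calc (d + 1) ^ 2 ≤ 8 ^ 2 := Nat.pow_le_pow_left h5 2
        _ ≤ 128 * 1 * 1 := by norm_num
        _ ≤ _ := by gcongr
    · have h5 : d + 1 ≤ 8 * (d / 4) := by omega
      have h6 : (d / 4) ^ 2 ≤ 2 * lam * q := by
        have h7 := Nat.lt_div_mul_add (a := (d / 4) ^ 2) (b := lam) (by omega)
        have h8 : (d / 4) ^ 2 / lam ≤ q := by rw [hq]; exact le_max_right _ _
        have h9 : (d / 4) ^ 2 / lam * lam ≤ q * lam := Nat.mul_le_mul_right _ h8
        have h10 : lam ≤ q * lam := Nat.le_mul_of_pos_left _ hq1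
        have e : 2 * lam * q = q * lam + q * lam := by ring
        omega
      calc (d + 1) ^ 2 ≤ (8 * (d / 4)) ^ 2 := Nat.pow_le_pow_left h5 2
        _ = 64 * (d / 4) ^ 2 := by ring
        _ ≤ 64 * (2 * lam * q) := Nat.mul_le_mul_left _ h6
        _ = _ := by ring
  have hnq : n / q ≤ 128 * lam * A := by
    refine Nat.div_le_of_le_mul ?_
    calc n ≤ A * (d + 1) ^ 2 := hn
      _ ≤ A * (128 * lam * q) := Nat.mul_le_mul_left _ hdq
      _ = _ := by ring
  obtain ⟨X, hX⟩ : ∃ X, X = A * (lA + 1) := ⟨_, rfl⟩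
  rw [← hX]
  have hAX : A ≤ X := by
    rw [hX]
    exact Nat.le_mul_of_pos_right _ (by omega)
  have h1 : 2 * (4 * A) * (32 + 6 * lA) ≤ 256 * X := by
    rw [hX]
    calc 2 * (4 * A) * (32 + 6 * lA) ≤ 2 * (4 * A) * (32 * (lA + 1)) :=
          Nat.mul_le_mul_left _ (by omega)
      _ = _ := by ring
  have h2 : 1 + 2 * (4 * A) * (32 + 6 * lA) + 2 * (2 * (ll + 1)) ≤ 261 * (X + ll) := by omega
  have hlA : 1 ≤ lam * A := Nat.mul_pos hlam hA
  have h3 : n / q + 1 ≤ 129 * (lam * A) := by
    rw [mul_assoc] at hnq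
    omega
  calc (n / q + 1) * (1 + 2 * (4 * A) * (32 + 6 * lA) + 2 * (2 * (ll + 1)))
      ≤ 129 * (lam * A) * (261 * (X + ll)) := Nat.mul_le_mul h3 h2
    _ = 33669 * (lam * A * (X + ll)) := by ring
    _ ≤ 40000 * (lam * A * (X + ll)) := Nat.mul_le_mul_right _ (by norm_num)
    _ = _ := by ring

section

variable {V : Type} [Fintype V] [DecidableEq V] {G : SimpleGraph V}

theorem cn_of {lam : ℕ} (hG : ∀ u v, u ≠ v → (G.commonNeighbors u v).ncard ≤ lam) : Cn G lam := by
  intro u v huv
  refine le_trans (le_of_eq ?_) (hG u v huv)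
  rw [← Set.ncard_coe_finset]
  congr 1
  ext w
  rw [mem_coe, mem_inter, mem_nb, mem_nb]
  rfl

/-- Graphs in which two vertices have at most `lam` common neighbours: a small generating set. -/
theorem main_gen {δ A lam : ℕ} (hδ : 2 ≤ δ) (hA : 1 ≤ A) (hlam : 1 ≤ lam)
    (hG : ∀ u v, u ≠ v → (G.commonNeighbors u v).ncard ≤ lam)
    (hd : ∀ v, δ ≤ (G.neighborSet v).ncard) (hn : Fintype.card V ≤ A * δ ^ 2) :
    ∃ S : Finset V, S.card ≤ 40000 * lam * A * (A * (Nat.log 2 (lam * A) + 1) +
      Nat.log 2 (Nat.log 2 (Fintype.card V))) ∧ ∀ K, ClC G K → S ⊆ K → ∀ v, v ∈ K := by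
  obtain ⟨d, rfl⟩ : ∃ d, δ = d + 1 := ⟨δ - 1, by omega⟩
  have hd' : ∀ v, d + 1 ≤ (nb G v).card := fun v => by rw [card_nb]; exact hd v
  have hd1 : 1 ≤ d := by omega
  have hn4 : Fintype.card V ≤ 4 * A * d ^ 2 := by
    calc Fintype.card V ≤ A * (d + 1) ^ 2 := hn
      _ ≤ A * (2 * d) ^ 2 := Nat.mul_le_mul_left _ (Nat.pow_le_pow_left (by omega) 2)
      _ = _ := by ring
  have hL : (32 * (4 * A) ^ 3 * lam ^ 2) ^ 2 ≤ 2 ^ (32 + 6 * Nat.log 2 (lam * A)) := by
    have h1 : lam * A < 2 ^ (Nat.log 2 (lam * A) + 1) := Nat.lt_pow_succ_log_self (by norm_num) _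
    have h2 : lam ^ 4 ≤ lam ^ 6 := Nat.pow_le_pow_right hlam (by norm_num)
    calc (32 * (4 * A) ^ 3 * lam ^ 2) ^ 2 = 4194304 * A ^ 6 * lam ^ 4 := by ring
      _ ≤ 4194304 * A ^ 6 * lam ^ 6 := Nat.mul_le_mul_left _ h2
      _ = 4194304 * (lam * A) ^ 6 := by ring
      _ ≤ 4194304 * (2 ^ (Nat.log 2 (lam * A) + 1)) ^ 6 :=
          Nat.mul_le_mul_left _ (Nat.pow_le_pow_left h1.le 6)
      _ = 2 ^ (28 + 6 * Nat.log 2 (lam * A)) := by ring
      _ ≤ _ := Nat.pow_le_pow_right (by norm_num) (by omega)
  obtain ⟨S, hS, hgen⟩ := exists_gen hlam (cn_of hG) hd' (B := 4 * A)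
    (L := 32 + 6 * Nat.log 2 (lam * A)) (j := Nat.log 2 (Nat.log 2 (Fintype.card V)) + 1)
    (by omega) hd1 hn4 hL (lt_loglog _)
  exact ⟨S, hS.trans (arith_L hlam hA hn), hgen⟩

end

end Run7.h33.LL
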