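import Pool.Agent.Run7.h33.LL.TwoMain

/-!
# Graphs in which two vertices have a bounded number of common neighbours
-/

set_option autoImplicit false
set_option linter.unusedSectionVars false

namespace Run7.h33.LL

open SimpleGraph Finset Run7.h33.NM Run7.h33.AF

section

variable {V : Type} [Fintype V] [DecidableEq V] {G : SimpleGraph V} {lam d : ℕ}

/-- Two different vertices have at most `lam` common neighbours. -/
def Cn (G : SimpleGraph V) (lam : ℕ) : Prop := ∀ u v, u ≠ v → (nb G u ∩ nb G v).card ≤ lam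

theorem ctxL (hlam : 1 ≤ lam) (hG : Cn G lam) (hd : ∀ v, d + 1 ≤ (nb G v).card) :
    Ctx G (ClC G) d d (max 1 ((d / 4) ^ 2 / lam)) where
  deg := hd
  one := by
    intro K hK z hz u hu u' hu' hzu hzu'
    by_contra hne
    exact hz (hK u hu u' hu' hne z hzu hzu')
  far := by
    intro u z huz
    refine ⟨(nb G z).erase u, ?_, ?_⟩
    · rw [card_erase_of_mem (mem_nb.2 huz.symm)]
      have := hd z
      omega
    · intro v hv K hK hu hvK
      rw [mem_erase, mem_nb] at hv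
      exact hK u hu v hvK hv.1.symm z huz.symm hv.2
  dense := by
    intro M hM
    refine max_le (nonempty_of_dense hM) ?_
    obtain ⟨S, hSM, ⟨u, hu⟩, hS⟩ := exists_core d M hM
    refine le_trans ?_ (card_le_card hSM)
    refine Nat.div_le_of_le_mul ?_
    -- the paths of length two from `u` inside of `S`
    have h1 : ((nb G u ∩ S).sigma fun z => (nb G z ∩ S).erase u).card ≤
        lam * S.card := by
      have h2 : ((nb G u ∩ S).sigma fun z => (nb G z ∩ S).erase u).card =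
          ∑ v ∈ S, (((nb G u ∩ S).sigma fun z => (nb G z ∩ S).erase u).filter
            fun x => x.2 = v).card := by
        refine card_eq_sum_card_fiberwise fun x hx => ?_
        simp only [mem_coe, mem_sigma, mem_erase, mem_inter] at hx
        exact hx.2.2.2
      rw [h2]
      calc ∑ v ∈ S, (((nb G u ∩ S).sigma fun z => (nb G z ∩ S).erase u).filter
            fun x => x.2 = v).card ≤ ∑ _v ∈ S, lam := by
            refine sum_le_sum fun v _ => ?_
            by_cases huv : u = v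
            · rw [← huv]
              have e : ((nb G u ∩ S).sigma fun z => (nb G z ∩ S).erase u).filter
                  (fun x => x.2 = u) = ∅ := by
                rw [filter_eq_empty_iff]
                intro x hx hxu
                rw [mem_sigma, mem_erase] at hx
                exact hx.2.1 hxu
              rw [e]
              simp
            · refine le_trans ?_ (hG u v huv)
              refine card_le_card_of_injOn (fun x => x.1) ?_ ?_
              · rintro ⟨z, w⟩ hx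
                simp only [mem_coe, mem_filter, mem_sigma, mem_erase, mem_inter, mem_nb] at hx ⊢
                obtain ⟨⟨⟨h3, -⟩, -, h4, -⟩, rfl⟩ := hx
                exact ⟨h3, h4.symm⟩
              · rintro ⟨z, w⟩ hx ⟨z', w'⟩ hx' hzz
                simp only [mem_coe, mem_filter] at hx hx' hzz
                obtain ⟨-, rfl⟩ := hx
                obtain ⟨-, rfl⟩ := hx'
                subst hzz
                rfl
        _ = lam * S.card := by rw [sum_const, smul_eq_mul, mul_comm]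
    rw [card_sigma] at h1
    have h3 : ∑ _z ∈ nb G u ∩ S, d / 4 ≤ ∑ z ∈ nb G u ∩ S, ((nb G z ∩ S).erase u).card := by
      refine sum_le_sum fun z hz => ?_
      rw [mem_inter, mem_nb] at hz
      rw [card_erase_of_mem (mem_inter.2 ⟨mem_nb.2 hz.1.symm, hu⟩)]
      have := hS z hz.2
      omega
    rw [sum_const, smul_eq_mul] at h3
    have h4 : d / 4 ≤ (nb G u ∩ S).card := by
      have := hS u hu
      omega
    calc (d / 4) ^ 2 = d / 4 * (d / 4) := by ring
      _ ≤ (nb G u ∩ S).card * (d / 4) := Nat.mul_le_mul_right _ h4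
      _ ≤ _ := h3
      _ ≤ _ := h1

/-- A map whose fibres have at most `m` elements. -/
theorem card_le_mul {α β : Type} [DecidableEq β] (S : Finset α) (T : Finset β) (f : α → β)
    (m : ℕ) (hf : ∀ a ∈ S, f a ∈ T) (hm : ∀ b ∈ T, (S.filter fun a => f a = b).card ≤ m) :
    S.card ≤ m * T.card := by
  rw [card_eq_sum_card_fiberwise (t := T) (f := f) hf]
  calc ∑ b ∈ T, (S.filter fun a => f a = b).card ≤ ∑ _b ∈ T, m := sum_le_sum hm
    _ = m * T.card := by rw [sum_const, smul_eq_mul, mul_comm]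

theorem supL {r q B : ℕ} (hlam : 1 ≤ lam) (hG : Cn G lam) (hX : Ctx G (ClC G) d r q)
    (hB : 1 ≤ B) (hd2 : 2 ≤ d) (hn : Fintype.card V ≤ B * d ^ 2) :
    Sup (ClC G) ((32 * B ^ 3 * lam ^ 2) ^ 2) q 2 := by
  classical
  intro K₀ K h₀ hK hsub hm hq
  obtain ⟨D, hD, hDc⟩ := boundary hX h₀ hK hq
  obtain ⟨s, hs⟩ : ∃ s, s = (K \ K₀).card := ⟨_, rfl⟩
  obtain ⟨n, hne⟩ : ∃ n, n = Fintype.card V := ⟨_, rfl⟩
  rw [← hs] at hm hDc hq ⊢
  rw [← hne] at hn
  have hB3 : 1 ≤ B ^ 3 := Nat.pow_pos (by omega)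
  have hl2 : 1 ≤ lam ^ 2 := Nat.pow_pos (by omega)
  have hBs : 4 * B ≤ s := by
    refine le_trans ?_ hm
    calc 4 * B ≤ 1024 * B ^ 6 := Nat.mul_le_mul (by norm_num) (Nat.le_self_pow (by norm_num) B)
      _ = (32 * B ^ 3 * 1) ^ 2 := by ring
      _ ≤ _ := Nat.pow_le_pow_left (Nat.mul_le_mul_left _ hl2) 2
  have hs1 : 1 ≤ s := by omega
  obtain ⟨U, hU⟩ : ∃ U : Finset V, U = univ \ K := ⟨_, rfl⟩
  have hUm : ∀ a, a ∈ U ↔ a ∉ K := by
    intro a
    rw [hU, mem_sdiff]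
    simp
  obtain ⟨y, hy⟩ : ∃ y : V → ℕ, y = fun a => (nb G a ∩ D).card := ⟨_, rfl⟩
  have hUn : U.card ≤ n := by
    rw [hne]
    exact card_le_univ _
  have hY1 : ∑ a ∈ U, y a = ∑ z ∈ D, (nb G z \ K).card := by
    have e1 : ∀ a ∈ U, y a = ∑ z ∈ D, if G.Adj z a then 1 else 0 := by
      intro a _
      rw [hy, ← card_filter]
      change (nb G a ∩ D).card = _
      congr 1
      ext z
      rw [mem_inter, mem_nb, mem_filter, G.adj_comm]
      tauto
    have e2 : ∀ z ∈ D, (nb G z \ K).card = ∑ a ∈ U, if G.Adj z a then 1 else 0 := by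
      intro z _
      rw [← card_filter]
      congr 1
      ext a
      rw [mem_sdiff, mem_nb, mem_filter, hUm]
      tauto
    rw [sum_congr rfl e1, sum_congr rfl e2, sum_comm]
  obtain ⟨Y, hYe⟩ : ∃ Y, Y = ∑ a ∈ U, y a := ⟨_, rfl⟩
  have hY2 : D.card * d ≤ Y := by
    rw [hYe, hY1, ← smul_eq_mul, ← sum_const]
    exact sum_le_sum fun z hz => out_nb hX hK ((hD z).1 hz).1
  have hY3 : d ^ 2 * s ≤ 2 * Y := by
    calc d ^ 2 * s = d * s * d := by ring
      _ ≤ 2 * D.card * d := Nat.mul_le_mul_right _ hDc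
      _ = 2 * (D.card * d) := by ring
      _ ≤ 2 * Y := Nat.mul_le_mul_left _ hY2
  have hY4 : 2 * n ≤ Y := by
    have h1 : B * (2 * (2 * n)) ≤ B * (2 * Y) := by
      calc B * (2 * (2 * n)) = 4 * B * n := by ring
        _ ≤ s * (B * d ^ 2) := Nat.mul_le_mul hBs hn
        _ = B * (d ^ 2 * s) := by ring
        _ ≤ _ := Nat.mul_le_mul_left _ hY3
    have := Nat.le_of_mul_le_mul_left h1 (by omega)
    omega
  obtain ⟨T, hT⟩ : ∃ T : Finset (Σ _ : V, V × V), T = U.sigma fun a => (nb G a ∩ D).offDiag :=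
    ⟨_, rfl⟩
  have hTc : T.card + Y = ∑ a ∈ U, y a ^ 2 := by
    rw [hT, card_sigma, hYe, ← sum_add_distrib]
    refine sum_congr rfl fun a _ => ?_
    rw [offDiag_card, hy, pow_two]
    have : (nb G a ∩ D).card ≤ (nb G a ∩ D).card * (nb G a ∩ D).card := Nat.le_mul_self _
    simp only
    omega
  have hT2 : Y ^ 2 ≤ 2 * n * T.card := by
    have h1 := cs U y hUn
    rw [← hYe, ← hTc] at h1
    have h2 : 2 * n * Y ≤ Y ^ 2 := by
      rw [pow_two]
      exact Nat.mul_le_mul_right _ hY4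
    have e1 : 2 * (n * (T.card + Y)) = 2 * n * T.card + 2 * n * Y := by ring
    omega
  obtain ⟨R, hR⟩ : ∃ R : (Σ _ : V, V × V) → V × V → Prop, R = fun t v =>
      (G.Adj t.2.1 v.1 ∧ v.1 ≠ t.1) ∧ G.Adj t.2.2 v.2 ∧ v.2 ≠ t.1 := ⟨_, rfl⟩
  have hmemT : ∀ t ∈ T, t.1 ∉ K ∧ (G.Adj t.1 t.2.1 ∧ t.2.1 ∈ D) ∧ (G.Adj t.1 t.2.2 ∧ t.2.2 ∈ D) ∧
      t.2.1 ≠ t.2.2 := by
    intro t ht
    rw [hT, mem_sigma, mem_offDiag, mem_inter, mem_inter, mem_nb, mem_nb, hUm] at ht
    exact ⟨ht.1, ht.2.1, ht.2.2.1, ht.2.2.2⟩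
  have hser : ∀ t ∈ T, (d - 1) ^ 2 ≤ ((U ×ˢ U).filter fun v => R t v).card := by
    intro t ht
    obtain ⟨h1, ⟨h2, h3⟩, ⟨h4, h5⟩, h6⟩ := hmemT t ht
    have h7 : ∀ z, G.Adj t.1 z → z ∈ D → d - 1 ≤ ((nb G z \ K).erase t.1).card := by
      intro z _ hz
      have h8 := out_nb hX hK ((hD z).1 hz).1
      have h9 := pred_card_le_card_erase (s := nb G z \ K) (a := t.1)
      omega
    calc (d - 1) ^ 2 = (d - 1) * (d - 1) := by ring
      _ ≤ ((nb G t.2.1 \ K).erase t.1).card * ((nb G t.2.2 \ K).erase t.1).card :=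
          Nat.mul_le_mul (h7 _ h2 h3) (h7 _ h4 h5)
      _ = (((nb G t.2.1 \ K).erase t.1) ×ˢ ((nb G t.2.2 \ K).erase t.1)).card :=
          (card_product _ _).symm
      _ ≤ _ := by
          refine card_le_card ?_
          intro v hv
          rw [mem_product, mem_erase, mem_erase, mem_sdiff, mem_sdiff, mem_nb, mem_nb] at hv
          rw [mem_filter, mem_product, hUm, hUm, hR]
          exact ⟨⟨hv.1.2.2, hv.2.2.2⟩, ⟨hv.1.2.1, hv.1.1⟩, hv.2.2.1, hv.2.1⟩
  have hTne : 0 < T.card := by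
    rcases Nat.eq_zero_or_pos T.card with h1 | h1
    · exfalso
      rw [h1, mul_zero] at hT2
      have h2 : 0 < Y := by
        have : 0 < d ^ 2 * s := Nat.mul_pos (Nat.pow_pos (by omega)) hs1
        omega
      have := Nat.pow_pos (n := 2) h2
      omega
    · exact h1
  obtain ⟨t₀, ht₀⟩ := card_pos.1 hTne
  have hPne : (U ×ˢ U).Nonempty :=
    ⟨(t₀.1, t₀.1), mem_product.2 ⟨(hUm _).2 (hmemT t₀ ht₀).1, (hUm _).2 (hmemT t₀ ht₀).1⟩⟩
  have hPn : (U ×ˢ U).card ≤ n ^ 2 := by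
    rw [card_product, pow_two]
    exact Nat.mul_le_mul hUn hUn
  obtain ⟨v, hv, hpig⟩ := pigeon T (U ×ˢ U) R hser hPn hPne
  rw [mem_product, hUm, hUm] at hv
  refine ⟨v.1, v.2, fun K' hK' hsub' => ?_⟩
  have hKK' : K ⊆ K' := (subset_insert _ _).trans ((subset_insert _ _).trans hsub')
  have hv1 : v.1 ∈ K' := hsub' (mem_insert_self _ _)
  have hv2 : v.2 ∈ K' := hsub' (mem_insert_of_mem (mem_insert_self _ _))
  have hin : (T.filter fun t => R t v).card ≤ lam ^ 2 * (K' \ K₀).card := by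
    refine card_le_mul _ _ (fun t => t.1) _ ?_ ?_
    · intro t ht
      rw [mem_filter, hR] at ht
      obtain ⟨ht, ⟨h1, h2⟩, h3, h4⟩ := ht
      obtain ⟨h5, ⟨h6, h7⟩, ⟨h8, h9⟩, h10⟩ := hmemT t ht
      obtain ⟨h11, u, hu, h12⟩ := (hD _).1 h7
      obtain ⟨h13, u', hu', h14⟩ := (hD _).1 h9
      have h15 : t.2.1 ∈ K' := hK' u (hKK' (mem_sdiff.1 hu).1) v.1 hv1
        (fun h => hv.1 (h ▸ (mem_sdiff.1 hu).1)) _ h12.symm h1
      have h16 : t.2.2 ∈ K' := hK' u' (hKK' (mem_sdiff.1 hu').1) v.2 hv2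
        (fun h => hv.2 (h ▸ (mem_sdiff.1 hu').1)) _ h14.symm h3
      rw [mem_sdiff]
      exact ⟨hK' _ h15 _ h16 h10 _ h6 h8, fun h => h5 (hsub h)⟩
    · intro a _
      rcases (((T.filter fun t => R t v).filter fun t => t.1 = a)).eq_empty_or_nonempty with h0 |
        ⟨t₁, ht₁⟩
      · rw [h0]
        simp
      have hva : a ≠ v.1 ∧ a ≠ v.2 := by
        rw [mem_filter, mem_filter, hR] at ht₁
        obtain ⟨⟨-, ⟨-, h2⟩, -, h4⟩, h5⟩ := ht₁
        rw [h5] at h2 h4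
        exact ⟨h2.symm, h4.symm⟩
      calc (((T.filter fun t => R t v).filter fun t => t.1 = a)).card
          ≤ ((nb G a ∩ nb G v.1) ×ˢ (nb G a ∩ nb G v.2)).card := by
            refine card_le_card_of_injOn (fun t => t.2) ?_ ?_
            · intro t ht
              rw [mem_coe, mem_filter, mem_filter, hR] at ht
              obtain ⟨⟨ht, ⟨h1, h2⟩, h3, h4⟩, h5⟩ := ht
              obtain ⟨-, ⟨h6, -⟩, ⟨h8, -⟩, -⟩ := hmemT t ht
              rw [h5] at h6 h8
              rw [mem_coe, mem_product, mem_inter, mem_inter, mem_nb, mem_nb, mem_nb, mem_nb]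
              exact ⟨⟨h6, h1.symm⟩, h8, h3.symm⟩
            · intro t ht t' ht' htt
              rw [mem_coe, mem_filter] at ht ht'
              obtain ⟨a₁, z⟩ := t
              obtain ⟨a₂, z'⟩ := t'
              simp only at htt ht ht'
              obtain ⟨-, rfl⟩ := ht
              obtain ⟨-, rfl⟩ := ht'
              subst htt
              rfl
        _ = (nb G a ∩ nb G v.1).card * (nb G a ∩ nb G v.2).card := card_product _ _
        _ ≤ lam * lam := Nat.mul_le_mul (hG _ _ hva.1) (hG _ _ hva.2)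
        _ = lam ^ 2 := (pow_two _).symm
  obtain ⟨F, hF⟩ : ∃ F, F = (T.filter fun t => R t v).card := ⟨_, rfl⟩
  rw [← hF] at hpig hin
  have hfin : s ^ 2 ≤ 32 * B ^ 3 * F := by
    have h1 : d ^ 4 * s ^ 2 * (d - 1) ^ 2 ≤ 8 * n ^ 3 * F := by
      calc d ^ 4 * s ^ 2 * (d - 1) ^ 2 = (d ^ 2 * s) ^ 2 * (d - 1) ^ 2 := by ring
        _ ≤ (2 * Y) ^ 2 * (d - 1) ^ 2 := Nat.mul_le_mul_right _ (Nat.pow_le_pow_left hY3 2)
        _ = 4 * Y ^ 2 * (d - 1) ^ 2 := by ring
        _ ≤ 4 * (2 * n * T.card) * (d - 1) ^ 2 :=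
            Nat.mul_le_mul_right _ (Nat.mul_le_mul_left _ hT2)
        _ = 8 * n * ((d - 1) ^ 2 * T.card) := by ring
        _ ≤ 8 * n * (n ^ 2 * F) := Nat.mul_le_mul_left _ hpig
        _ = _ := by ring
    have h2 : n ^ 3 ≤ B ^ 3 * d ^ 6 := by
      calc n ^ 3 ≤ (B * d ^ 2) ^ 3 := Nat.pow_le_pow_left hn 3
        _ = _ := by ring
    have h3 : d ^ 2 ≤ 4 * (d - 1) ^ 2 := by
      calc d ^ 2 ≤ (2 * (d - 1)) ^ 2 := Nat.pow_le_pow_left (by omega) 2
        _ = _ := by ring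
    have h4 : d ^ 6 * s ^ 2 ≤ d ^ 6 * (32 * B ^ 3 * F) := by
      calc d ^ 6 * s ^ 2 = d ^ 4 * s ^ 2 * d ^ 2 := by ring
        _ ≤ d ^ 4 * s ^ 2 * (4 * (d - 1) ^ 2) := Nat.mul_le_mul_left _ h3
        _ = 4 * (d ^ 4 * s ^ 2 * (d - 1) ^ 2) := by ring
        _ ≤ 4 * (8 * n ^ 3 * F) := Nat.mul_le_mul_left _ h1
        _ = 32 * F * n ^ 3 := by ring
        _ ≤ 32 * F * (B ^ 3 * d ^ 6) := Nat.mul_le_mul_left _ h2
        _ = _ := by ring
    exact Nat.le_of_mul_le_mul_left h4 (Nat.pow_pos (by omega))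
  have hfin2 : s ^ 2 ≤ 32 * B ^ 3 * lam ^ 2 * (K' \ K₀).card := by
    calc s ^ 2 ≤ 32 * B ^ 3 * F := hfin
      _ ≤ 32 * B ^ 3 * (lam ^ 2 * (K' \ K₀).card) := Nat.mul_le_mul_left _ hin
      _ = _ := by ring
  obtain ⟨E, hE⟩ : ∃ E, E = 32 * B ^ 3 * lam ^ 2 := ⟨_, rfl⟩
  rw [← hE] at hfin2 hm
  have h5 : s * (s ^ (2 + 1)) ≤ s * ((K' \ K₀).card ^ 2) := by
    calc s * (s ^ (2 + 1)) = (s ^ 2) ^ 2 := by ring
      _ ≤ (E * (K' \ K₀).card) ^ 2 := Nat.pow_le_pow_left hfin2 2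
      _ = E ^ 2 * (K' \ K₀).card ^ 2 := by ring
      _ ≤ _ := Nat.mul_le_mul_right _ hm
  exact Nat.le_of_mul_le_mul_left h5 hs1

/-- The set generated by taking common neighbours. -/
noncomputable def gen (G : SimpleGraph V) (S : Finset V) : Finset V := by
  classical
  exact univ.filter fun v => ∀ K, ClC G K → S ⊆ K → v ∈ K

theorem mem_gen {S : Finset V} {v : V} : v ∈ gen G S ↔ ∀ K, ClC G K → S ⊆ K → v ∈ K := by
  simp [gen]

theorem gen_closed (S : Finset V) : ClC G (gen G S) := by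
  intro u hu v hv huv z hzu hzv
  rw [mem_gen] at hu hv ⊢
  intro K hK hS
  exact hK u (hu K hK hS) v (hv K hK hS) huv z hzu hzv

/-- Generation by few vertices. -/
theorem exists_gen {B L j : ℕ} (hlam : 1 ≤ lam) (hG : Cn G lam)
    (hd : ∀ v, d + 1 ≤ (nb G v).card) (hB : 1 ≤ B) (hd1 : 1 ≤ d)
    (hn : Fintype.card V ≤ B * d ^ 2) (hL : (32 * B ^ 3 * lam ^ 2) ^ 2 ≤ 2 ^ L)
    (hj : Fintype.card V < 2 ^ 2 ^ j) :
    ∃ S : Finset V, S.card ≤ (Fintype.card V / max 1 ((d / 4) ^ 2 / lam) + 1) *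
      (1 + 2 * B * L + 2 * (2 * j)) ∧ ∀ K, ClC G K → S ⊆ K → ∀ v, v ∈ K := by
  have hX := ctxL hlam hG hd
  have hl2 : 1 ≤ lam ^ 2 := Nat.pow_pos (by omega)
  have hm : 32 ≤ 32 * B ^ 3 * lam ^ 2 := by
    have h1 : 1 ≤ B ^ 3 * lam ^ 2 := Nat.mul_pos (Nat.pow_pos (by omega)) hl2
    rw [mul_assoc]
    omega
  have hm2 : 2 ≤ (32 * B ^ 3 * lam ^ 2) ^ 2 :=
    le_trans (by omega) (hm.trans (Nat.le_self_pow (by norm_num) _))
  have hS : Sup (ClC G) ((32 * B ^ 3 * lam ^ 2) ^ 2) (max 1 ((d / 4) ^ 2 / lam)) 2 := by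
    by_cases hd2 : 2 ≤ d
    · exact supL hlam hG hX hB hd2 hn
    · intro K₀ K _ _ _ h1 h2
      exfalso
      have h3 : d / 4 = 0 := by omega
      have h5 : max 1 ((d / 4) ^ 2 / lam) = 1 := by
        rw [h3]
        norm_num
      rw [h5] at h2
      omega
  obtain ⟨Ach, hAch⟩ : ∃ Ach : ℕ → Finset V → Prop, Ach = fun t K =>
    ∃ S : Finset V, S.card ≤ t ∧ gen G S = K := ⟨_, rfl⟩
  obtain ⟨Nmax, hNmax⟩ : ∃ Nmax, Nmax = (Fintype.card V / max 1 ((d / 4) ^ 2 / lam) + 1) *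
      (1 + 2 * B * L + 2 * (2 * j)) := ⟨_, rfl⟩
  have hcl : ∀ t K, Ach t K → t ≤ Nmax → ClC G K := by
    intro t K hK _
    rw [hAch] at hK
    obtain ⟨S, -, rfl⟩ := hK
    exact gen_closed S
  have hstep : ∀ t K v, Ach t K → t < Nmax → ∃ K', Ach (t + 1) K' ∧ insert v K ⊆ K' := by
    intro t K v hK _
    rw [hAch] at hK
    obtain ⟨S, hSt, rfl⟩ := hK
    refine ⟨gen G (insert v S), ?_, ?_⟩
    · rw [hAch]
      exact ⟨insert v S, (card_insert_le _ _).trans (by omega), rfl⟩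
    · intro x hx
      rw [mem_gen]
      intro K hK hsub
      rcases mem_insert.1 hx with rfl | hx
      · exact hsub (mem_insert_self _ _)
      · exact mem_gen.1 hx K hK ((subset_insert _ _).trans hsub)
  have h0 : Ach 0 (gen G ∅) := by
    rw [hAch]
    exact ⟨∅, by simp, rfl⟩
  obtain ⟨t, ht, hu⟩ := generate' hX hS hd1 hd1 (le_max_left _ _) hm2 (by norm_num) hcl hstep
    (B := 2 * B) (L := L) (j := j) (by omega) (by
      calc 2 * Fintype.card V ≤ 2 * (B * d ^ 2) := Nat.mul_le_mul_left _ hn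
        _ = 2 * B * (d * d) := by ring) hL hj h0 (by rw [hNmax])
  rw [hAch] at hu
  obtain ⟨S, hSt, hSu⟩ := hu
  refine ⟨S, hSt.trans ht, fun K hK hsub v => ?_⟩
  have h1 : v ∈ gen G S := by
    rw [hSu]
    exact mem_univ _
  exact mem_gen.1 h1 K hK hsub

end

end Run7.h33.LL
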