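import Pool.Agent.Run7.h33.LL.Two

/-!
# Non-backtracking walks that are determined by their ends
-/

set_option autoImplicit false
set_option linter.unusedSectionVars false

namespace Run7.h33.LL

open SimpleGraph Finset Run7.h33.NM

section

variable {V : Type} {G : SimpleGraph V}

/-- Non-backtracking walks of length `L`. -/
def NB (G : SimpleGraph V) (L : ℕ) (f : ℕ → V) : Prop :=
  (∀ i < L, G.Adj (f i) (f (i + 1))) ∧ ∀ i, i + 2 ≤ L → f i ≠ f (i + 2)

/-- Non-backtracking walks of length at most `k` are determined by their ends and the parity of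
their length. -/
def Uq (G : SimpleGraph V) (k : ℕ) : Prop :=
  ∀ L L' f g, L ≤ k → L' ≤ k → L % 2 = L' % 2 → NB G L f → NB G L' g → f 0 = g 0 →
    f L = g L' → L = L' ∧ ∀ i ≤ L, f i = g i

theorem Uq.eq {k : ℕ} (h : Uq G k) {L : ℕ} {f g : ℕ → V} (hL : L ≤ k) (hf : NB G L f)
    (hg : NB G L g) (h0 : f 0 = g 0) (h1 : f L = g L) {i : ℕ} (hi : i ≤ L) : f i = g i :=
  (h L L f g hL hL rfl hf hg h0 h1).2 i hi

theorem NB.sub {L : ℕ} {f : ℕ → V} (h : NB G L f) (a b : ℕ) (hab : a + b ≤ L) :
    NB G b (fun i => f (a + i)) :=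
  ⟨fun i hi => h.1 (a + i) (by omega), fun i hi => h.2 (a + i) (by omega)⟩

theorem NB.rev {L : ℕ} {f : ℕ → V} (h : NB G L f) : NB G L (fun i => f (L - i)) := by
  constructor
  · intro i hi
    have h1 := h.1 (L - (i + 1)) (by omega)
    have e : L - (i + 1) + 1 = L - i := by omega
    rw [e] at h1
    exact h1.symm
  · intro i hi h1
    have h2 := h.2 (L - (i + 2)) (by omega)
    have e : L - (i + 2) + 2 = L - i := by omega
    rw [e] at h2
    exact h2 h1.symm

/-- Two walks one after the other. -/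
def app (L : ℕ) (f g : ℕ → V) : ℕ → V := fun i => if i ≤ L then f i else g (i - L)

theorem app_le {L i : ℕ} {f g : ℕ → V} (h : i ≤ L) : app L f g i = f i := by
  rw [app, if_pos h]

theorem app_ge {L i : ℕ} {f g : ℕ → V} (h : L ≤ i) (hfg : f L = g 0) :
    app L f g i = g (i - L) := by
  rw [app]
  split_ifs with h1
  · have e : i = L := by omega
    subst e
    rw [hfg, Nat.sub_self]
  · rfl

theorem NB.append {L L' : ℕ} {f g : ℕ → V} (hf : NB G L f) (hg : NB G L' g) (hfg : f L = g 0)
    (hne : 1 ≤ L → 1 ≤ L' → f (L - 1) ≠ g 1) : NB G (L + L') (app L f g) := by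
  constructor
  · intro i hi
    by_cases h1 : i + 1 ≤ L
    · rw [app_le h1, app_le (by omega)]
      exact hf.1 i (by omega)
    · rw [app_ge (by omega) hfg, app_ge (by omega) hfg]
      have h2 := hg.1 (i - L) (by omega)
      have e : i - L + 1 = i + 1 - L := by omega
      rwa [e] at h2
  · intro i hi
    by_cases h1 : i + 2 ≤ L
    · rw [app_le h1, app_le (by omega)]
      exact hf.2 i (by omega)
    · by_cases h2 : L ≤ i
      · rw [app_ge (by omega) hfg, app_ge (by omega) hfg]
        have h3 := hg.2 (i - L) (by omega)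
        have e : i - L + 2 = i + 2 - L := by omega
        rwa [e] at h3
      · have e : i = L - 1 := by omega
        rw [app_le (by omega), app_ge (by omega) hfg]
        have e2 : i + 2 - L = 1 := by omega
        rw [e2, e]
        exact hne (by omega) (by omega)

theorem snoc_last {L : ℕ} {f : ℕ → V} {y : V} :
    app L f (fun i => if i = 0 then f L else y) (L + 1) = y := by
  rw [app, if_neg (by omega), if_neg (by omega)]

theorem cons_zero {f : ℕ → V} {y : V} : app 1 (fun i => if i = 0 then y else f 0) f 0 = y := by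
  rw [app, if_pos (by omega), if_pos rfl]

theorem cons_succ {f : ℕ → V} {y : V} {i : ℕ} :
    app 1 (fun i => if i = 0 then y else f 0) f (i + 1) = f i := by
  by_cases h1 : i = 0
  · subst h1
    rw [app, if_pos (by omega), if_neg (by omega)]
  · rw [app, if_neg (by omega), Nat.add_sub_cancel]

/-- One more vertex at the end. -/
theorem NB.snoc {L : ℕ} {f : ℕ → V} (hf : NB G L f) {y : V} (hy : G.Adj (f L) y)
    (hne : 1 ≤ L → f (L - 1) ≠ y) :
    NB G (L + 1) (app L f (fun i => if i = 0 then f L else y)) := by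
  refine hf.append ⟨fun i hi => ?_, fun i hi => ?_⟩ rfl fun h1 _ => hne h1
  · have e : i = 0 := by omega
    subst e
    exact hy
  · omega

/-- One more vertex at the beginning. -/
theorem NB.cons {L : ℕ} {f : ℕ → V} (hf : NB G L f) {y : V} (hy : G.Adj y (f 0))
    (hne : 1 ≤ L → y ≠ f 1) :
    NB G (1 + L) (app 1 (fun i => if i = 0 then y else f 0) f) := by
  refine NB.append ⟨fun i hi => ?_, fun i hi => ?_⟩ hf rfl fun _ h1 => hne h1
  · have e : i = 0 := by omega
    subst e
    exact hy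
  · omega

theorem NB.cons' {L : ℕ} {f : ℕ → V} (hf : NB G L f) {y : V} (hy : G.Adj y (f 0))
    (hne : 1 ≤ L → y ≠ f 1) : ∃ g, NB G (L + 1) g ∧ g 0 = y ∧ ∀ i, g (i + 1) = f i := by
  refine ⟨app 1 (fun i => if i = 0 then y else f 0) f, ?_, cons_zero, fun i => cons_succ⟩
  rw [add_comm]
  exact hf.cons hy hne

theorem NB.snoc' {L : ℕ} {f : ℕ → V} (hf : NB G L f) {y : V} (hy : G.Adj (f L) y)
    (hne : 1 ≤ L → f (L - 1) ≠ y) :
    ∃ g, NB G (L + 1) g ∧ (∀ i ≤ L, g i = f i) ∧ g (L + 1) = y :=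
  ⟨_, hf.snoc hy hne, fun _ hi => app_le hi, snoc_last⟩

theorem NB.mono {G' : SimpleGraph V} (h : G ≤ G') {L : ℕ} {f : ℕ → V} (hf : NB G L f) :
    NB G' L f := ⟨fun i hi => h (hf.1 i hi), hf.2⟩

theorem Uq.mono {G' : SimpleGraph V} {k : ℕ} (h : Uq G' k) (hG : G ≤ G') : Uq G k :=
  fun L L' f g hL hL' hp hf hg => h L L' f g hL hL' hp (hf.mono hG) (hg.mono hG)

end

section

variable {V : Type} [Fintype V] (G : SimpleGraph V)

open Classical in
/-- The ends of the non-backtracking walks of length `j` from `u`. -/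
noncomputable def sph (j : ℕ) (u : V) : Finset V :=
  univ.filter fun v => ∃ f, NB G j f ∧ f 0 = u ∧ f j = v

open Classical in
/-- The ends of the non-backtracking walks of length `j + 1` that begin with `u`, `z`. -/
noncomputable def rr (j : ℕ) (u z : V) : Finset V :=
  univ.filter fun v => ∃ f, NB G (j + 1) f ∧ f 0 = u ∧ f 1 = z ∧ f (j + 1) = v

variable {G}

theorem mem_sph {j : ℕ} {u v : V} : v ∈ sph G j u ↔ ∃ f, NB G j f ∧ f 0 = u ∧ f j = v := by
  simp [sph]

theorem mem_rr {j : ℕ} {u z v : V} : v ∈ rr G j u z ↔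
    ∃ f, NB G (j + 1) f ∧ f 0 = u ∧ f 1 = z ∧ f (j + 1) = v := by
  simp [rr]

theorem sph_comm {j : ℕ} {u v : V} : v ∈ sph G j u ↔ u ∈ sph G j v := by
  have key : ∀ u v, v ∈ sph G j u → u ∈ sph G j v := by
    intro u v h
    obtain ⟨f, hf, h0, h1⟩ := mem_sph.1 h
    exact mem_sph.2 ⟨_, hf.rev, by simpa using h1, by simpa using h0⟩
  exact ⟨key u v, key v u⟩

theorem card_sph_le {Δ : ℕ} (hΔ : ∀ v, (nb G v).card ≤ Δ) (j : ℕ) (u : V) :
    (sph G j u).card ≤ Δ ^ j := by
  classical
  induction j with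
  | zero =>
    rw [pow_zero, card_le_one]
    intro a ha b hb
    obtain ⟨f, -, h0, h1⟩ := mem_sph.1 ha
    obtain ⟨g, -, h0', h1'⟩ := mem_sph.1 hb
    rw [← h1, ← h1', h0, h0']
  | succ j ih =>
    have h1 : sph G (j + 1) u ⊆ (sph G j u).biUnion fun v => nb G v := by
      intro a ha
      obtain ⟨f, hf, h0, h1⟩ := mem_sph.1 ha
      rw [mem_biUnion]
      refine ⟨f j, mem_sph.2 ⟨f, ?_, h0, rfl⟩, ?_⟩
      · have := hf.sub 0 j (by omega)
        simpa using this
      · rw [mem_nb, ← h1]
        exact hf.1 j (by omega)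
    calc (sph G (j + 1) u).card ≤ ((sph G j u).biUnion fun v => nb G v).card := card_le_card h1
      _ ≤ ∑ v ∈ sph G j u, (nb G v).card := card_biUnion_le
      _ ≤ ∑ _v ∈ sph G j u, Δ := sum_le_sum fun v _ => hΔ v
      _ = (sph G j u).card * Δ := by rw [sum_const, smul_eq_mul]
      _ ≤ Δ ^ j * Δ := Nat.mul_le_mul_right _ ih
      _ = _ := (pow_succ _ _).symm

/-- There are many non-backtracking walks. -/
theorem card_rr {k d : ℕ} (hG : Uq G k) (S : Finset V) (hd : ∀ v ∈ S, d + 1 ≤ (nb G v).card)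
    (hS : ∀ v ∈ S, ∀ w, G.Adj v w → w ∈ S) {u z : V} (hz : z ∈ S) (huz : G.Adj u z) (j : ℕ)
    (hj : j + 1 ≤ k) : rr G j u z ⊆ S ∧ d ^ j ≤ (rr G j u z).card := by
  classical
  induction j with
  | zero =>
    constructor
    · intro v hv
      obtain ⟨f, -, -, h1, h2⟩ := mem_rr.1 hv
      rw [← h2, zero_add, h1]
      exact hz
    · rw [pow_zero]
      refine card_pos.2 ⟨z, mem_rr.2 ⟨fun i => if i = 0 then u else z, ⟨fun i hi => ?_,
        fun i hi => ?_⟩, rfl, rfl, rfl⟩⟩
      · have e : i = 0 := by omega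
        subst e
        exact huz
      · omega
  | succ j ih =>
    obtain ⟨ih1, ih2⟩ := ih (by omega)
    have hch : ∀ v, ∃ f, v ∈ rr G j u z → NB G (j + 1) f ∧ f 0 = u ∧ f 1 = z ∧ f (j + 1) = v := by
      intro v
      by_cases h : v ∈ rr G j u z
      · obtain ⟨f, hf⟩ := mem_rr.1 h
        exact ⟨f, fun _ => hf⟩
      · exact ⟨fun _ => v, fun h' => absurd h' h⟩
    choose F hF using hch
    have hnew : ∀ v ∈ rr G j u z, ∀ y ∈ (nb G v).erase (F v j),
        ∃ f, NB G (j + 1 + 1) f ∧ f 0 = u ∧ f 1 = z ∧ f (j + 1) = v ∧ f (j + 1 + 1) = y := by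
      intro v hv y hy
      obtain ⟨h1, h2, h3, h4⟩ := hF v hv
      rw [mem_erase, mem_nb] at hy
      refine ⟨_, h1.snoc (y := y) (by rw [h4]; exact hy.2) (fun _ => by
        rw [Nat.add_sub_cancel]; exact hy.1.symm), ?_, ?_, ?_, ?_⟩
      · rw [app_le (by omega), h2]
      · rw [app_le (by omega), h3]
      · rw [app_le (by omega), h4]
      · exact snoc_last
    have hsub : (rr G j u z).biUnion (fun v => (nb G v).erase (F v j)) ⊆ rr G (j + 1) u z := by
      intro y hy
      rw [mem_biUnion] at hy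
      obtain ⟨v, hv, hy⟩ := hy
      obtain ⟨f, h1, h2, h3, -, h5⟩ := hnew v hv y hy
      exact mem_rr.2 ⟨f, h1, h2, h3, h5⟩
    have hdis : ((rr G j u z).biUnion (fun v => (nb G v).erase (F v j))).card =
        ∑ v ∈ rr G j u z, ((nb G v).erase (F v j)).card := by
      refine card_biUnion ?_
      intro v hv v' hv' hne
      rw [mem_coe] at hv hv'
      rw [Function.onFun, Finset.disjoint_left]
      intro y hy hy'
      obtain ⟨f, h1, h2, h3, h4, h5⟩ := hnew v hv y hy
      obtain ⟨f', h1', h2', h3', h4', h5'⟩ := hnew v' hv' y hy'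
      refine hne ?_
      rw [← h4, ← h4']
      exact hG.eq hj h1 h1' (h2.trans h2'.symm) (h5.trans h5'.symm) (by omega)
    constructor
    · intro y hy
      obtain ⟨f, h1, h2, h3, h4⟩ := mem_rr.1 hy
      have h5 : f (j + 1) ∈ rr G j u z := mem_rr.2 ⟨f, by simpa using h1.sub 0 (j + 1) (by omega),
        h2, h3, rfl⟩
      rw [← h4]
      exact hS _ (ih1 h5) _ (h1.1 (j + 1) (by omega))
    · calc d ^ (j + 1) = d ^ j * d := pow_succ _ _
        _ ≤ (rr G j u z).card * d := Nat.mul_le_mul_right _ ih2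
        _ = ∑ _v ∈ rr G j u z, d := by rw [sum_const, smul_eq_mul]
        _ ≤ ∑ v ∈ rr G j u z, ((nb G v).erase (F v j)).card := by
            refine sum_le_sum fun v hv => ?_
            have h1 := hd v (ih1 hv)
            have h2 := pred_card_le_card_erase (s := nb G v) (a := F v j)
            omega
        _ = _ := hdis.symm
        _ ≤ _ := card_le_card hsub

/-- The walks with different second vertices end in different vertices. -/
theorem rr_disjoint {k : ℕ} (hG : Uq G k) {j : ℕ} (hj : j + 1 ≤ k) {u z z' : V} (hne : z ≠ z') :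
    Disjoint (rr G j u z) (rr G j u z') := by
  rw [Finset.disjoint_left]
  intro v hv hv'
  obtain ⟨f, h1, h2, h3, h4⟩ := mem_rr.1 hv
  obtain ⟨f', h1', h2', h3', h4'⟩ := mem_rr.1 hv'
  refine hne ?_
  rw [← h3, ← h3']
  exact hG.eq hj h1 h1' (h2.trans h2'.symm) (h4.trans h4'.symm) (by omega)

/-- The number of the vertices that have the same distance from two vertices. -/
theorem card_meet {k Δ : ℕ} (hG : Uq G k) (hΔ1 : 1 ≤ Δ) (hΔ : ∀ v, (nb G v).card ≤ Δ) {w l : V}
    (hwl : w ≠ l) [DecidableEq V] (i : ℕ) (hi : i + 1 ≤ k) :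
    (sph G i w ∩ sph G i l).card ≤ i * Δ ^ (i - 1) := by
  classical
  induction i with
  | zero =>
    rw [zero_mul, Nat.le_zero, card_eq_zero, eq_empty_iff_forall_notMem]
    intro a ha
    rw [mem_inter] at ha
    obtain ⟨f, -, h0, h1⟩ := mem_sph.1 ha.1
    obtain ⟨g, -, h0', h1'⟩ := mem_sph.1 ha.2
    exact hwl (by rw [← h0, ← h0', h1, h1'])
  | succ i ih =>
    have ih' := ih (by omega)
    obtain ⟨Z, hZ⟩ : ∃ Z : Finset V, Z = univ.filter fun a => ∃ W, NB G (2 * (i + 1)) W ∧
      W 0 = w ∧ W (2 * (i + 1)) = l ∧ W (i + 1) = a := ⟨_, rfl⟩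
    have hsub : sph G (i + 1) w ∩ sph G (i + 1) l ⊆
        ((sph G i w ∩ sph G i l).biUnion fun b => nb G b) ∪ Z := by
      intro a ha
      rw [mem_inter] at ha
      obtain ⟨f, hf, h0, h1⟩ := mem_sph.1 ha.1
      obtain ⟨g, hg, h0', h1'⟩ := mem_sph.1 ha.2
      rw [mem_union]
      by_cases hb : f i = g i
      · left
        rw [mem_biUnion]
        refine ⟨f i, mem_inter.2 ⟨mem_sph.2 ⟨f, ?_, h0, rfl⟩, mem_sph.2 ⟨g, ?_, h0', hb.symm⟩⟩, ?_⟩
        · simpa using hf.sub 0 i (by omega)
        · simpa using hg.sub 0 i (by omega)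
        · rw [mem_nb, ← h1]
          exact hf.1 i (by omega)
      · right
        rw [hZ, mem_filter]
        have h2 := hf.append hg.rev (by simp only [Nat.sub_zero]; rw [h1, h1']) (fun _ _ => by
          simpa using hb)
        refine ⟨mem_univ _, app (i + 1) f (fun j => g (i + 1 - j)), ?_, ?_, ?_, ?_⟩
        · rw [two_mul]
          exact h2
        · rw [app_le (by omega), h0]
        · rw [app_ge (by omega) (by simp only [Nat.sub_zero]; rw [h1, h1'])]
          have e : i + 1 - (2 * (i + 1) - (i + 1)) = 0 := by omega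
          simp only [e]
          rw [h0']
        · rw [app_le le_rfl, h1]
    have hZc : Z.card ≤ Δ ^ i := by
      obtain ⟨t, ht⟩ : ∃ t, t = 2 * (i + 1) - k := ⟨_, rfl⟩
      have hch : ∀ a, ∃ W, a ∈ Z → NB G (2 * (i + 1)) W ∧ W 0 = w ∧ W (2 * (i + 1)) = l ∧
          W (i + 1) = a := by
        intro a
        by_cases h : a ∈ Z
        · have h' := h
          rw [hZ, mem_filter] at h'
          obtain ⟨-, W, hW⟩ := h'
          exact ⟨W, fun _ => hW⟩
        · exact ⟨fun _ => a, fun h' => absurd h' h⟩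
      choose F hF using hch
      have h1 : Z.card ≤ (sph G t w).card := by
        refine card_le_card_of_injOn (fun a => F a t) ?_ ?_
        · intro a ha
          obtain ⟨h1, h2, h3, h4⟩ := hF a ha
          rw [mem_coe, mem_sph]
          exact ⟨F a, by simpa using h1.sub 0 t (by omega), h2, rfl⟩
        · intro a ha a' ha' haa
          obtain ⟨h1, h2, h3, h4⟩ := hF a ha
          obtain ⟨h1', h2', h3', h4'⟩ := hF a' ha'
          have h5 := h1.sub t (2 * (i + 1) - t) (by omega)
          have h6 := h1'.sub t (2 * (i + 1) - t) (by omega)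
          have e : t + (2 * (i + 1) - t) = 2 * (i + 1) := by omega
          have h7 := hG.eq (i := i + 1 - t) (by omega) h5 h6 (by simpa using haa)
            (by simp only [e]; rw [h3, h3']) (by omega)
          have e2 : t + (i + 1 - t) = i + 1 := by omega
          simp only [e2] at h7
          rw [← h4, ← h4', h7]
      refine h1.trans ((card_sph_le hΔ t w).trans ?_)
      exact Nat.pow_le_pow_right hΔ1 (by omega)
    have h2 : ((sph G i w ∩ sph G i l).biUnion fun b => nb G b).card ≤ i * Δ ^ i := by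
      calc ((sph G i w ∩ sph G i l).biUnion fun b => nb G b).card
          ≤ ∑ b ∈ sph G i w ∩ sph G i l, (nb G b).card := card_biUnion_le
        _ ≤ ∑ _b ∈ sph G i w ∩ sph G i l, Δ := sum_le_sum fun v _ => hΔ v
        _ = (sph G i w ∩ sph G i l).card * Δ := by rw [sum_const, smul_eq_mul]
        _ ≤ i * Δ ^ (i - 1) * Δ := Nat.mul_le_mul_right _ ih'
        _ ≤ i * Δ ^ i := by
            rcases Nat.eq_zero_or_pos i with rfl | hi0
            · simp
            · rw [mul_assoc, ← pow_succ, Nat.sub_add_cancel hi0]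
    calc (sph G (i + 1) w ∩ sph G (i + 1) l).card
        ≤ (((sph G i w ∩ sph G i l).biUnion fun b => nb G b) ∪ Z).card := card_le_card hsub
      _ ≤ i * Δ ^ i + Δ ^ i := (card_union_le _ _).trans (Nat.add_le_add h2 hZc)
      _ = (i + 1) * Δ ^ (i + 1 - 1) := by rw [Nat.add_sub_cancel]; ring

end

end Run7.h33.LL
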