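import Pool.Agent.Run7.h33.LL.Nb

/-!
# Closed sets and non-backtracking walks
-/

set_option autoImplicit false
set_option linter.unusedSectionVars false

namespace Run7.h33.LL

open SimpleGraph Finset Run7.h33.NM

section

variable {V : Type} [Fintype V] [DecidableEq V] {G : SimpleGraph V} {k d : ℕ}

/-- Closed under the vertices of the non-backtracking walks of length at most `k`. -/
def ClN (G : SimpleGraph V) (k : ℕ) (K : Finset V) : Prop :=
  ∀ L f, L ≤ k → NB G L f → f 0 ∈ K → f L ∈ K → ∀ i ≤ L, f i ∈ K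

theorem card_out (hG : Uq G k) (S : Finset V) (hd : ∀ v ∈ S, d + 1 ≤ (nb G v).card)
    (hS : ∀ v ∈ S, ∀ w, G.Adj v w → w ∈ S) {u : V} (Z : Finset V)
    (hZ : ∀ z ∈ Z, z ∈ S ∧ G.Adj u z) (j : ℕ) (hj : j + 1 ≤ k) :
    Z.card * d ^ j ≤ (Z.biUnion fun z => rr G j u z).card := by
  have h1 : (Z.biUnion fun z => rr G j u z).card = ∑ z ∈ Z, (rr G j u z).card := by
    refine card_biUnion ?_
    intro z _ z' _ hne
    exact rr_disjoint hG hj hne
  rw [h1, ← smul_eq_mul, ← sum_const]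
  exact sum_le_sum fun z hz => (card_rr hG S hd hS (hZ z hz).1 (hZ z hz).2 j hj).2

theorem nb_two {u z u' : V} (h : G.Adj u z) (h' : G.Adj z u') (hne : u ≠ u') :
    ∃ f, NB G 2 f ∧ f 0 = u ∧ f 1 = z ∧ f 2 = u' := by
  refine ⟨fun i => if i = 0 then u else if i = 1 then z else u', ⟨fun i hi => ?_,
    fun i hi => ?_⟩, rfl, rfl, rfl⟩
  · have e : i = 0 ∨ i = 1 := by omega
    rcases e with rfl | rfl
    · exact h
    · exact h'
  · have e : i = 0 := by omega
    subst e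
    exact hne

theorem ctxN (hk : 2 ≤ k) (hG : Uq G k) (hd : ∀ v, d + 1 ≤ (nb G v).card) :
    Ctx G (ClN G k) d (d ^ (k - 1)) (max 1 ((d / 4) ^ k)) where
  deg := hd
  one := by
    intro K hK z hz u hu u' hu' hzu hzu'
    by_contra hne
    obtain ⟨f, hf, h0, h1, h2⟩ := nb_two hzu.symm hzu' hne
    refine hz ?_
    rw [← h1]
    exact hK 2 f hk hf (by rw [h0]; exact hu) (by rw [h2]; exact hu') 1 (by omega)
  far := by
    intro u z huz
    have h := card_rr hG univ (fun v _ => hd v) (fun _ _ _ _ => mem_univ _) (mem_univ z) huz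
      (k - 1) (by omega)
    refine ⟨rr G (k - 1) u z, h.2, ?_⟩
    intro v hv K hK hu hvK
    obtain ⟨f, hf, h0, h1, h2⟩ := mem_rr.1 hv
    rw [← h1]
    exact hK _ f (by omega) hf (by rw [h0]; exact hu) (by rw [h2]; exact hvK) 1 (by omega)
  dense := by
    intro M hM
    refine max_le (nonempty_of_dense hM) ?_
    obtain ⟨S, hSM, ⟨u, hu⟩, hS⟩ := exists_core d M hM
    refine le_trans ?_ (card_le_card hSM)
    have hdeg : ∀ v ∈ S, d / 4 + 1 ≤ (nb (cut G S) v).card := by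
      intro v hv
      rw [nb_cut hv]
      have := hS v hv
      omega
    have hcl : ∀ v ∈ S, ∀ w, (cut G S).Adj v w → w ∈ S := fun _ _ _ h => h.2.2
    have hU : Uq (cut G S) k := hG.mono (cut_le S)
    have h1 := card_out hU S hdeg hcl (u := u) (nb (cut G S) u)
      (fun z hz => ⟨(mem_nb.1 hz).2.2, mem_nb.1 hz⟩) (k - 1) (by omega)
    have h2 : ((nb (cut G S) u).biUnion fun z => rr (cut G S) (k - 1) u z) ⊆ S := by
      intro v hv
      rw [mem_biUnion] at hv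
      obtain ⟨z, hz, hv⟩ := hv
      exact (card_rr hU S hdeg hcl (mem_nb.1 hz).2.2 (mem_nb.1 hz) (k - 1) (by omega)).1 hv
    calc (d / 4) ^ k = d / 4 * (d / 4) ^ (k - 1) := by
          rw [← pow_succ']
          congr 1
          omega
      _ ≤ (nb (cut G S) u).card * (d / 4) ^ (k - 1) :=
          Nat.mul_le_mul_right _ (by have := hdeg u hu; omega)
      _ ≤ _ := h1
      _ ≤ _ := card_le_card h2

/-- The degrees are bounded. -/
theorem card_nb_le {B : ℕ} (hk : 2 ≤ k) (hd1 : 1 ≤ d) (hG : Uq G k)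
    (hd : ∀ v, d + 1 ≤ (nb G v).card) (hn : Fintype.card V ≤ B * d ^ k) (u : V) :
    (nb G u).card ≤ B * d := by
  have h1 := card_out hG univ (fun v _ => hd v) (fun _ _ _ _ => mem_univ _) (u := u) (nb G u)
    (fun z hz => ⟨mem_univ _, mem_nb.1 hz⟩) (k - 1) (by omega)
  have h2 := (h1.trans (card_le_univ _)).trans hn
  have e : B * d ^ k = B * d * d ^ (k - 1) := by
    rw [mul_assoc, ← pow_succ']
    congr 2
    omega
  rw [e] at h2
  exact Nat.le_of_mul_le_mul_right h2 (Nat.pow_pos (by omega))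

/-- The number of the edges from a closed set to the outside. -/
theorem bsum {Cl : Finset V → Prop} {r q : ℕ} (hX : Ctx G Cl d r q) {K₀ K : Finset V}
    (h₀ : Cl K₀) (hq : (K \ K₀).card < q) :
    d * (K \ K₀).card ≤ 2 * ∑ u ∈ K \ K₀, (nb G u \ K).card := by
  obtain ⟨M, hM⟩ : ∃ M, M = K \ K₀ := ⟨_, rfl⟩
  rw [← hM] at hq ⊢
  have hMK : ∀ u ∈ M, u ∈ K ∧ u ∉ K₀ := by
    intro u hu
    rw [hM, mem_sdiff] at hu
    exact hu
  have hsum : 2 * ∑ u ∈ M, (nb G u ∩ M).card ≤ d * M.card := by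
    by_contra hcon
    have := hX.dense M (by omega)
    omega
  have hdeg : ∀ u ∈ M, d ≤ (nb G u \ K).card + (nb G u ∩ M).card := by
    intro u hu
    have h1 : nb G u ⊆ (nb G u \ K) ∪ ((nb G u ∩ M) ∪ (nb G u ∩ K₀)) := by
      intro z hz
      rw [mem_union, mem_union, mem_sdiff, mem_inter, mem_inter]
      by_cases hzK : z ∈ K
      · by_cases hz0 : z ∈ K₀
        · exact Or.inr (Or.inr ⟨hz, hz0⟩)
        · exact Or.inr (Or.inl ⟨hz, by rw [hM, mem_sdiff]; exact ⟨hzK, hz0⟩⟩)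
      · exact Or.inl ⟨hz, hzK⟩
    have h2 : (nb G u ∩ K₀).card ≤ 1 := by
      rw [card_le_one]
      intro a ha b hb
      rw [mem_inter, mem_nb] at ha hb
      exact hX.one K₀ h₀ u (hMK u hu).2 a ha.2 b hb.2 ha.1 hb.1
    have h3 := (card_le_card h1).trans ((card_union_le _ _).trans
      (Nat.add_le_add_left (card_union_le _ _) _))
    have h4 := hX.deg u
    omega
  have h1 : ∑ _u ∈ M, d ≤ ∑ u ∈ M, ((nb G u \ K).card + (nb G u ∩ M).card) :=
    sum_le_sum hdeg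
  rw [sum_const, smul_eq_mul, sum_add_distrib] at h1
  have h2 : M.card * d = d * M.card := mul_comm _ _
  omega

/-- Some subset of a given size has at least the average weight. -/
theorem top {α : Type} [DecidableEq α] (h : α → ℕ) (m : ℕ) (M : Finset α) (hm : m ≤ M.card) :
    ∃ S ⊆ M, S.card = m ∧ m * ∑ x ∈ M, h x ≤ M.card * ∑ x ∈ S, h x := by
  induction hn : M.card - m generalizing M with
  | zero =>
    refine ⟨M, Subset.rfl, by omega, ?_⟩
    have : m = M.card := by omega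
    rw [this]
  | succ n ih =>
    obtain ⟨x, hx, hmin⟩ := exists_min_image M h (card_pos.1 (by omega))
    have hc : (M.erase x).card = M.card - 1 := card_erase_of_mem hx
    obtain ⟨S, hS, hSc, hSs⟩ := ih (M.erase x) (by omega) (by omega)
    refine ⟨S, hS.trans (erase_subset _ _), hSc, ?_⟩
    obtain ⟨c, hce⟩ : ∃ c, M.card = c + 1 := ⟨M.card - 1, by omega⟩
    have hs : ∑ y ∈ M, h y = h x + ∑ y ∈ M.erase x, h y := (add_sum_erase M h hx).symm
    have hx2 : c * h x ≤ ∑ y ∈ M.erase x, h y := by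
      calc c * h x = ∑ _y ∈ M.erase x, h x := by
            rw [sum_const, smul_eq_mul, hc, hce, Nat.add_sub_cancel]
        _ ≤ _ := sum_le_sum fun y hy => hmin y (mem_of_mem_erase hy)
    rw [hc, hce, Nat.add_sub_cancel] at hSs
    rw [hce, hs]
    obtain ⟨X, hX⟩ : ∃ X, X = ∑ y ∈ M.erase x, h y := ⟨_, rfl⟩
    obtain ⟨Z, hZ⟩ : ∃ Z, Z = ∑ y ∈ S, h y := ⟨_, rfl⟩
    rw [← hX, ← hZ] at hSs
    rw [← hX] at hx2 ⊢
    rw [← hZ]
    -- `c h ≤ X`, `m X ≤ c Z`, to show `m (h + X) ≤ (c + 1) Z`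
    rcases Nat.eq_zero_or_pos c with rfl | hc0
    · have hm0 : m = 0 := by omega
      subst hm0
      simp
    · have h1 : c * (m * (h x + X)) ≤ c * ((c + 1) * Z) := by
        calc c * (m * (h x + X)) = m * (c * h x) + c * (m * X) := by ring
          _ ≤ m * X + c * (m * X) := Nat.add_le_add_right (Nat.mul_le_mul_left _ hx2) _
          _ = (c + 1) * (m * X) := by ring
          _ ≤ (c + 1) * (c * Z) := Nat.mul_le_mul_left _ hSs
          _ = _ := by ring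
      exact Nat.le_of_mul_le_mul_left h1 hc0

end

theorem fin_arith {k d B n s s₁ Q Y S T T₁ T₂ F : ℕ} (hk : 2 ≤ k) (hd : 2 ≤ d) (hs : 1 ≤ s)
    (hs₁ : 1 ≤ s₁) (ha : s * d ^ k ≤ 2 * Y) (hb : Y ^ 2 ≤ n * S) (hc : S ≤ Y + s ^ 2 * Q + T)
    (hdn : 2 * n ≤ Y) (he : s₁ * T ≤ s * T₁) (hf : T₁ ≤ T₂ + s₁ ^ 2 * s * Q)
    (hg : (d - 1) * d ^ (k - 2) * (d - 1) * T₂ ≤ n ^ 2 * F) (hh : 32 * B * s₁ * Q ≤ d ^ k)
    (hn : n ≤ B * d ^ k) : s * s₁ ≤ 128 * B ^ 3 * F := by
  obtain ⟨D, hD⟩ : ∃ D, D = d ^ k := ⟨_, rfl⟩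
  have hDpos : 0 < D := by rw [hD]; exact Nat.pow_pos (by omega)
  rw [← hD] at ha hh hn
  -- step 1
  have h1 : Y ^ 2 ≤ 2 * n * (s ^ 2 * Q + T) := by
    have h2 : 2 * n * Y ≤ Y ^ 2 := by
      rw [pow_two]
      exact Nat.mul_le_mul_right _ hdn
    have h3 : n * S ≤ n * (Y + s ^ 2 * Q + T) := Nat.mul_le_mul_left _ hc
    have e : 2 * (n * (Y + s ^ 2 * Q + T)) = 2 * n * Y + 2 * n * (s ^ 2 * Q + T) := by ring
    omega
  have h2 : D * (s ^ 2 * D) ≤ D * (8 * B * (s ^ 2 * Q + T)) := by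
    calc D * (s ^ 2 * D) = (s * D) ^ 2 := by ring
      _ ≤ (2 * Y) ^ 2 := Nat.pow_le_pow_left ha 2
      _ = 4 * Y ^ 2 := by ring
      _ ≤ 4 * (2 * n * (s ^ 2 * Q + T)) := Nat.mul_le_mul_left _ h1
      _ = 8 * n * (s ^ 2 * Q + T) := by ring
      _ ≤ 8 * (B * D) * (s ^ 2 * Q + T) :=
          Nat.mul_le_mul_right _ (Nat.mul_le_mul_left _ hn)
      _ = _ := by ring
  have h3 := Nat.le_of_mul_le_mul_left h2 hDpos
  have h4 : 16 * B * Q ≤ D := by
    refine le_trans ?_ hh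
    calc 16 * B * Q = 16 * B * 1 * Q := by ring
      _ ≤ 32 * B * s₁ * Q := by gcongr; norm_num
  have h5 : s ^ 2 * D ≤ 16 * B * T := by
    have h6 : s ^ 2 * (16 * B * Q) ≤ s ^ 2 * D := Nat.mul_le_mul_left _ h4
    have e1 : 2 * (8 * B * (s ^ 2 * Q + T)) = s ^ 2 * (16 * B * Q) + 16 * B * T := by ring
    omega
  -- step 2
  have h6 : s * s₁ * D ≤ 16 * B * T₁ := by
    have h7 : s * (s * s₁ * D) ≤ s * (16 * B * T₁) := by
      calc s * (s * s₁ * D) = s₁ * (s ^ 2 * D) := by ring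
        _ ≤ s₁ * (16 * B * T) := Nat.mul_le_mul_left _ h5
        _ = 16 * B * (s₁ * T) := by ring
        _ ≤ 16 * B * (s * T₁) := Nat.mul_le_mul_left _ he
        _ = _ := by ring
    exact Nat.le_of_mul_le_mul_left h7 hs
  -- step 3
  have h7 : s * s₁ * D ≤ 32 * B * T₂ := by
    have h8 : s * s₁ * (32 * B * s₁ * Q) ≤ s * s₁ * D := Nat.mul_le_mul_left _ hh
    have h9 : 32 * B * T₁ ≤ 32 * B * (T₂ + s₁ ^ 2 * s * Q) := Nat.mul_le_mul_left _ hf
    have e1 : 32 * B * (T₂ + s₁ ^ 2 * s * Q) = 32 * B * T₂ + s * s₁ * (32 * B * s₁ * Q) := by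
      ring
    have e2 : 32 * B * T₁ = 2 * (16 * B * T₁) := by ring
    omega
  -- step 4
  have h8 : D * T₂ ≤ D * (4 * B ^ 2 * D * F) := by
    have h9 : D ≤ 4 * ((d - 1) * d ^ (k - 2) * (d - 1)) := by
      have h10 : d ^ 2 ≤ (2 * (d - 1)) ^ 2 := Nat.pow_le_pow_left (by omega) 2
      calc D = d ^ 2 * d ^ (k - 2) := by
            rw [hD, ← pow_add]
            congr 1
            omega
        _ ≤ (2 * (d - 1)) ^ 2 * d ^ (k - 2) := Nat.mul_le_mul_right _ h10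
        _ = _ := by ring
    calc D * T₂ ≤ 4 * ((d - 1) * d ^ (k - 2) * (d - 1)) * T₂ := Nat.mul_le_mul_right _ h9
      _ = 4 * ((d - 1) * d ^ (k - 2) * (d - 1) * T₂) := by ring
      _ ≤ 4 * (n ^ 2 * F) := Nat.mul_le_mul_left _ hg
      _ ≤ 4 * ((B * D) ^ 2 * F) := by gcongr
      _ = _ := by ring
  have h9 := Nat.le_of_mul_le_mul_left h8 hDpos
  have h10 : D * (s * s₁) ≤ D * (128 * B ^ 3 * F) := by
    calc D * (s * s₁) = s * s₁ * D := by ring
      _ ≤ 32 * B * T₂ := h7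
      _ ≤ 32 * B * (4 * B ^ 2 * D * F) := Nat.mul_le_mul_left _ h9
      _ = _ := by ring
  exact Nat.le_of_mul_le_mul_left h10 hDpos

end Run7.h33.LL
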