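import Pool.Agent.Run7.h33.LL.NbCtx

/-!
# Superlinear growth of closed sets for non-backtracking walks
-/

set_option autoImplicit false
set_option linter.unusedSectionVars false

namespace Run7.h33.LL

open SimpleGraph Finset Run7.h33.NM

section

variable {V : Type} [Fintype V] [DecidableEq V] {G : SimpleGraph V} {k d : ℕ}

/-- The ends of the walks of length `k` that leave `K` at once. -/
noncomputable def out (G : SimpleGraph V) (k : ℕ) (K : Finset V) (w : V) : Finset V :=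
  (nb G w \ K).biUnion fun z => rr G (k - 1) w z

theorem mem_out (hk : 2 ≤ k) {K : Finset V} {w a : V} (h : a ∈ out G k K w) :
    ∃ f, NB G k f ∧ f 0 = w ∧ f 1 ∉ K ∧ f k = a := by
  rw [out, mem_biUnion] at h
  obtain ⟨z, hz, h⟩ := h
  rw [mem_sdiff] at hz
  obtain ⟨f, hf, h0, h1, h2⟩ := mem_rr.1 h
  have e : k - 1 + 1 = k := by omega
  rw [e] at hf h2
  exact ⟨f, hf, h0, by rw [h1]; exact hz.2, h2⟩

/-- Middle vertices of walks of length `2 k`. -/
def Cf (G : SimpleGraph V) (k : ℕ) (K : Finset V) (a w l : V) (W : ℕ → V) : Prop :=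
  NB G (2 * k) W ∧ W 0 = w ∧ W k = a ∧ W (2 * k) = l ∧ W 1 ∉ K

/-- The end is determined. -/
def Cf₂ (G : SimpleGraph V) (k : ℕ) (K K₁ : Finset V) (a w l : V) (W : ℕ → V) : Prop :=
  Cf G k K a w l W ∧ ∀ l' ∈ K₁, W (k + 1) ∈ sph G (k - 1) l' → l' = l

/-- The pairs of vertices that generate the third vertex of a walk. -/
def Rl (G : SimpleGraph V) (k : ℕ) (K K₁ : Finset V) (a w l : V) (v : V × V)
    (x : (ℕ → V) × (ℕ → V)) : Prop :=
  Cf₂ G k K K₁ a w l x.1 ∧ (NB G k x.2 ∧ x.2 0 = x.1 0 ∧ x.2 1 = x.1 1 ∧ x.2 2 ≠ x.1 2 ∧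
    x.2 k = v.1) ∧ G.Adj (x.1 (k + 1)) v.2 ∧ v.2 ≠ x.1 k ∧ v.2 ≠ x.1 (k + 2)

/-- The walk ends at the end of the tail. -/
theorem Cf.tail {K : Finset V} {a w l : V} {W : ℕ → V} (h : Cf G k K a w l W) (hk : 2 ≤ k) :
    W (k + 1) ∈ sph G (k - 1) l := by
  rw [sph_comm, mem_sph]
  refine ⟨_, h.1.sub (k + 1) (k - 1) (by omega), rfl, ?_⟩
  have e : k + 1 + (k - 1) = 2 * k := by omega
  simp only [e]
  exact h.2.2.2.1

/-- Two elements see a vertex: they are equal, or the walks merge, or there is a long walk. -/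
theorem trichotomy (hk : 2 ≤ k) {K : Finset V} {a w l : V} (hw : a ∈ out G k K w)
    (hl : a ∈ out G k K l) :
    (a ∈ (sph G (k - 1) w ∩ sph G (k - 1) l).biUnion fun b => nb G b) ∨
      ∃ W, Cf G k K a w l W := by
  obtain ⟨f, hf, f0, f1, f2⟩ := mem_out hk hw
  obtain ⟨g, hg, g0, g1, g2⟩ := mem_out hk hl
  by_cases h : f (k - 1) = g (k - 1)
  · left
    rw [mem_biUnion]
    refine ⟨f (k - 1), mem_inter.2 ⟨mem_sph.2 ⟨f, ?_, f0, rfl⟩, mem_sph.2 ⟨g, ?_, g0, h.symm⟩⟩,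
      ?_⟩
    · simpa using hf.sub 0 (k - 1) (by omega)
    · simpa using hg.sub 0 (k - 1) (by omega)
    · rw [mem_nb]
      have h1 := hf.1 (k - 1) (by omega)
      have e : k - 1 + 1 = k := by omega
      rw [e, f2] at h1
      exact h1
  · right
    have hfg : f k = (fun i => g (k - i)) 0 := by
      simp only [Nat.sub_zero]
      rw [f2, g2]
    have h2 := hf.append hg.rev hfg (fun _ _ => h)
    refine ⟨app k f (fun i => g (k - i)), ?_, ?_, ?_, ?_, ?_⟩
    · rw [two_mul]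
      exact h2
    · rw [app_le (by omega), f0]
    · rw [app_le le_rfl, f2]
    · rw [app_ge (by omega) hfg]
      have e : k - (2 * k - k) = 0 := by omega
      simp only [e]
      rw [g0]
    · rw [app_le (by omega)]
      exact f1

/-- A closed set with the pair contains the third vertex of the walk. -/
theorem Rl.closed (hk : 2 ≤ k) {K K₁ K' : Finset V} (hK' : ClN G k K') {a w l : V} {v : V × V}
    {x : (ℕ → V) × (ℕ → V)} (h : Rl G k K K₁ a w l v x) (hw : w ∈ K') (hl : l ∈ K')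
    (hv1 : v.1 ∈ K') (hv2 : v.2 ∈ K') : x.1 2 ∈ K' := by
  obtain ⟨⟨⟨h1, h2, h3, h4, h5⟩, h6⟩, ⟨h7, h8, h9, h10, h11⟩, h12, h13, h14⟩ := h
  have hz : x.1 1 ∈ K' := by
    rw [← h9]
    exact hK' k x.2 le_rfl h7 (by rw [h8, h2]; exact hw) (by rw [h11]; exact hv1) 1 (by omega)
  have hx : x.1 (k + 1) ∈ K' := by
    have h15 := h1.sub (k + 1) (k - 1) (by omega)
    obtain ⟨g, h16, g0, g1⟩ := h15.cons' (y := v.2) h12.symm (fun _ => h14)
    have h17 := hK' _ _ (by omega) h16 (by rw [g0]; exact hv2) (by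
      rw [g1]
      have e2 : k + 1 + (k - 1) = 2 * k := by omega
      rw [e2, h4]
      exact hl) (0 + 1) (by omega)
    rw [g1] at h17
    exact h17
  have h18 := h1.sub 1 k (by omega)
  have h19 := hK' k _ le_rfl h18 hz (by
    have e : 1 + k = k + 1 := by omega
    simp only [e]
    exact hx) 1 (by omega)
  exact h19

/-- The third vertex determines everything. -/
theorem Rl.inj (hk : 2 ≤ k) (hG : Uq G k) {K K₁ : Finset V}
    (hone : ∀ z, z ∉ K → ∀ u ∈ K, ∀ u' ∈ K, G.Adj z u → G.Adj z u' → u = u')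
    {a w l a' w' l' : V} {v : V × V}
    {x x' : (ℕ → V) × (ℕ → V)} (h : Rl G k K K₁ a w l v x) (h' : Rl G k K K₁ a' w' l' v x')
    (hw : w ∈ K) (hw' : w' ∈ K) (hl' : l' ∈ K₁) (he : x.1 2 = x'.1 2) :
    a = a' ∧ w = w' ∧ l' = l := by
  obtain ⟨⟨⟨h1, h2, h3, h4, h5⟩, h6⟩, ⟨h7, h8, h9, h10, h11⟩, h12, h13, h14⟩ := h
  obtain ⟨⟨⟨h1', h2', h3', h4', h5'⟩, h6'⟩, ⟨h7', h8', h9', h10', h11'⟩, h12', h13', h14'⟩ := h'
  -- the vertices `z`
  have hz : x.1 1 = x'.1 1 := by
    obtain ⟨g, a1, g0, g1⟩ := (h7.sub 1 (k - 1) (by omega)).cons' (y := x.1 2) (by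
      simp only [Nat.add_zero]
      rw [h9]
      exact (h1.1 1 (by omega)).symm) (fun _ => h10.symm)
    obtain ⟨g', a2, g0', g1'⟩ := (h7'.sub 1 (k - 1) (by omega)).cons' (y := x'.1 2) (by
      simp only [Nat.add_zero]
      rw [h9']
      exact (h1'.1 1 (by omega)).symm) (fun _ => h10'.symm)
    have a3 := hG.eq (i := 0 + 1) (by omega) a1 a2 (by rw [g0, g0', he]) (by
      rw [g1, g1']
      have e2 : 1 + (k - 1) = k := by omega
      rw [e2, h11, h11']) (by omega)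
    rw [g1, g1'] at a3
    rw [← h9, ← h9']
    exact a3
  have hww : w = w' := by
    have b1 := h1.1 0 (by omega)
    have b2 := h1'.1 0 (by omega)
    rw [h2] at b1
    rw [h2', zero_add, ← hz] at b2
    exact hone _ h5 w hw w' hw' b1.symm b2.symm
  -- the vertices `x` and `a`
  have hk1 : 2 + (k - 1) = k + 1 := by omega
  obtain ⟨g, a1, g0, g1⟩ := (h1.sub 2 (k - 1) (by omega)).snoc' (y := v.2) (by
    simp only [hk1]
    exact h12) (fun _ => by
      have e : 2 + (k - 1 - 1) = k := by omega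
      simp only [e]
      exact h13.symm)
  obtain ⟨g', a2, g0', g1'⟩ := (h1'.sub 2 (k - 1) (by omega)).snoc' (y := v.2) (by
    simp only [hk1]
    exact h12') (fun _ => by
      have e : 2 + (k - 1 - 1) = k := by omega
      simp only [e]
      exact h13'.symm)
  have hend : ∀ i ≤ k - 1, x.1 (2 + i) = x'.1 (2 + i) := by
    intro i hi
    have a3 := hG.eq (i := i) (by omega) a1 a2 (by
      rw [g0 0 (by omega), g0' 0 (by omega)]
      exact he) (by rw [g1, g1']) (by omega)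
    rw [g0 i hi, g0' i hi] at a3
    exact a3
  have hx := hend (k - 1) le_rfl
  rw [hk1] at hx
  have ha := hend (k - 2) (by omega)
  have e : 2 + (k - 2) = k := by omega
  rw [e, h3, h3'] at ha
  refine ⟨ha, hww, ?_⟩
  refine h6 l' hl' ?_
  rw [hx]
  exact Cf.tail ⟨h1', h2', h3', h4', h5'⟩ hk

/-- Many pairs generate the third vertex. -/
theorem card_serve (hk : 2 ≤ k) (hG : Uq G k) (hd : ∀ v, d + 1 ≤ (nb G v).card)
    {K K₁ : Finset V} {a w l : V} {W : ℕ → V} (h : Cf₂ G k K K₁ a w l W)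
    (P : Finset (V × V)) (hP : ∀ v : V × V, (∃ x, Rl G k K K₁ a w l v x) → v ∈ P) :
    (d - 1) * d ^ (k - 2) * (d - 1) ≤ P.card := by
  obtain ⟨⟨h1, h2, h3, h4, h5⟩, h6⟩ := id h
  obtain ⟨V₁, hV₁⟩ : ∃ V₁, V₁ = (((nb G (W 1)).erase w).erase (W 2)).biUnion
    fun y => rr G (k - 2) (W 1) y := ⟨_, rfl⟩
  obtain ⟨V₂, hV₂⟩ : ∃ V₂, V₂ = ((nb G (W (k + 1))).erase (W k)).erase (W (k + 2)) := ⟨_, rfl⟩
  have hc : ∀ v b b', d - 1 ≤ (((nb G v).erase b).erase b').card := by
    intro v b b'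
    have a1 := hd v
    have a2 := pred_card_le_card_erase (s := nb G v) (a := b)
    have a3 := pred_card_le_card_erase (s := (nb G v).erase b) (a := b')
    omega
  have hc1 : (d - 1) * d ^ (k - 2) ≤ V₁.card := by
    rw [hV₁]
    refine le_trans (Nat.mul_le_mul_right _ (hc (W 1) w (W 2))) ?_
    refine card_out hG univ (fun v _ => hd v) (fun _ _ _ _ => mem_univ _) _ (fun z hz => ?_)
      (k - 2) (by omega)
    rw [mem_erase, mem_erase, mem_nb] at hz
    exact ⟨mem_univ _, hz.2.2⟩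
  have hc2 : d - 1 ≤ V₂.card := by
    rw [hV₂]
    exact hc _ _ _
  refine (Nat.mul_le_mul hc1 hc2).trans ?_
  rw [← card_product]
  refine card_le_card ?_
  intro v hv
  refine hP v ?_
  rw [mem_product, hV₁, mem_biUnion, hV₂, mem_erase, mem_erase, mem_nb] at hv
  obtain ⟨⟨y, hy, hv1⟩, hv2, hv3, hv4⟩ := hv
  rw [mem_erase, mem_erase, mem_nb] at hy
  obtain ⟨g, hg, g0, g1, g2⟩ := mem_rr.1 hv1
  have hwz : G.Adj w (W 1) := by
    have := h1.1 0 (by omega)
    rwa [h2] at this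
  obtain ⟨g', a1, g0', g1'⟩ := hg.cons' (y := w) (by rw [g0]; exact hwz)
    (fun _ => by rw [g1]; exact hy.2.1.symm)
  have e : k - 2 + 1 + 1 = k := by omega
  rw [e] at a1
  refine ⟨(W, g'), h, ⟨a1, ?_, ?_, ?_, ?_⟩, hv4, hv3, hv2⟩
  · simp only
    rw [g0', h2]
  · have := g1' 0
    simp only at this ⊢
    rw [this, g0]
  · have := g1' 1
    simp only at this ⊢
    rw [this, g1]
    exact hy.1
  · have := g1' (k - 2 + 1)
    rw [e] at this
    simp only at this ⊢
    rw [this, g2]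

end

end Run7.h33.LL
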