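import Pool.Agent.Run7.h33.LL.NbGrow

/-!
# Superlinear growth: the counting
-/

set_option autoImplicit false
set_option linter.unusedSectionVars false

namespace Run7.h33.LL

open SimpleGraph Finset Run7.h33.NM

section

variable {V : Type} [Fintype V] [DecidableEq V] {G : SimpleGraph V} {k d : ℕ}

/-- The vertices behind a common vertex of two walks. -/
noncomputable def mt (G : SimpleGraph V) (k : ℕ) (w l : V) : Finset V :=
  (sph G (k - 1) w ∩ sph G (k - 1) l).biUnion fun b => nb G b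

theorem card_mt {Δ : ℕ} (hk : 2 ≤ k) (hG : Uq G k) (hΔ1 : 1 ≤ Δ)
    (hΔ : ∀ v, (nb G v).card ≤ Δ) {w l : V} (hwl : w ≠ l) :
    (mt G k w l).card ≤ (k - 1) * Δ ^ (k - 1) := by
  calc (mt G k w l).card ≤ ∑ b ∈ sph G (k - 1) w ∩ sph G (k - 1) l, (nb G b).card :=
        card_biUnion_le
    _ ≤ ∑ _b ∈ sph G (k - 1) w ∩ sph G (k - 1) l, Δ := sum_le_sum fun v _ => hΔ v
    _ = (sph G (k - 1) w ∩ sph G (k - 1) l).card * Δ := by rw [sum_const, smul_eq_mul]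
    _ ≤ (k - 1) * Δ ^ (k - 1 - 1) * Δ :=
        Nat.mul_le_mul_right _ (card_meet hG hΔ1 hΔ hwl (k - 1) (by omega))
    _ = (k - 1) * Δ ^ (k - 1) := by
        rw [mul_assoc, ← pow_succ]
        congr 2
        omega

theorem growN {B s₁ : ℕ} (hk : 2 ≤ k) (hd2 : 2 ≤ d) (hB : 1 ≤ B) (hG : Uq G k)
    (hd : ∀ v, d + 1 ≤ (nb G v).card) (hn : Fintype.card V ≤ B * d ^ k) {K₀ K : Finset V}
    (h₀ : ClN G k K₀) (hK : ClN G k K) (hsub : K₀ ⊆ K)
    (hq : (K \ K₀).card < max 1 ((d / 4) ^ k)) (hs : 4 * B ≤ (K \ K₀).card) (hs₁ : 1 ≤ s₁)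
    (hs₁s : s₁ ≤ (K \ K₀).card) (hs₁d : 32 * (k - 1) * B ^ k * s₁ ≤ d) :
    ∃ v₁ v₂, ∀ K', ClN G k K' → insert v₁ (insert v₂ K) ⊆ K' →
      (K \ K₀).card * s₁ ≤ 128 * B ^ 3 * (K' \ K₀).card := by
  classical
  have hX := ctxN hk hG hd
  obtain ⟨M, hM⟩ : ∃ M, M = K \ K₀ := ⟨_, rfl⟩
  have hbs := bsum hX h₀ hq
  have hMK : ∀ u ∈ M, u ∈ K := by
    intro u hu
    rw [hM, mem_sdiff] at hu
    exact hu.1
  rw [← hM] at hq hs hs₁s hbs ⊢
  obtain ⟨Δ, hΔe⟩ : ∃ Δ, Δ = B * d := ⟨_, rfl⟩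
  have hΔ : ∀ v, (nb G v).card ≤ Δ := fun v => by
    rw [hΔe]
    exact card_nb_le hk (by omega) hG hd hn v
  have hΔ1 : 1 ≤ Δ := by
    rw [hΔe]
    exact Nat.mul_pos hB (by omega)
  obtain ⟨Q, hQ⟩ : ∃ Q, Q = (k - 1) * Δ ^ (k - 1) := ⟨_, rfl⟩
  have hmt : ∀ w l, w ≠ l → (mt G k w l).card ≤ Q := fun w l h => by
    rw [hQ]
    exact card_mt hk hG hΔ1 hΔ h
  obtain ⟨n, hne⟩ : ∃ n, n = Fintype.card V := ⟨_, rfl⟩
  rw [← hne] at hn
  obtain ⟨X, hXe⟩ : ∃ X : V → Finset V, X = fun a => M.filter fun w => a ∈ out G k K w :=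
    ⟨_, rfl⟩
  have hmX : ∀ a w, w ∈ X a ↔ w ∈ M ∧ a ∈ out G k K w := by
    intro a w
    rw [hXe, mem_filter]
  obtain ⟨Y, hY⟩ : ∃ Y, Y = ∑ a : V, (X a).card := ⟨_, rfl⟩
  -- (a)
  have ha : M.card * d ^ k ≤ 2 * Y := by
    have h1 : Y = ∑ w ∈ M, (out G k K w).card := by
      have e1 : ∀ a, (X a).card = ∑ w ∈ M, if a ∈ out G k K w then 1 else 0 := by
        intro a
        rw [hXe, ← card_filter]
      have e2 : ∀ w, (out G k K w).card = ∑ a : V, if a ∈ out G k K w then 1 else 0 := by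
        intro w
        rw [← card_filter, filter_mem_eq_inter, univ_inter]
      rw [hY, sum_congr rfl fun a _ => e1 a, sum_comm]
      exact sum_congr rfl fun w _ => (e2 w).symm
    have h2 : (∑ w ∈ M, (nb G w \ K).card) * d ^ (k - 1) ≤ Y := by
      rw [h1, sum_mul]
      refine sum_le_sum fun w _ => ?_
      exact card_out hG univ (fun v _ => hd v) (fun _ _ _ _ => mem_univ _) _
        (fun z hz => ⟨mem_univ _, mem_nb.1 (mem_sdiff.1 hz).1⟩) (k - 1) (by omega)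
    calc M.card * d ^ k = d * M.card * d ^ (k - 1) := by
          have e : d ^ k = d * d ^ (k - 1) := by
            rw [← pow_succ']
            congr 1
            omega
          rw [e]
          ring
      _ ≤ 2 * (∑ w ∈ M, (nb G w \ K).card) * d ^ (k - 1) := Nat.mul_le_mul_right _ hbs
      _ = 2 * ((∑ w ∈ M, (nb G w \ K).card) * d ^ (k - 1)) := by ring
      _ ≤ 2 * Y := Nat.mul_le_mul_left _ h2
  -- (b)
  obtain ⟨S, hS⟩ : ∃ S, S = ∑ a : V, (X a).card ^ 2 := ⟨_, rfl⟩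
  have hb : Y ^ 2 ≤ n * S := by
    rw [hY, hS]
    exact cs univ (fun a => (X a).card) (by rw [card_univ, hne])
  -- (c)
  obtain ⟨T, hT⟩ : ∃ T : Finset (Σ _ : V, V × V), T = univ.sigma fun a =>
    (M ×ˢ M).filter fun p => ∃ W, Cf G k K a p.1 p.2 W := ⟨_, rfl⟩
  have hmT : ∀ t : (Σ _ : V, V × V), t ∈ T ↔ (t.2.1 ∈ M ∧ t.2.2 ∈ M) ∧
      ∃ W, Cf G k K t.1 t.2.1 t.2.2 W := by
    intro t
    rw [hT, mem_sigma, mem_filter, mem_product]
    exact ⟨fun h => h.2, fun h => ⟨mem_univ _, h⟩⟩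
  have hc : S ≤ Y + M.card ^ 2 * Q + T.card := by
    obtain ⟨P, hP⟩ : ∃ P : Finset (Σ _ : V, V × V), P = univ.sigma fun a => X a ×ˢ X a :=
      ⟨_, rfl⟩
    have e1 : P.card = S := by
      rw [hP, card_sigma, hS]
      refine sum_congr rfl fun a _ => ?_
      rw [card_product, pow_two]
    obtain ⟨P₁, hP₁⟩ : ∃ P₁ : Finset (Σ _ : V, V × V), P₁ = univ.sigma fun a =>
      (X a).image fun w => (w, w) := ⟨_, rfl⟩
    have e2 : P₁.card ≤ Y := by
      rw [hP₁, card_sigma, hY]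
      exact sum_le_sum fun a _ => card_image_le
    obtain ⟨P₂, hP₂⟩ : ∃ P₂ : Finset (Σ _ : V × V, V), P₂ =
      ((M ×ˢ M).filter fun p => p.1 ≠ p.2).sigma fun p => mt G k p.1 p.2 := ⟨_, rfl⟩
    have e3 : P₂.card ≤ M.card ^ 2 * Q := by
      rw [hP₂, card_sigma]
      calc ∑ p ∈ (M ×ˢ M).filter (fun p => p.1 ≠ p.2), (mt G k p.1 p.2).card
          ≤ ∑ _p ∈ (M ×ˢ M).filter (fun p => p.1 ≠ p.2), Q :=
            sum_le_sum fun p hp => hmt _ _ (mem_filter.1 hp).2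
        _ = ((M ×ˢ M).filter (fun p => p.1 ≠ p.2)).card * Q := by rw [sum_const, smul_eq_mul]
        _ ≤ (M ×ˢ M).card * Q := Nat.mul_le_mul_right _ (card_filter_le _ _)
        _ = _ := by rw [card_product, pow_two]
    have e4 : P ⊆ (P₁ ∪ P₂.image fun x => (⟨x.2, x.1⟩ : Σ _ : V, V × V)) ∪ T := by
      rintro ⟨a, w, l⟩ ht
      rw [hP, mem_sigma, mem_product] at ht
      obtain ⟨-, h1, h2⟩ := ht
      simp only at h1 h2
      rw [mem_union, mem_union]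
      by_cases hwl : w = l
      · left
        left
        rw [hP₁, mem_sigma]
        subst hwl
        exact ⟨mem_univ _, mem_image_of_mem _ h1⟩
      · rw [hmX] at h1 h2
        rcases trichotomy hk h1.2 h2.2 with h3 | h3
        · left
          right
          rw [mem_image]
          refine ⟨⟨(w, l), a⟩, ?_, rfl⟩
          rw [hP₂, mem_sigma, mem_filter, mem_product]
          exact ⟨⟨⟨h1.1, h2.1⟩, hwl⟩, h3⟩
        · right
          rw [hmT]
          exact ⟨⟨h1.1, h2.1⟩, h3⟩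
    have e5 := (card_le_card e4).trans ((card_union_le _ _).trans
      (Nat.add_le_add_right (card_union_le _ _) _))
    have e6 := (card_image_le (s := P₂) (f := fun x => (⟨x.2, x.1⟩ : Σ _ : V, V × V))).trans e3
    omega
  -- (d)
  have hdn : 2 * n ≤ Y := by
    have h1 : B * (2 * (2 * n)) ≤ B * (2 * Y) := by
      calc B * (2 * (2 * n)) = 4 * B * n := by ring
        _ ≤ M.card * (B * d ^ k) := Nat.mul_le_mul hs hn
        _ = B * (M.card * d ^ k) := by ring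
        _ ≤ _ := Nat.mul_le_mul_left _ ha
    have := Nat.le_of_mul_le_mul_left h1 (by omega)
    omega
  -- (e)
  obtain ⟨K₁, hK₁, hK₁c, htop⟩ := top (fun l : V => (T.filter fun t => t.2.2 = l).card) s₁ M hs₁s
  obtain ⟨T₁, hT₁⟩ : ∃ T₁, T₁ = T.filter fun t => t.2.2 ∈ K₁ := ⟨_, rfl⟩
  have he : s₁ * T.card ≤ M.card * T₁.card := by
    have h1 : T.card = ∑ l ∈ M, (T.filter fun t => t.2.2 = l).card :=
      card_eq_sum_card_fiberwise fun t ht => ((hmT t).1 ht).1.2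
    have h2 : T₁.card = ∑ l ∈ K₁, (T.filter fun t => t.2.2 = l).card := by
      have h3 : T₁.card = ∑ l ∈ K₁, (T₁.filter fun t => t.2.2 = l).card :=
        card_eq_sum_card_fiberwise fun t ht => by
          rw [hT₁, mem_coe, mem_filter] at ht
          exact ht.2
      rw [h3]
      refine sum_congr rfl fun l hl => ?_
      congr 1
      ext t
      rw [mem_filter, mem_filter, hT₁, mem_filter]
      constructor
      · rintro ⟨⟨h4, -⟩, h5⟩
        exact ⟨h4, h5⟩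
      · rintro ⟨h4, h5⟩
        exact ⟨⟨h4, by rw [h5]; exact hl⟩, h5⟩
    rw [h1, h2]
    exact htop
  -- (f)
  obtain ⟨T₂, hT₂⟩ : ∃ T₂ : Finset (Σ _ : V, V × V), T₂ = univ.sigma fun a =>
    (M ×ˢ K₁).filter fun p => ∃ W, Cf₂ G k K K₁ a p.1 p.2 W := ⟨_, rfl⟩
  have hmT₂ : ∀ t : (Σ _ : V, V × V), t ∈ T₂ ↔ (t.2.1 ∈ M ∧ t.2.2 ∈ K₁) ∧
      ∃ W, Cf₂ G k K K₁ t.1 t.2.1 t.2.2 W := by
    intro t
    rw [hT₂, mem_sigma, mem_filter, mem_product]
    exact ⟨fun h => h.2, fun h => ⟨mem_univ _, h⟩⟩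
  have hf : T₁.card ≤ T₂.card + s₁ ^ 2 * M.card * Q := by
    obtain ⟨P₂, hP₂⟩ : ∃ P₂ : Finset (Σ _ : (V × V) × V, V), P₂ =
      (((K₁ ×ˢ K₁).filter fun p => p.1 ≠ p.2) ×ˢ M).sigma fun p => mt G k p.1.1 p.1.2 :=
        ⟨_, rfl⟩
    have e3 : P₂.card ≤ s₁ ^ 2 * M.card * Q := by
      rw [hP₂, card_sigma]
      calc ∑ p ∈ ((K₁ ×ˢ K₁).filter fun p => p.1 ≠ p.2) ×ˢ M, (mt G k p.1.1 p.1.2).card
          ≤ ∑ _p ∈ ((K₁ ×ˢ K₁).filter fun p => p.1 ≠ p.2) ×ˢ M, Q :=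
            sum_le_sum fun p hp => hmt _ _ (mem_filter.1 (mem_product.1 hp).1).2
        _ = (((K₁ ×ˢ K₁).filter fun p => p.1 ≠ p.2) ×ˢ M).card * Q := by
            rw [sum_const, smul_eq_mul]
        _ ≤ s₁ ^ 2 * M.card * Q := by
            refine Nat.mul_le_mul_right _ ?_
            rw [card_product]
            refine Nat.mul_le_mul_right _ ((card_filter_le _ _).trans ?_)
            rw [card_product, hK₁c, pow_two]
    have e4 : T₁ ⊆ T₂ ∪ P₂.image fun x => (⟨x.2, (x.1.2, x.1.1.1)⟩ : Σ _ : V, V × V) := by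
      rintro ⟨a, w, l⟩ ht
      rw [hT₁, mem_filter, hmT] at ht
      obtain ⟨⟨⟨h1, h2⟩, W, h3⟩, h4⟩ := ht
      simp only at h1 h2 h3 h4
      rw [mem_union]
      by_cases h5 : ∀ l' ∈ K₁, W (k + 1) ∈ sph G (k - 1) l' → l' = l
      · left
        rw [hmT₂]
        exact ⟨⟨h1, h4⟩, W, h3, h5⟩
      · right
        push Not at h5
        obtain ⟨l', h6, h7, h8⟩ := h5
        rw [mem_image]
        refine ⟨⟨((l, l'), w), a⟩, ?_, rfl⟩
        rw [hP₂, mem_sigma, mem_product, mem_filter, mem_product]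
        refine ⟨⟨⟨⟨h4, h6⟩, h8.symm⟩, h1⟩, ?_⟩
        simp only
        rw [mt, mem_biUnion]
        refine ⟨W (k + 1), mem_inter.2 ⟨h3.tail hk, h7⟩, ?_⟩
        rw [mem_nb, ← h3.2.2.1]
        exact (h3.1.1 k (by omega)).symm
    have e5 := (card_le_card e4).trans (card_union_le _ _)
    have e6 := (card_image_le (s := P₂)
      (f := fun x => (⟨x.2, (x.1.2, x.1.1.1)⟩ : Σ _ : V, V × V))).trans e3
    omega
  -- (g)
  have hMpos : 1 ≤ M.card := by omega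
  obtain ⟨v₀, -⟩ := card_pos.1 hMpos
  obtain ⟨v, -, hpig⟩ := pigeon T₂ (univ : Finset (V × V))
    (fun t v => ∃ x, Rl G k K K₁ t.1 t.2.1 t.2.2 v x) (c := (d - 1) * d ^ (k - 2) * (d - 1))
    (m := n ^ 2) (by
      intro t ht
      obtain ⟨-, W, hW⟩ := (hmT₂ t).1 ht
      exact card_serve hk hG hd hW _ fun v hv => mem_filter.2 ⟨mem_univ _, hv⟩) (by
      rw [card_univ, Fintype.card_prod, ← hne, pow_two]) ⟨(v₀, v₀), mem_univ _⟩
  refine ⟨v.1, v.2, fun K' hK' hsub' => ?_⟩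
  have hKK' : K ⊆ K' := (subset_insert _ _).trans ((subset_insert _ _).trans hsub')
  have hv1 : v.1 ∈ K' := hsub' (mem_insert_self _ _)
  have hv2 : v.2 ∈ K' := hsub' (mem_insert_of_mem (mem_insert_self _ _))
  obtain ⟨F, hF⟩ : ∃ F, F = T₂.filter fun t => ∃ x, Rl G k K K₁ t.1 t.2.1 t.2.2 v x := ⟨_, rfl⟩
  rw [← hF] at hpig
  have hch : ∀ t : (Σ _ : V, V × V), ∃ x, t ∈ F → Rl G k K K₁ t.1 t.2.1 t.2.2 v x := by
    intro t
    by_cases h : t ∈ F
    · have h' := h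
      rw [hF, mem_filter] at h'
      obtain ⟨-, x, hx⟩ := h'
      exact ⟨x, fun _ => hx⟩
    · exact ⟨(fun _ => v₀, fun _ => v₀), fun h' => absurd h' h⟩
  choose x hx using hch
  have hone := hX.one K hK
  have hin : F.card ≤ (K' \ K₀).card := by
    refine card_le_card_of_injOn (fun t => (x t).1 2) ?_ ?_
    · intro t ht
      have h1 := hx t ht
      rw [mem_coe, hF, mem_filter, hmT₂] at ht
      obtain ⟨⟨⟨h2, h3⟩, -⟩, -⟩ := ht
      rw [mem_coe, mem_sdiff]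
      refine ⟨h1.closed hk hK' (hKK' (hMK _ h2)) (hKK' (hMK _ (hK₁ h3))) hv1 hv2, fun h4 => ?_⟩
      obtain ⟨⟨⟨h5, h6, -, -, h7⟩, -⟩, -⟩ := h1
      have h8 := h5.1 0 (by omega)
      have h9 := h5.1 1 (by omega)
      refine h5.2 0 (by omega) ?_
      refine hone _ h7 _ ?_ _ (hsub h4) h8.symm h9
      rw [h6]
      exact hMK _ h2
    · intro t ht t' ht' htt
      have h1 := hx t ht
      have h1' := hx t' ht'
      rw [mem_coe, hF, mem_filter, hmT₂] at ht ht'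
      obtain ⟨h2, h3, h4⟩ := Rl.inj hk hG hone h1 h1' (hMK _ ht.1.1.1) (hMK _ ht'.1.1.1)
        ht'.1.1.2 htt
      obtain ⟨a, w, l⟩ := t
      obtain ⟨a', w', l'⟩ := t'
      simp only at h2 h3 h4
      subst h2 h3 h4
      rfl
  have hh : 32 * B * s₁ * Q ≤ d ^ k := by
    have e : d ^ k = d * d ^ (k - 1) := by
      rw [← pow_succ']
      congr 1
      omega
    have e2 : B ^ k = B * B ^ (k - 1) := by
      rw [← pow_succ']
      congr 1
      omega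
    calc 32 * B * s₁ * Q = 32 * (k - 1) * B ^ k * s₁ * d ^ (k - 1) := by
          rw [hQ, hΔe, mul_pow, e2]
          ring
      _ ≤ d * d ^ (k - 1) := Nat.mul_le_mul_right _ hs₁d
      _ = d ^ k := e.symm
  have := fin_arith hk hd2 hMpos hs₁ ha hb hc hdn he hf hpig hh hn
  exact this.trans (Nat.mul_le_mul_left _ hin)

end

end Run7.h33.LL
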