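import Pool.Agent.Run7.h33.LL.Two
import Pool.Agent.Run7.h33.AF.Nets

/-!
# Dense graphs without cycles of length four: the Weisfeiler-Leman dimension
-/

set_option autoImplicit false
set_option linter.unusedSectionVars false

namespace Run7.h33.LL

open SimpleGraph Finset Run7.h33.NM Run7.h33.AF Pool.Agent.N624.NT Pool.Agent.W185.SRG

theorem arith_q {n d A : ℕ} (hn : n ≤ A * (d + 1) ^ 2) :
    n / max 1 ((d / 4) ^ 2) ≤ 64 * A := by
  obtain ⟨q, hq⟩ : ∃ q, q = max 1 ((d / 4) ^ 2) := ⟨_, rfl⟩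
  rw [← hq]
  have hq1 : 1 ≤ q := by rw [hq]; exact le_max_left _ _
  have hdq : (d + 1) ^ 2 ≤ 64 * q := by
    by_cases h4 : d / 4 = 0
    · have h5 : d + 1 ≤ 8 := by omega
      calc (d + 1) ^ 2 ≤ 8 ^ 2 := Nat.pow_le_pow_left h5 2
        _ = 64 * 1 := by norm_num
        _ ≤ _ := Nat.mul_le_mul_left _ hq1
    · have h5 : d + 1 ≤ 8 * (d / 4) := by omega
      calc (d + 1) ^ 2 ≤ (8 * (d / 4)) ^ 2 := Nat.pow_le_pow_left h5 2
        _ = 64 * (d / 4) ^ 2 := by ring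
        _ ≤ _ := Nat.mul_le_mul_left _ (by rw [hq]; exact le_max_right _ _)
  refine Nat.div_le_of_le_mul ?_
  calc n ≤ A * (d + 1) ^ 2 := hn
    _ ≤ A * (64 * q) := Nat.mul_le_mul_left _ hdq
    _ = _ := by ring

theorem arith_N {n q A lA ll N : ℕ} (hA : 1 ≤ A) (hq : n / q ≤ 64 * A)
    (hN : 20000 * A * (A * (lA + 1) + ll) ≤ N) :
    (n / q + 1) * (1 + 8 * A * (28 + 6 * lA) + 2 * (2 * (ll + 1))) + 2 ≤ N := by
  obtain ⟨X, hX⟩ : ∃ X, X = A * (lA + 1) := ⟨_, rfl⟩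
  rw [← hX] at hN
  have hAX : A ≤ X := by
    rw [hX]
    exact Nat.le_mul_of_pos_right _ (by omega)
  have h1 : 8 * A * (28 + 6 * lA) ≤ 224 * X := by
    rw [hX]
    calc 8 * A * (28 + 6 * lA) ≤ 8 * A * (28 * (lA + 1)) := Nat.mul_le_mul_left _ (by omega)
      _ = _ := by ring
  have h2 : 1 + 8 * A * (28 + 6 * lA) + 2 * (2 * (ll + 1)) ≤ 229 * (X + ll) := by omega
  have h3 : n / q + 1 ≤ 65 * A := by omega
  have h4 : 1 ≤ A * (X + ll) := Nat.mul_pos hA (by omega)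
  calc (n / q + 1) * (1 + 8 * A * (28 + 6 * lA) + 2 * (2 * (ll + 1))) + 2
      ≤ 65 * A * (229 * (X + ll)) + 2 := Nat.add_le_add_right (Nat.mul_le_mul h3 h2) 2
    _ = 14885 * (A * (X + ll)) + 2 := by ring
    _ ≤ 20000 * (A * (X + ll)) := by omega
    _ = 20000 * A * (X + ll) := by ring
    _ ≤ N := hN

theorem lt_loglog (n : ℕ) : n < 2 ^ 2 ^ (Nat.log 2 (Nat.log 2 n) + 1) := by
  have h1 : n < 2 ^ (Nat.log 2 n + 1) := Nat.lt_pow_succ_log_self (by norm_num) n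
  have h2 : Nat.log 2 n < 2 ^ (Nat.log 2 (Nat.log 2 n) + 1) :=
    Nat.lt_pow_succ_log_self (by norm_num) _
  exact lt_of_lt_of_le h1 (Nat.pow_le_pow_right (by norm_num) h2)

section

variable {V W : Type} [Fintype V] [Fintype W] {G : SimpleGraph V} {H : SimpleGraph W} {N : ℕ}

theorem one_le_of' {A l ll : ℕ} (hA : 1 ≤ A) (hN : 20000 * A * (A * (l + 1) + ll) ≤ N) :
    1 ≤ N := by
  refine le_trans ?_ hN
  exact Nat.mul_pos (by omega) (Nat.add_pos_left (Nat.mul_pos (by omega) (by omega)) _)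

/-- Graphs in which two vertices have at most one common neighbour. -/
theorem main_two {δ A : ℕ} (hδ : 2 ≤ δ) (hA : 1 ≤ A) (hG : NoC4 G)
    (hd : ∀ v, δ ≤ (G.neighborSet v).ncard) (hn : Fintype.card V ≤ A * δ ^ 2)
    (hN : 20000 * A * (A * (Nat.log 2 A + 1) + Nat.log 2 (Nat.log 2 (Fintype.card V))) ≤ N)
    (h : WLEquivalent N G H) : Nonempty (G ≃g H) := by
  classical
  rcases isEmpty_or_nonempty V with hV | hV
  · exact iso_of_empty (one_le_of' hA hN) h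
  obtain ⟨d, rfl⟩ : ∃ d, δ = d + 1 := ⟨δ - 1, by omega⟩
  have hd' : ∀ v, d + 1 ≤ (nb G v).card := fun v => by rw [card_nb]; exact hd v
  have hd1 : 1 ≤ d := by omega
  have hX := ctxC hG hd'
  have hn4 : Fintype.card V ≤ 4 * A * d ^ 2 := by
    calc Fintype.card V ≤ A * (d + 1) ^ 2 := hn
      _ ≤ A * (2 * d) ^ 2 := Nat.mul_le_mul_left _ (Nat.pow_le_pow_left (by omega) 2)
      _ = _ := by ring
  have hS : Sup (ClC G) ((32 * (4 * A) ^ 3) ^ 2) (max 1 ((d / 4) ^ 2)) 2 := by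
    by_cases hd2 : 2 ≤ d
    · exact supC hG hX (by omega) hd2 hn4
    · intro K₀ K _ _ _ h1 h2
      exfalso
      have h3 : d / 4 = 0 := by omega
      have h5 : max 1 ((d / 4) ^ 2) = 1 := by
        rw [h3]
        norm_num
      rw [h5] at h2
      have h4 : 1 ≤ (32 * (4 * A) ^ 3) ^ 2 :=
        Nat.pow_pos (Nat.mul_pos (by norm_num) (Nat.pow_pos (by omega)))
      omega
  have hm : (32 * (4 * A) ^ 3) ^ 2 ≤ 2 ^ (28 + 6 * Nat.log 2 A) := by
    have h1 : A < 2 ^ (Nat.log 2 A + 1) := Nat.lt_pow_succ_log_self (by norm_num) A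
    calc (32 * (4 * A) ^ 3) ^ 2 = 4194304 * A ^ 6 := by ring
      _ ≤ 4194304 * (2 ^ (Nat.log 2 A + 1)) ^ 6 :=
          Nat.mul_le_mul_left _ (Nat.pow_le_pow_left h1.le 6)
      _ = _ := by ring
  have hm2 : 2 ≤ (32 * (4 * A) ^ 3) ^ 2 := by
    have h4 : 1 ≤ A ^ 6 := Nat.pow_pos (by omega)
    have e : (32 * (4 * A) ^ 3) ^ 2 = 4194304 * A ^ 6 := by ring
    omega
  refine main_abs' hX hS hd1 (Nat.pow_pos hd1) (le_max_left _ _) hm2 (by norm_num)
    (fun E hE => clC_kn hG hE) (B := 8 * A) (by omega) ?_ hm (lt_loglog _)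
    (arith_N hA (arith_q hn) hN) h
  calc 2 * Fintype.card V ≤ 2 * (4 * A * d ^ 2) := Nat.mul_le_mul_left _ hn4
    _ = 8 * A * (d * d ^ (2 - 1)) := by
      norm_num
      ring

end

end Run7.h33.LL
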