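import Pool.Agent.Run7.h33.LL.NbSup
import Pool.Agent.Run7.h33.LL.TwoMain

/-!
# Superlinear growth with a fixed exponent, and the arithmetic
-/

set_option autoImplicit false
set_option linter.unusedSectionVars false

namespace Run7.h33.LL

open SimpleGraph Finset Run7.h33.NM

/-- From `s s₁ ≤ D F` to `s ^ (4 k + 1) ≤ F ^ (4 k)`. -/
theorem exp_arith {k d B s E F : ℕ} (hk : 2 ≤ k) (hB : 1 ≤ B)
    (hM : ((8192 * k * B ^ (k + 3)) ^ 2) ^ k ≤ s) (hsd : s < d ^ k)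
    (hE : E = d / (32 * k * B ^ k)) (h : s * min s E ≤ 128 * B ^ 3 * F) :
    s ^ (4 * k + 1) ≤ F ^ (4 * k) := by
  obtain ⟨c, hc⟩ : ∃ c, c = 64 * k * B ^ k := ⟨_, rfl⟩
  obtain ⟨D, hD⟩ : ∃ D, D = 128 * B ^ 3 := ⟨_, rfl⟩
  have hB3 : 1 ≤ B ^ 3 := Nat.pow_pos (by omega)
  have hBk : 1 ≤ B ^ k := Nat.pow_pos (by omega)
  have hD1 : 1 ≤ D := by omega
  have hkB : 1 ≤ k * B ^ k := Nat.mul_pos (by omega) hBk
  have hc1 : 64 ≤ c := by
    rw [hc, mul_assoc]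
    omega
  have hDc : 8192 * k * B ^ (k + 3) = D * c := by
    rw [hc, hD]
    ring
  rw [hDc] at hM
  rw [← hD] at h
  have hd : (D * c) ^ 2 < d := by
    have h1 : ((D * c) ^ 2) ^ k < d ^ k := lt_of_le_of_lt hM hsd
    exact lt_of_pow_lt_pow_left₀ k (Nat.zero_le _) h1
  have hDc1 : 1 ≤ D * c := Nat.mul_pos hD1 (by omega)
  have hD2 : D ^ 2 ≤ s := by
    refine le_trans ?_ hM
    calc D ^ 2 ≤ (D * c) ^ 2 := Nat.pow_le_pow_left (Nat.le_mul_of_pos_right _ (by omega)) 2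
      _ = ((D * c) ^ 2) ^ 1 := (pow_one _).symm
      _ ≤ ((D * c) ^ 2) ^ k := Nat.pow_le_pow_right (Nat.pow_pos hDc1) (by omega)
  have hs1 : 1 ≤ s := le_trans (Nat.pow_pos hD1) hD2
  have hDpos : 0 < D ^ (4 * k) := Nat.pow_pos hD1
  rcases le_total s E with hsE | hsE
  · rw [min_eq_left hsE] at h
    refine Nat.le_of_mul_le_mul_left ?_ hDpos
    calc D ^ (4 * k) * s ^ (4 * k + 1) ≤ D ^ (2 * (4 * k - 1)) * s ^ (4 * k + 1) :=
          Nat.mul_le_mul_right _ (Nat.pow_le_pow_right hD1 (by omega))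
      _ = (D ^ 2) ^ (4 * k - 1) * s ^ (4 * k + 1) := by rw [pow_mul]
      _ ≤ s ^ (4 * k - 1) * s ^ (4 * k + 1) :=
          Nat.mul_le_mul_right _ (Nat.pow_le_pow_left hD2 _)
      _ = (s * s) ^ (4 * k) := by
          rw [← pow_add, ← pow_two, ← pow_mul]
          congr 1
          omega
      _ ≤ (D * F) ^ (4 * k) := Nat.pow_le_pow_left h _
      _ = _ := mul_pow _ _ _
  · rw [min_eq_right hsE] at h
    have hdE : d ≤ c * E := by
      have h1 : 32 * k * B ^ k ≤ d := by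
        have e1 : 2 * (32 * k * B ^ k) = c := by rw [hc]; ring
        have e2 : c ≤ (D * c) ^ 2 := by
          calc c = 1 * c := (one_mul c).symm
            _ ≤ D * c := Nat.mul_le_mul_right _ hD1
            _ ≤ (D * c) ^ 2 := Nat.le_self_pow (by norm_num) _
        omega
      obtain ⟨b, hb⟩ : ∃ b, b = 32 * k * B ^ k := ⟨_, rfl⟩
      rw [← hb] at h1 hE
      have hb1 : 0 < b := by
        rw [hb, mul_assoc]
        omega
      have h2 : 1 ≤ E := by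
        rw [hE]
        exact Nat.div_pos h1 hb1
      have h3 := Nat.lt_div_mul_add (a := d) hb1
      rw [← hE] at h3
      have e1 : c * E = 2 * (E * b) := by
        rw [hc, hb]
        ring
      have h4 : b ≤ E * b := Nat.le_mul_of_pos_left _ h2
      omega
    have h1 : D ^ 4 * d ≤ E ^ 4 := by
      have hc4 : 0 < c ^ 4 := Nat.pow_pos (by omega)
      refine Nat.le_of_mul_le_mul_left ?_ hc4
      calc c ^ 4 * (D ^ 4 * d) = (D * c) ^ 4 * d := by ring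
        _ ≤ (D * c) ^ 6 * d :=
            Nat.mul_le_mul_right _ (Nat.pow_le_pow_right hDc1 (by norm_num))
        _ = ((D * c) ^ 2) ^ 3 * d := by ring
        _ ≤ d ^ 3 * d := Nat.mul_le_mul_right _ (Nat.pow_le_pow_left hd.le 3)
        _ = d ^ 4 := by ring
        _ ≤ (c * E) ^ 4 := Nat.pow_le_pow_left hdE 4
        _ = _ := by ring
    have h2 : D ^ (4 * k) * s ≤ E ^ (4 * k) := by
      calc D ^ (4 * k) * s ≤ D ^ (4 * k) * d ^ k := Nat.mul_le_mul_left _ hsd.le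
        _ = (D ^ 4 * d) ^ k := by rw [mul_pow, ← pow_mul]
        _ ≤ (E ^ 4) ^ k := Nat.pow_le_pow_left h1 k
        _ = E ^ (4 * k) := (pow_mul _ _ _).symm
    refine Nat.le_of_mul_le_mul_left ?_ hDpos
    calc D ^ (4 * k) * s ^ (4 * k + 1) = D ^ (4 * k) * s * s ^ (4 * k) := by
          rw [pow_succ]
          ring
      _ ≤ E ^ (4 * k) * s ^ (4 * k) := Nat.mul_le_mul_right _ h2
      _ = (s * E) ^ (4 * k) := by rw [mul_pow, mul_comm]
      _ ≤ (D * F) ^ (4 * k) := Nat.pow_le_pow_left h _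
      _ = _ := mul_pow _ _ _

section

variable {V : Type} [Fintype V] [DecidableEq V] {G : SimpleGraph V} {k d : ℕ}

theorem supN {B : ℕ} (hk : 2 ≤ k) (hB : 1 ≤ B) (hG : Uq G k)
    (hd : ∀ v, d + 1 ≤ (nb G v).card) (hn : Fintype.card V ≤ B * d ^ k) :
    Sup (ClN G k) (((8192 * k * B ^ (k + 3)) ^ 2) ^ k) (max 1 ((d / 4) ^ k)) (4 * k) := by
  intro K₀ K h₀ hK hsub hm hq
  have hBk : 1 ≤ B ^ k := Nat.pow_pos (by omega)
  have hC : 8192 * k * B ^ (k + 3) ≤ ((8192 * k * B ^ (k + 3)) ^ 2) ^ k := by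
    rw [← pow_mul]
    exact Nat.le_self_pow (by omega) _
  have hkB : 1 ≤ k * B ^ (k + 3) := Nat.mul_pos (by omega) (Nat.pow_pos (by omega))
  have hC2 : 2 ≤ 8192 * k * B ^ (k + 3) := by
    rw [mul_assoc]
    omega
  have hm1 : 2 ≤ (K \ K₀).card := hC2.trans (hC.trans hm)
  have hsd : (K \ K₀).card < d ^ k := by
    have h1 : (d / 4) ^ k ≤ d ^ k := Nat.pow_le_pow_left (Nat.div_le_self _ _) k
    have h2 : max 1 ((d / 4) ^ k) ≤ max 1 (d ^ k) := max_le_max le_rfl h1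
    rcases le_total 1 (d ^ k) with h3 | h3
    · rw [max_eq_right h3] at h2
      omega
    · rw [max_eq_left h3] at h2
      omega
  have hCd : (8192 * k * B ^ (k + 3)) ^ 2 < d :=
    lt_of_pow_lt_pow_left₀ k (Nat.zero_le _) (lt_of_le_of_lt hm hsd)
  have hCd2 : 8192 * k * B ^ (k + 3) ≤ d := by
    have := Nat.le_self_pow (n := 2) (by norm_num) (8192 * k * B ^ (k + 3))
    omega
  have hBk3 : B ^ k ≤ B ^ (k + 3) := Nat.pow_le_pow_right hB (by omega)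
  have hb : 32 * k * B ^ k ≤ d := by
    refine le_trans ?_ hCd2
    gcongr
    norm_num
  have hb1 : 0 < 32 * k * B ^ k := Nat.mul_pos (by omega) hBk
  obtain ⟨E, hE⟩ : ∃ E, E = d / (32 * k * B ^ k) := ⟨_, rfl⟩
  have hE1 : 1 ≤ E := by
    rw [hE]
    exact Nat.div_pos hb hb1
  have hs4 : 4 * B ≤ (K \ K₀).card := by
    refine le_trans ?_ (hC.trans hm)
    have h1 : B ≤ B ^ (k + 3) := Nat.le_self_pow (by omega) B
    calc 4 * B ≤ 8192 * k * B := Nat.mul_le_mul_right _ (by omega)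
      _ ≤ _ := Nat.mul_le_mul_left _ h1
  obtain ⟨v₁, v₂, h⟩ := growN (s₁ := min (K \ K₀).card E) hk (hC2.trans hCd2) hB hG hd hn h₀ hK hsub hq
    hs4 (le_min (by omega) hE1) (min_le_left _ _) (by
      calc 32 * (k - 1) * B ^ k * min (K \ K₀).card E ≤ 32 * k * B ^ k * E := by
            gcongr
            · omega
            · exact min_le_right _ _
        _ ≤ d := by
            rw [hE]
            exact Nat.mul_div_le _ _)
  exact ⟨v₁, v₂, fun K' hK' hsub' => exp_arith hk hB hm hsd hE (h K' hK' hsub')⟩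

end

theorem two_mul_le_pow {k : ℕ} (hk : 2 ≤ k) : 2 * k ≤ 2 ^ k := by
  induction k, hk using Nat.le_induction with
  | base => norm_num
  | succ k hk ih =>
    rw [pow_succ]
    omega

theorem poly_bound {k : ℕ} (hk : 2 ≤ k) :
    2 * 8 ^ k * (2 ^ (k + 2) * k * (k ^ 2 + 5 * k + 16) + 8 * k + 1) + 2 ≤ 1000 ^ k := by
  obtain ⟨a, ha⟩ : ∃ a, a = 2 ^ k := ⟨_, rfl⟩
  have hka : 2 * k ≤ a := by
    rw [ha]
    exact two_mul_le_pow hk
  have ha4 : 4 ≤ a := by omega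
  have e8 : 8 ^ k = a ^ 3 := by
    rw [ha, ← pow_mul, mul_comm, pow_mul]
    norm_num
  have e1000 : a ^ 9 ≤ 1000 ^ k := by
    rw [ha, ← pow_mul, mul_comm, pow_mul]
    exact Nat.pow_le_pow_left (by norm_num) k
  have e4 : 2 ^ (k + 2) = 4 * a := by
    rw [ha, pow_add]
    ring
  rw [e8, e4]
  refine le_trans ?_ e1000
  have h1 : 8 * (k * (k ^ 2 + 5 * k + 16)) ≤ a * (a ^ 2 + 10 * a + 64) := by
    calc 8 * (k * (k ^ 2 + 5 * k + 16)) = 2 * k * ((2 * k) ^ 2 + 10 * (2 * k) + 64) := by ring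
      _ ≤ _ := by gcongr
  have h2 : 2 * a ^ 3 * (4 * a * k * (k ^ 2 + 5 * k + 16) + 8 * k + 1) + 2 ≤
      a ^ 7 + 10 * a ^ 6 + 64 * a ^ 5 + 8 * a ^ 4 + 2 * a ^ 3 + 2 := by
    calc 2 * a ^ 3 * (4 * a * k * (k ^ 2 + 5 * k + 16) + 8 * k + 1) + 2
        = a ^ 4 * (8 * (k * (k ^ 2 + 5 * k + 16))) + 8 * a ^ 3 * (2 * k) + 2 * a ^ 3 + 2 := by
          ring
      _ ≤ a ^ 4 * (a * (a ^ 2 + 10 * a + 64)) + 8 * a ^ 3 * a + 2 * a ^ 3 + 2 := by gcongr
      _ = _ := by ring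
  refine h2.trans ?_
  obtain ⟨b, rfl⟩ : ∃ b, a = 4 + b := ⟨a - 4, by omega⟩
  ring_nf
  nlinarith [Nat.zero_le b, Nat.zero_le (b ^ 2), Nat.zero_le (b ^ 3), Nat.zero_le (b ^ 4),
    Nat.zero_le (b ^ 5), Nat.zero_le (b ^ 6), Nat.zero_le (b ^ 7), Nat.zero_le (b ^ 8),
    Nat.zero_le (b ^ 9)]

theorem arith_qk {n k d A : ℕ} (hn : n ≤ A * (d + 1) ^ k) :
    n / max 1 ((d / 4) ^ k) ≤ 8 ^ k * A := by
  obtain ⟨q, hq⟩ : ∃ q, q = max 1 ((d / 4) ^ k) := ⟨_, rfl⟩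
  rw [← hq]
  have hq1 : 1 ≤ q := by rw [hq]; exact le_max_left _ _
  have hdq : (d + 1) ^ k ≤ 8 ^ k * q := by
    by_cases h4 : d / 4 = 0
    · have h5 : d + 1 ≤ 8 := by omega
      calc (d + 1) ^ k ≤ 8 ^ k := Nat.pow_le_pow_left h5 k
        _ = 8 ^ k * 1 := (mul_one _).symm
        _ ≤ _ := Nat.mul_le_mul_left _ hq1
    · have h5 : d + 1 ≤ 8 * (d / 4) := by omega
      calc (d + 1) ^ k ≤ (8 * (d / 4)) ^ k := Nat.pow_le_pow_left h5 k
        _ = 8 ^ k * (d / 4) ^ k := mul_pow _ _ _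
        _ ≤ _ := Nat.mul_le_mul_left _ (by rw [hq]; exact le_max_right _ _)
  refine Nat.div_le_of_le_mul ?_
  calc n ≤ A * (d + 1) ^ k := hn
    _ ≤ A * (8 ^ k * q) := Nat.mul_le_mul_left _ hdq
    _ = _ := by ring

theorem arith_Nk {n k q A lA ll N : ℕ} (hk : 2 ≤ k) (hA : 1 ≤ A) (hq : n / q ≤ 8 ^ k * A)
    (hN : 1000 ^ k * A * (A * (lA + 1) + ll) ≤ N) :
    (n / q + 1) * (1 + 2 ^ (k + 1) * A * (2 * k * (13 + k + (k + 3) * (k + 1 + lA))) +
      2 * (4 * k * (ll + 1))) + 2 ≤ N := by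
  obtain ⟨X, hX⟩ : ∃ X, X = A * (lA + 1) := ⟨_, rfl⟩
  rw [← hX] at hN
  have hAX : A ≤ X := by
    rw [hX]
    exact Nat.le_mul_of_pos_right _ (by omega)
  obtain ⟨c, hc⟩ : ∃ c, c = 2 ^ (k + 2) * k * (k ^ 2 + 5 * k + 16) := ⟨_, rfl⟩
  have h1 : 2 ^ (k + 1) * A * (2 * k * (13 + k + (k + 3) * (k + 1 + lA))) ≤ c * X := by
    have h2 : 13 + k + (k + 3) * (k + 1 + lA) ≤ (k ^ 2 + 5 * k + 16) * (lA + 1) := by
      have e : (k ^ 2 + 5 * k + 16) * (lA + 1) =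
          13 + k + (k + 3) * (k + 1 + lA) + lA * (k ^ 2 + 4 * k + 13) := by ring
      omega
    calc 2 ^ (k + 1) * A * (2 * k * (13 + k + (k + 3) * (k + 1 + lA)))
        ≤ 2 ^ (k + 1) * A * (2 * k * ((k ^ 2 + 5 * k + 16) * (lA + 1))) := by gcongr
      _ = c * X := by rw [hc, hX]; ring
  have h2 : 1 + 2 ^ (k + 1) * A * (2 * k * (13 + k + (k + 3) * (k + 1 + lA))) +
      2 * (4 * k * (ll + 1)) ≤ (c + 8 * k + 1) * (X + ll) := by
    have hX1 : 1 ≤ X + ll := by omega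
    have e1 : (c + 8 * k + 1) * (X + ll) = c * X + c * ll + 8 * k * X + 8 * k * ll + (X + ll) := by
      ring
    have e2 : 2 * (4 * k * (ll + 1)) = 8 * k * 1 + 8 * k * ll := by ring
    have e3 : 8 * k * 1 ≤ 8 * k * X := Nat.mul_le_mul_left _ (by omega)
    have e4 : 0 ≤ c * ll := Nat.zero_le _
    omega
  have h81 : 1 ≤ 8 ^ k * A := Nat.mul_pos (Nat.pow_pos (by norm_num)) hA
  have h3 : n / q + 1 ≤ 2 * 8 ^ k * A := by
    rw [mul_assoc]
    omega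
  have h4 : 1 ≤ A * (X + ll) := Nat.mul_pos hA (by omega)
  have h5 := poly_bound hk
  rw [← hc] at h5
  calc (n / q + 1) * (1 + 2 ^ (k + 1) * A * (2 * k * (13 + k + (k + 3) * (k + 1 + lA))) +
      2 * (4 * k * (ll + 1))) + 2
      ≤ 2 * 8 ^ k * A * ((c + 8 * k + 1) * (X + ll)) + 2 :=
        Nat.add_le_add_right (Nat.mul_le_mul h3 h2) 2
    _ ≤ 2 * 8 ^ k * A * ((c + 8 * k + 1) * (X + ll)) + 2 * (A * (X + ll)) := by omega
    _ = (2 * 8 ^ k * (c + 8 * k + 1) + 2) * (A * (X + ll)) := by ring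
    _ ≤ 1000 ^ k * (A * (X + ll)) := Nat.mul_le_mul_right _ h5
    _ = 1000 ^ k * A * (X + ll) := by ring
    _ ≤ N := hN

end Run7.h33.LL
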