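import Pool.Agent.Run7.h33.LL.NbSup2

/-!
# The known vertices are closed, and the main theorem
-/

set_option autoImplicit false
set_option linter.unusedSectionVars false

namespace Run7.h33.LL

open SimpleGraph Finset Run7.h33.NM Pool.Agent.N624.NT Pool.Agent.W185.SRG

section

variable {V : Type} {G : SimpleGraph V}

/-- A walk can be replaced by a non-backtracking one. -/
theorem reduce (L : ℕ) : ∀ g : ℕ → V, (∀ i < L, G.Adj (g i) (g (i + 1))) →
    ∃ L' g', L' ≤ L ∧ L' % 2 = L % 2 ∧ NB G L' g' ∧ g' 0 = g 0 ∧ g' L' = g L ∧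
      (L' = L → ∀ i, g' i = g i) := by
  induction L using Nat.strong_induction_on with
  | _ L ih =>
    intro g hg
    by_cases h : ∀ i, i + 2 ≤ L → g i ≠ g (i + 2)
    · exact ⟨L, g, le_rfl, rfl, ⟨hg, h⟩, rfl, rfl, fun _ _ => rfl⟩
    · push Not at h
      obtain ⟨i, hi, hii⟩ := h
      obtain ⟨g₁, hg₁⟩ : ∃ g₁ : ℕ → V, g₁ = fun j => if j ≤ i then g j else g (j + 2) :=
        ⟨_, rfl⟩
      have h1 : ∀ j, j ≤ i → g₁ j = g j := fun j hj => by rw [hg₁]; exact if_pos hj
      have h2 : ∀ j, i ≤ j → g₁ j = g (j + 2) := by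
        intro j hj
        rcases Nat.lt_or_ge i j with h3 | h3
        · rw [hg₁]
          exact if_neg (by omega)
        · have e : j = i := by omega
          rw [h1 j (by omega), e, hii]
      obtain ⟨L', g', hL', hpar, hNB, h0, hend, -⟩ := ih (L - 2) (by omega) g₁ (by
        intro j hj
        rcases Nat.lt_or_ge j i with h3 | h3
        · rw [h1 j (by omega), h1 (j + 1) (by omega)]
          exact hg j (by omega)
        · rw [h2 j h3, h2 (j + 1) (by omega)]
          exact hg (j + 2) (by omega))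
      refine ⟨L', g', by omega, by omega, hNB, ?_, ?_, fun h3 => by omega⟩
      · rw [h0, h1 0 (by omega)]
      · rw [hend, h2 (L - 2) (by omega)]
        congr 1
        omega

/-- All walks of the same length with the same ends agree with a non-backtracking one. -/
theorem Uq.walk {k : ℕ} (h : Uq G k) {L : ℕ} (hL : L ≤ k) {f : ℕ → V} (hf : NB G L f) {g : ℕ → V}
    (hg : ∀ i < L, G.Adj (g i) (g (i + 1))) (h0 : f 0 = g 0) (h1 : f L = g L) {i : ℕ}
    (hi : i ≤ L) : f i = g i := by
  obtain ⟨L', g', hL', hpar, hNB, h0', hend, heq⟩ := reduce L g hg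
  obtain ⟨h2, h3⟩ := h L L' f g' hL (by omega) hpar.symm hf hNB (h0.trans h0'.symm)
    (h1.trans hend.symm)
  rw [h3 i hi, heq h2.symm]

theorem exists_walk {L : ℕ} {f : ℕ → V} (hf : ∀ i < L, G.Adj (f i) (f (i + 1))) :
    ∀ i, i ≤ L → ∃ p : G.Walk (f 0) (f i), p.length = i ∧ ∀ j ≤ i, p.getVert j = f j := by
  intro i
  induction i with
  | zero =>
    intro _
    refine ⟨Walk.nil, rfl, fun j hj => ?_⟩
    have e : j = 0 := by omega
    rw [e]
    rfl
  | succ i ih =>
    intro hi
    obtain ⟨p, hp, hp2⟩ := ih (by omega)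
    refine ⟨p.concat (hf i (by omega)), by rw [Walk.length_concat, hp], fun j hj => ?_⟩
    rw [Walk.concat_eq_append, Walk.getVert_append', hp]
    split_ifs with h1
    · exact hp2 j (by omega)
    · have e : j = i + 1 := by omega
      have e2 : j - i = 1 := by omega
      rw [e2, e]
      rfl

/-- Non-backtracking walks are paths. -/
theorem NB.isPath {m : ℕ} (hG : NoShortCycle G m) {L : ℕ} {f : ℕ → V} (hf : NB G L f)
    (hL : L ≤ m) : ∀ i, i ≤ L → ∃ p : G.Walk (f 0) (f i), p.IsPath ∧ p.length = i ∧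
      ∀ j ≤ i, p.getVert j = f j := by
  classical
  intro i
  induction i with
  | zero =>
    intro _
    refine ⟨Walk.nil, Walk.IsPath.nil, rfl, fun j hj => ?_⟩
    have e : j = 0 := by omega
    rw [e]
    rfl
  | succ i ih =>
    intro hi
    obtain ⟨p, hp0, hp, hp2⟩ := ih (by omega)
    have hadj := hf.1 i (by omega)
    have hnot : f (i + 1) ∉ p.support := by
      intro hmem
      obtain ⟨j, hj, hji⟩ := Walk.mem_support_iff_exists_getVert.1 hmem
      rw [hp] at hji
      rw [hp2 j hji] at hj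
      have hr : (Walk.cons hadj.symm (Walk.nil : G.Walk (f i) (f i))).IsPath := by
        refine Walk.IsPath.nil.cons ?_
        rw [Walk.support_nil, List.mem_singleton]
        exact hadj.ne.symm
      obtain ⟨q, hq⟩ : ∃ q : G.Walk (f (i + 1)) (f i), q = (p.drop j).copy (by
        rw [hp2 j hji, hj]) rfl := ⟨_, rfl⟩
      have hqp : q.IsPath := by
        rw [hq, Walk.isPath_copy]
        exact hp0.drop j
      have hql : q.length = i - j := by
        rw [hq, Walk.length_copy, Walk.drop_length, hp]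
      have h3 := hG.path_unique hqp hr (by
        rw [hql, Walk.length_cons, Walk.length_nil]
        omega)
      have h4 := congrArg Walk.length h3
      rw [hql, Walk.length_cons, Walk.length_nil] at h4
      have h5 := hf.2 j (by omega)
      have e : j + 2 = i + 1 := by omega
      rw [e, hj] at h5
      exact h5 rfl
    refine ⟨p.concat hadj, hp0.concat hnot hadj, by rw [Walk.length_concat, hp],
      fun j hj => ?_⟩
    rw [Walk.concat_eq_append, Walk.getVert_append', hp]
    split_ifs with h1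
    · exact hp2 j (by omega)
    · have e : j = i + 1 := by omega
      have e2 : j - i = 1 := by omega
      rw [e2, e]
      rfl

/-- Without short cycles the non-backtracking walks are determined by their ends. -/
theorem uq_of_noShortCycle {k : ℕ} (hG : NoShortCycle G (2 * k)) : Uq G k := by
  intro L L' f g hL hL' _ hf hg h0 h1
  obtain ⟨p, hp, hpl, hp2⟩ := hf.isPath hG (by omega) L le_rfl
  obtain ⟨q, hq, hql, hq2⟩ := hg.isPath hG (by omega) L' le_rfl
  have h2 := hG.path_unique hp (q := q.copy h0.symm h1.symm) (by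
    rw [Walk.isPath_copy]
    exact hq) (by
    rw [Walk.length_copy, hpl, hql]
    omega)
  have h3 := congrArg Walk.length h2
  rw [Walk.length_copy, hpl, hql] at h3
  refine ⟨h3, fun i hi => ?_⟩
  have h4 := congrArg (fun r => Walk.getVert r i) h2
  simp only [Walk.getVert_copy] at h4
  rw [hp2 i hi, hq2 i (by omega)] at h4
  exact h4

end

section

variable {V W : Type} [Fintype V] [Fintype W] {G : SimpleGraph V} {H : SimpleGraph W} {N : ℕ}

theorem clN_kn {k : ℕ} (hG : Uq G k) {E : List (V × W)} (hN : E.length + 2 ≤ N) :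
    ClN G k (kn G H N E) := by
  intro L f hL hf h0 h1 i hi
  have h2 := (kl_walk hN (mem_kn.1 h0) i).inter (kl_walk hN (mem_kn.1 h1) (L - i))
  refine mem_kn.2 ?_
  have e : ({f i} : Set V) = {w | ∃ p : G.Walk (f 0) w, p.length = i} ∩
      {w | ∃ p : G.Walk (f L) w, p.length = L - i} := by
    ext w
    rw [Set.mem_singleton_iff]
    constructor
    · rintro rfl
      refine ⟨?_, ?_⟩
      · obtain ⟨p, hp, -⟩ := exists_walk hf.1 i hi
        exact ⟨p, hp⟩
      · obtain ⟨p, hp, -⟩ := exists_walk (hf.sub i (L - i) (by omega)).1 (L - i) le_rfl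
        have e1 : i + (L - i) = L := by omega
        refine ⟨(p.reverse).copy (by simp only [e1]) (by simp only [Nat.add_zero]), ?_⟩
        rw [Walk.length_copy, Walk.length_reverse, hp]
    · rintro ⟨⟨p, hp⟩, ⟨q, hq⟩⟩
      obtain ⟨r, hr⟩ : ∃ r : G.Walk (f 0) (f L), r = p.append q.reverse := ⟨_, rfl⟩
      have hrl : r.length = L := by
        rw [hr, Walk.length_append, Walk.length_reverse, hp, hq]
        omega
      have h3 := hG.walk hL hf (g := r.getVert) (fun j hj => r.adj_getVert_succ (by omega))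
        (by rw [Walk.getVert_zero]) (by
          have := r.getVert_length
          rw [hrl] at this
          exact this.symm) hi
      rw [h3, hr, Walk.getVert_append, hp]
      simp
  rw [e]
  exact h2

/-- Graphs whose short non-backtracking walks are determined by their ends. -/
theorem main_uq {k δ A : ℕ} (hk : 2 ≤ k) (hδ : 2 ≤ δ) (hA : 1 ≤ A) (hG : Uq G k)
    (hd : ∀ v, δ ≤ (G.neighborSet v).ncard) (hn : Fintype.card V ≤ A * δ ^ k)
    (hN : 1000 ^ k * A * (A * (Nat.log 2 A + 1) + Nat.log 2 (Nat.log 2 (Fintype.card V))) ≤ N)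
    (h : WLEquivalent N G H) : Nonempty (G ≃g H) := by
  classical
  rcases isEmpty_or_nonempty V with hV | hV
  · refine iso_of_empty ?_ h
    refine le_trans ?_ hN
    exact Nat.mul_pos (Nat.mul_pos (Nat.pow_pos (by norm_num)) (by omega))
      (Nat.add_pos_left (Nat.mul_pos (by omega) (by omega)) _)
  obtain ⟨d, rfl⟩ : ∃ d, δ = d + 1 := ⟨δ - 1, by omega⟩
  have hd' : ∀ v, d + 1 ≤ (nb G v).card := fun v => by rw [card_nb]; exact hd v
  have hd1 : 1 ≤ d := by omega
  have hX := ctxN hk hG hd'
  obtain ⟨B, hBe⟩ : ∃ B, B = 2 ^ k * A := ⟨_, rfl⟩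
  have hB : 1 ≤ B := by
    rw [hBe]
    exact Nat.mul_pos (Nat.pow_pos (by norm_num)) hA
  have hnB : Fintype.card V ≤ B * d ^ k := by
    calc Fintype.card V ≤ A * (d + 1) ^ k := hn
      _ ≤ A * (2 * d) ^ k := Nat.mul_le_mul_left _ (Nat.pow_le_pow_left (by omega) k)
      _ = _ := by rw [mul_pow, hBe]; ring
  have hS := supN hk hB hG hd' hnB
  have hm : ((8192 * k * B ^ (k + 3)) ^ 2) ^ k ≤
      2 ^ (2 * k * (13 + k + (k + 3) * (k + 1 + Nat.log 2 A))) := by
    have h1 : A < 2 ^ (Nat.log 2 A + 1) := Nat.lt_pow_succ_log_self (by norm_num) A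
    have h2 : B ≤ 2 ^ (k + 1 + Nat.log 2 A) := by
      calc B = 2 ^ k * A := hBe
        _ ≤ 2 ^ k * 2 ^ (Nat.log 2 A + 1) := Nat.mul_le_mul_left _ h1.le
        _ = _ := by
            rw [← pow_add]
            congr 1
            omega
    have h3 : k ≤ 2 ^ k := Nat.lt_two_pow_self.le
    calc ((8192 * k * B ^ (k + 3)) ^ 2) ^ k
        ≤ ((8192 * 2 ^ k * (2 ^ (k + 1 + Nat.log 2 A)) ^ (k + 3)) ^ 2) ^ k := by gcongr
      _ = ((2 ^ 13 * 2 ^ k * (2 ^ (k + 1 + Nat.log 2 A)) ^ (k + 3)) ^ 2) ^ k := by norm_num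
      _ = _ := by
          rw [← pow_mul, ← pow_mul, ← pow_add, ← pow_add, ← pow_mul]
          congr 1
          ring
  have hm2 : 2 ≤ ((8192 * k * B ^ (k + 3)) ^ 2) ^ k := by
    have h1 : 8192 * k * B ^ (k + 3) ≤ ((8192 * k * B ^ (k + 3)) ^ 2) ^ k := by
      rw [← pow_mul]
      exact Nat.le_self_pow (by omega) _
    refine le_trans ?_ h1
    have h2 : 1 ≤ k * B ^ (k + 3) := Nat.mul_pos (by omega) (Nat.pow_pos (by omega))
    rw [mul_assoc]
    omega
  refine main_abs' hX hS hd1 (Nat.pow_pos hd1) (le_max_left _ _) hm2 (by omega)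
    (fun E hE => clN_kn hG hE) (B := 2 ^ (k + 1) * A)
    (Nat.mul_pos (Nat.pow_pos (by norm_num)) hA) ?_ hm (lt_loglog _)
    (arith_Nk hk hA (arith_qk hn) hN) h
  have e : d * d ^ (k - 1) = d ^ k := by
    rw [← pow_succ']
    congr 1
    omega
  rw [e]
  calc 2 * Fintype.card V ≤ 2 * (B * d ^ k) := Nat.mul_le_mul_left _ hnB
    _ = 2 ^ (k + 1) * A * d ^ k := by
      rw [hBe, pow_succ]
      ring

end

end Run7.h33.LL
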