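import Pool.Agent.Run7.h33.LL.NbWl

/-!
# Graphs without cycles of length at most `k` and without even cycles of length at most `2 k`
-/

set_option autoImplicit false
set_option linter.unusedSectionVars false

namespace Run7.h33.LL

open SimpleGraph Finset Run7.h33.NM

variable {V : Type} {G : SimpleGraph V}

open Walk in
/-- Paths of length at most `k` are determined by their ends and the parity of their length. -/
theorem path_par {k : ℕ} (h1 : NoShortCycle G k)
    (h2 : ∀ (v : V) (c : G.Walk v v), c.IsCycle → Even c.length → 2 * k < c.length) (n : ℕ) :
    ∀ {u v : V} {p q : G.Walk u v}, p.IsPath → q.IsPath → p.length = n → p.length ≤ k →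
      q.length ≤ k → p.length % 2 = q.length % 2 → p = q := by
  classical
  induction n using Nat.strong_induction_on with
  | _ n ih =>
    intro u v p q hp hq hn hpk hqk hpar
    by_contra hne
    by_cases! hw : ∃ w, w ∈ p.support ∧ w ∈ q.support ∧ w ≠ u ∧ w ≠ v
    · obtain ⟨w, hwp, hwq, hwu, hwv⟩ := hw
      have e1 := congrArg Walk.length (p.take_spec hwp)
      have e2 := congrArg Walk.length (q.take_spec hwq)
      rw [Walk.length_append] at e1 e2
      have l1 := length_takeUntil_lt_length hwp hwv
      have l2 := length_dropUntil_lt_length hwp hwu
      by_cases h3 : (p.takeUntil w hwp).length % 2 = (q.takeUntil w hwq).length % 2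
      · have h4 := ih _ (by omega) (hp.takeUntil hwp) (hq.takeUntil hwq) rfl (by omega) (by omega)
          h3
        have h5 := ih _ (by omega) (hp.dropUntil hwp) (hq.dropUntil hwq) rfl (by omega) (by omega)
          (by omega)
        refine hne ?_
        rw [← p.take_spec hwp, ← q.take_spec hwq, h4, h5]
      · have h4 : k < (p.takeUntil w hwp).length + (q.takeUntil w hwq).length := by
          by_contra h5
          have h6 := h1.path_unique (hp.takeUntil hwp) (hq.takeUntil hwq) (by omega)
          exact h3 (by rw [h6])
        have h5 : k < (p.dropUntil w hwp).length + (q.dropUntil w hwq).length := by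
          by_contra h5
          have h6 := h1.path_unique (hp.dropUntil hwp) (hq.dropUntil hwq) (by omega)
          have h7 := congrArg Walk.length h6
          omega
        omega
    · have hc : (p.append q.reverse).IsCycle := by
        refine hp.isCycle_append (isPath_reverse_iff q |>.mpr hq) (fun _ ↦ ?_) ?_
        · grind [dropLast_support_concat, IsPath.support_nodup, support_reverse,
            cons_tail_support]
        · grind [length_reverse, eq_of_length_le_one]
      have h3 := h2 _ _ hc (by
        rw [Walk.length_append, Walk.length_reverse, Nat.even_iff]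
        omega)
      rw [Walk.length_append, Walk.length_reverse] at h3
      omega

theorem uq_of_cycles {k : ℕ} (h1 : NoShortCycle G k)
    (h2 : ∀ (v : V) (c : G.Walk v v), c.IsCycle → Even c.length → 2 * k < c.length) :
    Uq G k := by
  intro L L' f g hL hL' hpar hf hg h0 h1'
  obtain ⟨p, hp, hpl, hp2⟩ := hf.isPath h1 hL L le_rfl
  obtain ⟨q, hq, hql, hq2⟩ := hg.isPath h1 hL' L' le_rfl
  have h3 := path_par h1 h2 p.length hp (q := q.copy h0.symm h1'.symm) (by
    rw [Walk.isPath_copy]
    exact hq) rfl (by omega) (by rw [Walk.length_copy]; omega) (by
    rw [Walk.length_copy, hpl, hql]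
    exact hpar)
  have h4 := congrArg Walk.length h3
  rw [Walk.length_copy, hpl, hql] at h4
  refine ⟨h4, fun i hi => ?_⟩
  have h5 := congrArg (fun r => Walk.getVert r i) h3
  simp only [Walk.getVert_copy] at h5
  rw [hp2 i hi, hq2 i (by omega)] at h5
  exact h5

end Run7.h33.LL
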