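import Pool.Agent.Run7.h33.NM.Main

/-!
# Generation by few vertices when large closed sets grow superlinearly
-/

set_option autoImplicit false
set_option linter.unusedSectionVars false

namespace Run7.h33.LL

open SimpleGraph Finset Run7.h33.NM Pool.Agent.N624.NT Pool.Agent.W185.SRG

section

variable {V : Type} [Fintype V] [DecidableEq V] {G : SimpleGraph V}

/-- Superlinear growth with exponent `(e + 1) / e` of the closed sets of medium size. -/
def Sup (Cl : Finset V → Prop) (m q e : ℕ) : Prop :=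
  ∀ K₀ K, Cl K₀ → Cl K → K₀ ⊆ K → m ≤ (K \ K₀).card → (K \ K₀).card < q →
    ∃ v₁ v₂, ∀ K', Cl K' → insert v₁ (insert v₂ K) ⊆ K' →
      (K \ K₀).card ^ (e + 1) ≤ (K' \ K₀).card ^ e

theorem two_pow_le (B L : ℕ) (hB : 1 ≤ B) : 2 ^ L * B ^ (B * L) ≤ (B + 1) ^ (B * L) := by
  by_contra hcon
  have h1 : 2 ^ L - 1 < 2 ^ L := by
    have := Nat.pow_pos (n := L) (show 0 < 2 by norm_num)
    omega
  have key : ∀ L, 2 ^ L * B ^ (B * L) ≤ (B + 1) ^ (B * L) := by
    intro L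
    have h2 : 2 * B ^ B ≤ (B + 1) ^ B := by
      have h3 := pow_bound B 1 1 hB (by norm_num)
      have h4 : (B + 1) ^ B = ∑ m ∈ range (B + 1), B ^ m * 1 ^ (B - m) * (B.choose m) :=
        add_pow B 1 B
      obtain ⟨b, rfl⟩ : ∃ b, B = b + 1 := ⟨B - 1, by omega⟩
      rw [h4, sum_range_succ, sum_range_succ]
      simp only [one_pow, mul_one, Nat.choose_self, Nat.choose_succ_self_right]
      have h5 : (b + 1) ^ b * (b + 1) = (b + 1) ^ (b + 1) := by ring
      rw [h5]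
      have : 0 ≤ ∑ x ∈ range b, (b + 1) ^ x * (b + 1).choose x := Nat.zero_le _
      omega
    rw [pow_mul, pow_mul, ← mul_pow]
    exact Nat.pow_le_pow_left h2 L
  exact hcon (key L)

variable {Cl : Finset V → Prop} {d r q : ℕ} {Ach : ℕ → Finset V → Prop} {Nmax : ℕ}

/-- Exponential growth. -/
theorem linear (hX : Ctx G Cl d r q) (hd : 1 ≤ d) (hr : 1 ≤ r)
    (hcl : ∀ t K, Ach t K → t ≤ Nmax → Cl K)
    (hstep : ∀ t K v, Ach t K → t < Nmax → ∃ K', Ach (t + 1) K' ∧ insert v K ⊆ K')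
    {B : ℕ} (hB : 1 ≤ B) (hBn : 2 * Fintype.card V ≤ B * (d * r)) (L : ℕ) {t : ℕ}
    {K₀ K₁ : Finset V} (h₀ : Cl K₀) (h₁ : Ach t K₁) (hsub₁ : K₀ ⊆ K₁)
    (hne₁ : (K₁ \ K₀).Nonempty) (ht : t + B * L ≤ Nmax) :
    ∃ t' ≤ t + B * L, ∃ K', Ach t' K' ∧ K₀ ⊆ K' ∧
      (q ≤ (K' \ K₀).card ∨ 2 ^ L * (K₁ \ K₀).card ≤ (K' \ K₀).card) := by
  have key : ∀ i, i ≤ B * L → ∃ t' ≤ t + i, ∃ K', Ach t' K' ∧ K₁ ⊆ K' ∧
      (q ≤ (K' \ K₀).card ∨ (B + 1) ^ i * (K₁ \ K₀).card ≤ B ^ i * (K' \ K₀).card) := by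
    intro i
    induction i with
    | zero =>
      intro _
      refine ⟨t, by omega, K₁, h₁, Subset.rfl, Or.inr ?_⟩
      rw [pow_zero, pow_zero]
    | succ i ih =>
      intro hi
      obtain ⟨t', ht', K, hK, hsub, hcase⟩ := ih (by omega)
      rcases hcase with h1 | h1
      · exact ⟨t', by omega, K, hK, hsub, Or.inl h1⟩
      by_cases hq : (K \ K₀).card < q
      · have hne : (K \ K₀).Nonempty := hne₁.mono (sdiff_subset_sdiff hsub Subset.rfl)
        obtain ⟨v, hv, hgrow⟩ := growth hX hd h₀ (hcl t' K hK (by omega)) hne hq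
        obtain ⟨K', hK', hsub'⟩ := hstep t' K v hK (by omega)
        have hKK' : K ⊆ K' := (subset_insert _ _).trans hsub'
        have h2 := hgrow K' (hcl _ K' hK' (by omega)) hsub'
        have h3 : (K \ K₀).card ≤ B * (K' \ K).card := by
          have hdr : 0 < d * r := Nat.mul_pos hd hr
          refine Nat.le_of_mul_le_mul_left ?_ hdr
          calc d * r * (K \ K₀).card ≤ 2 * Fintype.card V * (K' \ K).card := h2
            _ ≤ B * (d * r) * (K' \ K).card := Nat.mul_le_mul_right _ hBn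
            _ = _ := by ring
        have hK0 : K₀ ⊆ K := hsub₁.trans hsub
        have h4 : (K' \ K₀).card = (K \ K₀).card + (K' \ K).card := by
          rw [card_sdiff_of_subset (hK0.trans hKK'), card_sdiff_of_subset hK0,
            card_sdiff_of_subset hKK']
          have := card_le_card hK0
          have := card_le_card hKK'
          omega
        refine ⟨t' + 1, by omega, K', hK', hsub.trans hKK', Or.inr ?_⟩
        calc (B + 1) ^ (i + 1) * (K₁ \ K₀).card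
            = (B + 1) * ((B + 1) ^ i * (K₁ \ K₀).card) := by ring
          _ ≤ (B + 1) * (B ^ i * (K \ K₀).card) := Nat.mul_le_mul_left _ h1
          _ = B ^ i * (B * (K \ K₀).card + (K \ K₀).card) := by ring
          _ ≤ B ^ i * (B * (K \ K₀).card + B * (K' \ K).card) :=
              Nat.mul_le_mul_left _ (by omega)
          _ = B ^ (i + 1) * (K' \ K₀).card := by rw [h4]; ring
      · exact ⟨t', by omega, K, hK, hsub, Or.inl (by omega)⟩
  obtain ⟨t', ht', K', hK', hsub, hcase⟩ := key (B * L) le_rfl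
  refine ⟨t', ht', K', hK', hsub₁.trans hsub, ?_⟩
  rcases hcase with h1 | h1
  · exact Or.inl h1
  · refine Or.inr ?_
    have h2 := two_pow_le B L hB
    have h3 : 0 < B ^ (B * L) := Nat.pow_pos (by omega)
    refine Nat.le_of_mul_le_mul_left ?_ h3
    calc B ^ (B * L) * (2 ^ L * (K₁ \ K₀).card) = 2 ^ L * B ^ (B * L) * (K₁ \ K₀).card := by
          ring
      _ ≤ (B + 1) ^ (B * L) * (K₁ \ K₀).card := Nat.mul_le_mul_right _ h2
      _ ≤ _ := h1

/-- Doubly exponential growth. -/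
theorem superl {m e : ℕ} (hS : Sup Cl m q e) (hm : 2 ≤ m) (he : 1 ≤ e)
    (hcl : ∀ t K, Ach t K → t ≤ Nmax → Cl K)
    (hstep : ∀ t K v, Ach t K → t < Nmax → ∃ K', Ach (t + 1) K' ∧ insert v K ⊆ K')
    {j : ℕ} (hj : Fintype.card V < 2 ^ 2 ^ j) {t : ℕ}
    {K₀ K₁ : Finset V} (h₀ : Cl K₀) (h₁ : Ach t K₁) (hsub₁ : K₀ ⊆ K₁)
    (hm₁ : m ≤ (K₁ \ K₀).card) (ht : t + 2 * (e * j) ≤ Nmax) :
    ∃ t' ≤ t + 2 * (e * j), ∃ K', Ach t' K' ∧ K₀ ⊆ K' ∧ q ≤ (K' \ K₀).card := by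
  have key : ∀ i, i ≤ e * j → ∃ t' ≤ t + 2 * i, ∃ K', Ach t' K' ∧ K₁ ⊆ K' ∧
      (q ≤ (K' \ K₀).card ∨ 2 ^ (e + 1) ^ i ≤ (K' \ K₀).card ^ e ^ i) := by
    intro i
    induction i with
    | zero =>
      intro _
      refine ⟨t, by omega, K₁, h₁, Subset.rfl, Or.inr ?_⟩
      rw [pow_zero, pow_zero, pow_one, pow_one]
      omega
    | succ i ih =>
      intro hi
      obtain ⟨t', ht', K, hK, hsub, hcase⟩ := ih (by omega)
      rcases hcase with h1 | h1
      · exact ⟨t', by omega, K, hK, hsub, Or.inl h1⟩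
      by_cases hq : (K \ K₀).card < q
      · have hmK : m ≤ (K \ K₀).card :=
          hm₁.trans (card_le_card (sdiff_subset_sdiff hsub Subset.rfl))
        obtain ⟨v₁, v₂, hgrow⟩ := hS K₀ K h₀ (hcl t' K hK (by omega)) (hsub₁.trans hsub) hmK hq
        obtain ⟨K', hK', hsub'⟩ := hstep t' K v₂ hK (by omega)
        obtain ⟨K'', hK'', hsub''⟩ := hstep _ K' v₁ hK' (by omega)
        have h2 := hgrow K'' (hcl _ K'' hK'' (by omega))
          ((insert_subset_insert _ hsub').trans hsub'')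
        refine ⟨t' + 1 + 1, by omega, K'', hK'', ?_, Or.inr ?_⟩
        · exact hsub.trans ((subset_insert _ _).trans (hsub'.trans
            ((subset_insert _ _).trans hsub'')))
        · calc 2 ^ (e + 1) ^ (i + 1) = (2 ^ (e + 1) ^ i) ^ (e + 1) := by
                rw [← pow_mul, ← pow_succ]
            _ ≤ ((K \ K₀).card ^ e ^ i) ^ (e + 1) := Nat.pow_le_pow_left h1 _
            _ = ((K \ K₀).card ^ (e + 1)) ^ e ^ i := by
                rw [← pow_mul, ← pow_mul, mul_comm]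
            _ ≤ ((K'' \ K₀).card ^ e) ^ e ^ i := Nat.pow_le_pow_left h2 _
            _ = (K'' \ K₀).card ^ e ^ (i + 1) := by
                rw [← pow_mul, ← pow_succ']
      · exact ⟨t', by omega, K, hK, hsub, Or.inl (by omega)⟩
  obtain ⟨t', ht', K', hK', hsub, hcase⟩ := key (e * j) le_rfl
  refine ⟨t', ht', K', hK', hsub₁.trans hsub, ?_⟩
  rcases hcase with h1 | h1
  · exact h1
  · exfalso
    have h2 := two_pow_le e j he
    have h3 : (2 ^ 2 ^ j) ^ e ^ (e * j) ≤ (K' \ K₀).card ^ e ^ (e * j) := by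
      calc (2 ^ 2 ^ j) ^ e ^ (e * j) = 2 ^ (2 ^ j * e ^ (e * j)) := (pow_mul _ _ _).symm
        _ ≤ 2 ^ (e + 1) ^ (e * j) := Nat.pow_le_pow_right (by norm_num) h2
        _ ≤ _ := h1
    have h4 : 0 < e ^ (e * j) := Nat.pow_pos (by omega)
    have h5 : 2 ^ 2 ^ j ≤ (K' \ K₀).card := (Nat.pow_le_pow_iff_left (by omega)).1 h3
    have h6 := card_le_univ (K' \ K₀)
    omega

theorem phase' {m e : ℕ} (hX : Ctx G Cl d r q) (hS : Sup Cl m q e) (hd : 1 ≤ d) (hr : 1 ≤ r)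
    (hm : 2 ≤ m) (he : 1 ≤ e) (hcl : ∀ t K, Ach t K → t ≤ Nmax → Cl K)
    (hstep : ∀ t K v, Ach t K → t < Nmax → ∃ K', Ach (t + 1) K' ∧ insert v K ⊆ K')
    {B L j : ℕ} (hB : 1 ≤ B) (hBn : 2 * Fintype.card V ≤ B * (d * r)) (hL : m ≤ 2 ^ L)
    (hj : Fintype.card V < 2 ^ 2 ^ j) {t : ℕ} {K₀ : Finset V} (h₀ : Ach t K₀)
    (ht : t + (1 + B * L + 2 * (e * j)) ≤ Nmax) :
    ∃ t' ≤ t + (1 + B * L + 2 * (e * j)), ∃ K', Ach t' K' ∧
      (K' = univ ∨ K₀.card + q ≤ K'.card) := by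
  by_cases hu : K₀ = univ
  · exact ⟨t, by omega, K₀, h₀, Or.inl hu⟩
  obtain ⟨v₀, hv₀⟩ : ∃ v, v ∉ K₀ := by
    by_contra hcon
    push Not at hcon
    exact hu (eq_univ_iff_forall.2 hcon)
  have hend : ∀ K', K₀ ⊆ K' → q ≤ (K' \ K₀).card → K₀.card + q ≤ K'.card := by
    intro K' h1 h2
    rw [card_sdiff_of_subset h1] at h2
    have := card_le_card h1
    omega
  have hcl₀ := hcl t K₀ h₀ (by omega)
  obtain ⟨K₁, hK₁, hsub₁⟩ := hstep t K₀ v₀ h₀ (by omega)
  have hne : (K₁ \ K₀).Nonempty := ⟨v₀, mem_sdiff.2 ⟨hsub₁ (mem_insert_self _ _), hv₀⟩⟩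
  obtain ⟨t₂, ht₂, K₂, hK₂, hsub₂, hcase⟩ := linear hX hd hr hcl hstep hB hBn L hcl₀ hK₁
    ((subset_insert _ _).trans hsub₁) hne (by omega)
  rcases hcase with h1 | h1
  · exact ⟨t₂, by omega, K₂, hK₂, Or.inr (hend _ hsub₂ h1)⟩
  · have h2 : m ≤ (K₂ \ K₀).card := by
      refine le_trans ?_ h1
      calc m ≤ 2 ^ L * 1 := by omega
        _ ≤ _ := Nat.mul_le_mul_left _ (card_pos.2 hne)
    obtain ⟨t₃, ht₃, K₃, hK₃, hsub₃, h3⟩ := superl hS hm he hcl hstep hj hcl₀ hK₂ hsub₂ h2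
      (by omega)
    exact ⟨t₃, by omega, K₃, hK₃, Or.inr (hend _ hsub₃ h3)⟩

theorem generate' {m e : ℕ} (hX : Ctx G Cl d r q) (hS : Sup Cl m q e) (hd : 1 ≤ d)
    (hr : 1 ≤ r) (hq : 1 ≤ q)
    (hm : 2 ≤ m) (he : 1 ≤ e) (hcl : ∀ t K, Ach t K → t ≤ Nmax → Cl K)
    (hstep : ∀ t K v, Ach t K → t < Nmax → ∃ K', Ach (t + 1) K' ∧ insert v K ⊆ K')
    {B L j : ℕ} (hB : 1 ≤ B) (hBn : 2 * Fintype.card V ≤ B * (d * r)) (hL : m ≤ 2 ^ L)
    (hj : Fintype.card V < 2 ^ 2 ^ j) {K₀ : Finset V} (h₀ : Ach 0 K₀)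
    (ht : (Fintype.card V / q + 1) * (1 + B * L + 2 * (e * j)) ≤ Nmax) :
    ∃ t ≤ (Fintype.card V / q + 1) * (1 + B * L + 2 * (e * j)), Ach t univ := by
  obtain ⟨c, hc⟩ : ∃ c, c = 1 + B * L + 2 * (e * j) := ⟨_, rfl⟩
  rw [← hc] at ht ⊢
  have key : ∀ i, i ≤ Fintype.card V / q + 1 → ∃ t ≤ i * c, ∃ K, Ach t K ∧
      (K = univ ∨ i * q ≤ K.card) := by
    intro i
    induction i with
    | zero =>
      intro _
      exact ⟨0, by omega, K₀, h₀, Or.inr (by omega)⟩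
    | succ i ih =>
      intro hi
      obtain ⟨t, hti, K, hK, hcase⟩ := ih (by omega)
      have e1 : (i + 1) * c = i * c + c := by ring
      rcases hcase with h1 | h1
      · exact ⟨t, by omega, K, hK, Or.inl h1⟩
      · have h2 : (i + 1) * c ≤ (Fintype.card V / q + 1) * c := Nat.mul_le_mul_right _ hi
        obtain ⟨t', ht', K', hK', h3⟩ := phase' hX hS hd hr hm he hcl hstep hB hBn hL hj hK
          (by omega)
        have e2 : (i + 1) * q = i * q + q := by ring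
        refine ⟨t', by omega, K', hK', ?_⟩
        rcases h3 with h3 | h3
        · exact Or.inl h3
        · exact Or.inr (by omega)
  obtain ⟨t, ht', K, hK, hcase⟩ := key _ le_rfl
  refine ⟨t, ht', ?_⟩
  rcases hcase with rfl | h1
  · exact hK
  · exfalso
    have h2 := card_le_univ K
    have h3 : Fintype.card V < (Fintype.card V / q + 1) * q := by
      have := Nat.lt_div_mul_add (a := Fintype.card V) hq
      have e3 : (Fintype.card V / q + 1) * q = Fintype.card V / q * q + q := by ring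
      omega
    omega

end

section

variable {V W : Type} [Fintype V] [Fintype W] {G : SimpleGraph V} {H : SimpleGraph W} {N : ℕ}

theorem main_abs' [DecidableEq V] [Nonempty V] {Cl : Finset V → Prop} {d r q m e : ℕ}
    (hX : Ctx G Cl d r q) (hS : Sup Cl m q e) (hd : 1 ≤ d) (hr : 1 ≤ r) (hq : 1 ≤ q)
    (hm : 2 ≤ m) (he : 1 ≤ e)
    (hcl : ∀ E : List (V × W), E.length + 2 ≤ N → Cl (kn G H N E)) {B L j : ℕ} (hB : 1 ≤ B)
    (hBn : 2 * Fintype.card V ≤ B * (d * r)) (hL : m ≤ 2 ^ L)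
    (hj : Fintype.card V < 2 ^ 2 ^ j)
    (hN : (Fintype.card V / q + 1) * (1 + B * L + 2 * (e * j)) + 2 ≤ N)
    (h : WLEquivalent N G H) :
    Nonempty (G ≃g H) := by
  obtain ⟨Ach, hAch⟩ : ∃ Ach : ℕ → Finset V → Prop, Ach = fun t K =>
    ∃ E : List (V × W), Pos G H N E ∧ E.length ≤ t ∧ kn G H N E = K := ⟨_, rfl⟩
  have hcl' : ∀ t K, Ach t K → t ≤ N - 2 → Cl K := by
    intro t K hK ht
    rw [hAch] at hK
    obtain ⟨E, -, hE, rfl⟩ := hK
    exact hcl E (by omega)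
  have hstep : ∀ t K v, Ach t K → t < N - 2 → ∃ K', Ach (t + 1) K' ∧ insert v K ⊆ K' := by
    intro t K v hK ht
    rw [hAch] at hK
    obtain ⟨E, hP, hE, rfl⟩ := hK
    obtain ⟨β, hβ⟩ := hP.step (by omega)
    refine ⟨kn G H N ((v, β v) :: E), ?_, ?_⟩
    · rw [hAch]
      exact ⟨_, hβ v, by rw [List.length_cons]; omega, rfl⟩
    · intro x hx
      rcases mem_insert.1 hx with rfl | hx
      · exact mem_kn.2 (kl_mem (e := (x, β x)) List.mem_cons_self)
      · exact mem_kn.2 ((mem_kn.1 hx).mono fun e he => List.mem_cons_of_mem _ he)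
  have h0 : Ach 0 (kn G H N []) := by
    rw [hAch]
    exact ⟨[], pos_nil h, le_rfl, rfl⟩
  obtain ⟨t, ht, hu⟩ := generate' hX hS hd hr hq hm he hcl' hstep hB hBn hL hj h0 (by omega)
  rw [hAch] at hu
  obtain ⟨E, hP, hE, hun⟩ := hu
  refine iso_of_known hP (by omega) fun x => mem_kn.1 ?_
  rw [hun]
  exact mem_univ _

end

end Run7.h33.LL
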