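import Pool.Agent.Run7.h33.LL.Odd

/-!
# The main theorem for `k ≥ 3`
-/

set_option autoImplicit false
set_option linter.unusedSectionVars false

namespace Run7.h33.LL

open SimpleGraph Finset Run7.h33.NM Pool.Agent.N624.NT Pool.Agent.W185.SRG

theorem poly_bound3 {k : ℕ} (hk : 3 ≤ k) :
    2 * 8 ^ k * (2 ^ (k + 2) * k * (k ^ 2 + 5 * k + 16) + 8 * k + 1) + 2 ≤ 256 ^ k := by
  obtain ⟨a, ha⟩ : ∃ a, a = 2 ^ k := ⟨_, rfl⟩
  have hka : 2 * k ≤ a := by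
    rw [ha]
    exact two_mul_le_pow (by omega)
  have ha8 : 8 ≤ a := by
    rw [ha]
    calc 8 = 2 ^ 3 := by norm_num
      _ ≤ 2 ^ k := Nat.pow_le_pow_right (by norm_num) hk
  have e8 : 8 ^ k = a ^ 3 := by
    rw [ha, ← pow_mul, mul_comm, pow_mul]
    norm_num
  have e256 : 256 ^ k = a ^ 8 := by
    rw [ha, ← pow_mul, mul_comm, pow_mul]
    norm_num
  have e4 : 2 ^ (k + 2) = 4 * a := by
    rw [ha, pow_add]
    ring
  rw [e8, e4, e256]
  have h1 : 8 * (k * (k ^ 2 + 5 * k + 16)) ≤ a * (a ^ 2 + 10 * a + 64) := by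
    calc 8 * (k * (k ^ 2 + 5 * k + 16)) = 2 * k * ((2 * k) ^ 2 + 10 * (2 * k) + 64) := by ring
      _ ≤ _ := by gcongr
  have h2 : 2 * a ^ 3 * (4 * a * k * (k ^ 2 + 5 * k + 16) + 8 * k + 1) + 2 ≤
      a ^ 7 + 10 * a ^ 6 + 64 * a ^ 5 + 8 * a ^ 4 + 2 * a ^ 3 + 2 := by
    calc 2 * a ^ 3 * (4 * a * k * (k ^ 2 + 5 * k + 16) + 8 * k + 1) + 2
        = a ^ 4 * (8 * (k * (k ^ 2 + 5 * k + 16))) + 8 * a ^ 3 * (2 * k) + 2 * a ^ 3 + 2 := by
          ring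
      _ ≤ a ^ 4 * (a * (a ^ 2 + 10 * a + 64)) + 8 * a ^ 3 * a + 2 * a ^ 3 + 2 := by gcongr
      _ = _ := by ring
  refine h2.trans ?_
  obtain ⟨b, rfl⟩ : ∃ b, a = 8 + b := ⟨a - 8, by omega⟩
  ring_nf
  nlinarith [Nat.zero_le b, Nat.zero_le (b ^ 2), Nat.zero_le (b ^ 3), Nat.zero_le (b ^ 4),
    Nat.zero_le (b ^ 5), Nat.zero_le (b ^ 6), Nat.zero_le (b ^ 7), Nat.zero_le (b ^ 8)]

theorem arith_Nk3 {n k q A lA ll N : ℕ} (hk : 3 ≤ k) (hA : 1 ≤ A) (hq : n / q ≤ 8 ^ k * A)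
    (hN : 256 ^ k * A * (A * (lA + 1) + ll) ≤ N) :
    (n / q + 1) * (1 + 2 ^ (k + 1) * A * (2 * k * (13 + k + (k + 3) * (k + 1 + lA))) +
      2 * (4 * k * (ll + 1))) + 2 ≤ N := by
  obtain ⟨X, hX⟩ : ∃ X, X = A * (lA + 1) := ⟨_, rfl⟩
  rw [← hX] at hN
  have hAX : A ≤ X := by
    rw [hX]
    exact Nat.le_mul_of_pos_right _ (by omega)
  obtain ⟨c, hc⟩ : ∃ c, c = 2 ^ (k + 2) * k * (k ^ 2 + 5 * k + 16) := ⟨_, rfl⟩
  have h1 : 2 ^ (k + 1) * A * (2 * k * (13 + k + (k + 3) * (k + 1 + lA))) ≤ c * X := by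
    have h2 : 13 + k + (k + 3) * (k + 1 + lA) ≤ (k ^ 2 + 5 * k + 16) * (lA + 1) := by
      have e : (k ^ 2 + 5 * k + 16) * (lA + 1) =
          13 + k + (k + 3) * (k + 1 + lA) + lA * (k ^ 2 + 4 * k + 13) := by ring
      omega
    calc 2 ^ (k + 1) * A * (2 * k * (13 + k + (k + 3) * (k + 1 + lA)))
        ≤ 2 ^ (k + 1) * A * (2 * k * ((k ^ 2 + 5 * k + 16) * (lA + 1))) := by gcongr
      _ = c * X := by rw [hc, hX]; ring
  have h2 : 1 + 2 ^ (k + 1) * A * (2 * k * (13 + k + (k + 3) * (k + 1 + lA))) +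
      2 * (4 * k * (ll + 1)) ≤ (c + 8 * k + 1) * (X + ll) := by
    have hX1 : 1 ≤ X + ll := by omega
    have e1 : (c + 8 * k + 1) * (X + ll) = c * X + c * ll + 8 * k * X + 8 * k * ll + (X + ll) := by
      ring
    have e2 : 2 * (4 * k * (ll + 1)) = 8 * k * 1 + 8 * k * ll := by ring
    have e3 : 8 * k * 1 ≤ 8 * k * X := Nat.mul_le_mul_left _ (by omega)
    have e4 : 0 ≤ c * ll := Nat.zero_le _
    omega
  have h81 : 1 ≤ 8 ^ k * A := Nat.mul_pos (Nat.pow_pos (by norm_num)) hA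
  have h3 : n / q + 1 ≤ 2 * 8 ^ k * A := by
    rw [mul_assoc]
    omega
  have h4 : 1 ≤ A * (X + ll) := Nat.mul_pos hA (by omega)
  have h5 := poly_bound3 hk
  rw [← hc] at h5
  calc (n / q + 1) * (1 + 2 ^ (k + 1) * A * (2 * k * (13 + k + (k + 3) * (k + 1 + lA))) +
      2 * (4 * k * (ll + 1))) + 2
      ≤ 2 * 8 ^ k * A * ((c + 8 * k + 1) * (X + ll)) + 2 :=
        Nat.add_le_add_right (Nat.mul_le_mul h3 h2) 2
    _ ≤ 2 * 8 ^ k * A * ((c + 8 * k + 1) * (X + ll)) + 2 * (A * (X + ll)) := by omega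
    _ = (2 * 8 ^ k * (c + 8 * k + 1) + 2) * (A * (X + ll)) := by ring
    _ ≤ 256 ^ k * (A * (X + ll)) := Nat.mul_le_mul_right _ h5
    _ = 256 ^ k * A * (X + ll) := by ring
    _ ≤ N := hN

section

variable {V W : Type} [Fintype V] [Fintype W] {G : SimpleGraph V} {H : SimpleGraph W} {N : ℕ}

/-- Graphs whose short non-backtracking walks are determined by their ends. -/
theorem main_uq3 {k δ A : ℕ} (hk3 : 3 ≤ k) (hδ : 2 ≤ δ) (hA : 1 ≤ A) (hG : Uq G k)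
    (hd : ∀ v, δ ≤ (G.neighborSet v).ncard) (hn : Fintype.card V ≤ A * δ ^ k)
    (hN : 256 ^ k * A * (A * (Nat.log 2 A + 1) + Nat.log 2 (Nat.log 2 (Fintype.card V))) ≤ N)
    (h : WLEquivalent N G H) : Nonempty (G ≃g H) := by
  classical
  have hk : 2 ≤ k := by omega
  rcases isEmpty_or_nonempty V with hV | hV
  · refine iso_of_empty ?_ h
    refine le_trans ?_ hN
    exact Nat.mul_pos (Nat.mul_pos (Nat.pow_pos (by norm_num)) (by omega))
      (Nat.add_pos_left (Nat.mul_pos (by omega) (by omega)) _)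
  obtain ⟨d, rfl⟩ : ∃ d, δ = d + 1 := ⟨δ - 1, by omega⟩
  have hd' : ∀ v, d + 1 ≤ (nb G v).card := fun v => by rw [card_nb]; exact hd v
  have hd1 : 1 ≤ d := by omega
  have hX := ctxN hk hG hd'
  obtain ⟨B, hBe⟩ : ∃ B, B = 2 ^ k * A := ⟨_, rfl⟩
  have hB : 1 ≤ B := by
    rw [hBe]
    exact Nat.mul_pos (Nat.pow_pos (by norm_num)) hA
  have hnB : Fintype.card V ≤ B * d ^ k := by
    calc Fintype.card V ≤ A * (d + 1) ^ k := hn
      _ ≤ A * (2 * d) ^ k := Nat.mul_le_mul_left _ (Nat.pow_le_pow_left (by omega) k)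
      _ = _ := by rw [mul_pow, hBe]; ring
  have hS := supN hk hB hG hd' hnB
  have hm : ((8192 * k * B ^ (k + 3)) ^ 2) ^ k ≤
      2 ^ (2 * k * (13 + k + (k + 3) * (k + 1 + Nat.log 2 A))) := by
    have h1 : A < 2 ^ (Nat.log 2 A + 1) := Nat.lt_pow_succ_log_self (by norm_num) A
    have h2 : B ≤ 2 ^ (k + 1 + Nat.log 2 A) := by
      calc B = 2 ^ k * A := hBe
        _ ≤ 2 ^ k * 2 ^ (Nat.log 2 A + 1) := Nat.mul_le_mul_left _ h1.le
        _ = _ := by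
            rw [← pow_add]
            congr 1
            omega
    have h3 : k ≤ 2 ^ k := Nat.lt_two_pow_self.le
    calc ((8192 * k * B ^ (k + 3)) ^ 2) ^ k
        ≤ ((8192 * 2 ^ k * (2 ^ (k + 1 + Nat.log 2 A)) ^ (k + 3)) ^ 2) ^ k := by gcongr
      _ = ((2 ^ 13 * 2 ^ k * (2 ^ (k + 1 + Nat.log 2 A)) ^ (k + 3)) ^ 2) ^ k := by norm_num
      _ = _ := by
          rw [← pow_mul, ← pow_mul, ← pow_add, ← pow_add, ← pow_mul]
          congr 1
          ring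
  have hm2 : 2 ≤ ((8192 * k * B ^ (k + 3)) ^ 2) ^ k := by
    have h1 : 8192 * k * B ^ (k + 3) ≤ ((8192 * k * B ^ (k + 3)) ^ 2) ^ k := by
      rw [← pow_mul]
      exact Nat.le_self_pow (by omega) _
    refine le_trans ?_ h1
    have h2 : 1 ≤ k * B ^ (k + 3) := Nat.mul_pos (by omega) (Nat.pow_pos (by omega))
    rw [mul_assoc]
    omega
  refine main_abs' hX hS hd1 (Nat.pow_pos hd1) (le_max_left _ _) hm2 (by omega)
    (fun E hE => clN_kn hG hE) (B := 2 ^ (k + 1) * A)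
    (Nat.mul_pos (Nat.pow_pos (by norm_num)) hA) ?_ hm (lt_loglog _)
    (arith_Nk3 hk3 hA (arith_qk hn) hN) h
  have e : d * d ^ (k - 1) = d ^ k := by
    rw [← pow_succ']
    congr 1
    omega
  rw [e]
  calc 2 * Fintype.card V ≤ 2 * (B * d ^ k) := Nat.mul_le_mul_left _ hnB
    _ = 2 ^ (k + 1) * A * d ^ k := by
      rw [hBe, pow_succ]
      ring

/-- Graphs without cycles of length at most `k` and without even cycles of length at most `2 k`. -/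
theorem main_three {k δ A : ℕ} (hk3 : 3 ≤ k) (hδ : 2 ≤ δ) (hA : 1 ≤ A)
    (hG : ∀ (v : V) (c : G.Walk v v), c.IsCycle →
      k < c.length ∧ (Even c.length → 2 * k < c.length))
    (hd : ∀ v, δ ≤ (G.neighborSet v).ncard) (hn : Fintype.card V ≤ A * δ ^ k)
    (hN : 256 ^ k * A * (A * (Nat.log 2 A + 1) + Nat.log 2 (Nat.log 2 (Fintype.card V))) ≤ N)
    (h : WLEquivalent N G H) : Nonempty (G ≃g H) :=
  main_uq3 hk3 hδ hA (uq_of_cycles (fun v c hc => (hG v c hc).1) fun v c hc => (hG v c hc).2)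
    hd hn hN h

end

end Run7.h33.LL
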