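import Pool.Agent.Run7.h33.LL.Proc
import Pool.Agent.Run7.h33.AF.Geo

/-!
# Quadratic growth in graphs in which two vertices have at most one common neighbour
-/

set_option autoImplicit false
set_option linter.unusedSectionVars false

namespace Run7.h33.LL

open SimpleGraph Finset Run7.h33.NM Run7.h33.AF

/-- Double counting and the pigeonhole principle. -/
theorem pigeon {α β : Type} (T : Finset α) (P : Finset β) (R : α → β → Prop)
    [∀ a b, Decidable (R a b)] {c m : ℕ} (h : ∀ a ∈ T, c ≤ (P.filter fun b => R a b).card)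
    (hP : P.card ≤ m) (hne : P.Nonempty) :
    ∃ b ∈ P, c * T.card ≤ m * (T.filter fun a => R a b).card := by
  obtain ⟨b, hb, hmax⟩ := exists_max_image P (fun b => (T.filter fun a => R a b).card) hne
  refine ⟨b, hb, ?_⟩
  have h1 : ∑ a ∈ T, (P.filter fun b => R a b).card = ∑ b ∈ P, (T.filter fun a => R a b).card := by
    simp only [card_filter]
    exact sum_comm
  calc c * T.card = ∑ _a ∈ T, c := by rw [sum_const, smul_eq_mul, mul_comm]
    _ ≤ ∑ a ∈ T, (P.filter fun b => R a b).card := sum_le_sum h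
    _ = ∑ b ∈ P, (T.filter fun a => R a b).card := h1
    _ ≤ ∑ _b ∈ P, (T.filter fun a => R a b).card := sum_le_sum hmax
    _ = P.card * (T.filter fun a => R a b).card := by rw [sum_const, smul_eq_mul]
    _ ≤ _ := Nat.mul_le_mul_right _ hP

/-- The Cauchy-Schwarz inequality. -/
theorem cs {α : Type} (U : Finset α) (y : α → ℕ) {n : ℕ} (hU : U.card ≤ n) :
    (∑ a ∈ U, y a) ^ 2 ≤ n * ∑ a ∈ U, y a ^ 2 := by
  have h1 := sq_sum_le_card_mul_sum_sq (s := U) (f := fun a => (y a : ℤ))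
  have h2 : (∑ a ∈ U, y a) ^ 2 ≤ U.card * ∑ a ∈ U, y a ^ 2 := by
    have : (((∑ a ∈ U, y a) ^ 2 : ℕ) : ℤ) ≤ ((U.card * ∑ a ∈ U, y a ^ 2 : ℕ) : ℤ) := by
      push_cast
      exact h1
    exact_mod_cast this
  exact h2.trans (Nat.mul_le_mul_right _ hU)

section

variable {V : Type} [Fintype V] [DecidableEq V] {G : SimpleGraph V}
variable {Cl : Finset V → Prop} {d r q : ℕ}

/-- The boundary of a closed set is large. -/
theorem boundary (hX : Ctx G Cl d r q) {K₀ K : Finset V} (h₀ : Cl K₀) (hK : Cl K)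
    (hq : (K \ K₀).card < q) :
    ∃ D : Finset V, (∀ z, z ∈ D ↔ z ∉ K ∧ ∃ u ∈ K \ K₀, G.Adj u z) ∧
      d * (K \ K₀).card ≤ 2 * D.card := by
  obtain ⟨M, hM⟩ : ∃ M, M = K \ K₀ := ⟨_, rfl⟩
  rw [← hM] at hq ⊢
  have hMK : ∀ u ∈ M, u ∈ K ∧ u ∉ K₀ := by
    intro u hu
    rw [hM, mem_sdiff] at hu
    exact hu
  have hsum : 2 * ∑ u ∈ M, (nb G u ∩ M).card ≤ d * M.card := by
    by_contra hcon
    have := hX.dense M (by omega)
    omega
  obtain ⟨D, hD⟩ : ∃ D, D = M.biUnion fun u => nb G u \ K := ⟨_, rfl⟩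
  have hDcard : D.card = ∑ u ∈ M, (nb G u \ K).card := by
    rw [hD]
    refine card_biUnion ?_
    intro u hu u' hu' hne'
    rw [mem_coe] at hu hu'
    rw [Function.onFun, Finset.disjoint_left]
    intro z hz hz'
    rw [mem_sdiff, mem_nb] at hz hz'
    exact hne' (hX.one K hK z hz.2 u (hMK u hu).1 u' (hMK u' hu').1 hz.1.symm hz'.1.symm)
  have hdeg : ∀ u ∈ M, d ≤ (nb G u \ K).card + (nb G u ∩ M).card := by
    intro u hu
    have h1 : nb G u ⊆ (nb G u \ K) ∪ ((nb G u ∩ M) ∪ (nb G u ∩ K₀)) := by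
      intro z hz
      rw [mem_union, mem_union, mem_sdiff, mem_inter, mem_inter]
      by_cases hzK : z ∈ K
      · by_cases hz0 : z ∈ K₀
        · exact Or.inr (Or.inr ⟨hz, hz0⟩)
        · exact Or.inr (Or.inl ⟨hz, by rw [hM, mem_sdiff]; exact ⟨hzK, hz0⟩⟩)
      · exact Or.inl ⟨hz, hzK⟩
    have h2 : (nb G u ∩ K₀).card ≤ 1 := by
      rw [card_le_one]
      intro a ha b hb
      rw [mem_inter, mem_nb] at ha hb
      exact hX.one K₀ h₀ u (hMK u hu).2 a ha.2 b hb.2 ha.1 hb.1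
    have h3 := (card_le_card h1).trans ((card_union_le _ _).trans
      (Nat.add_le_add_left (card_union_le _ _) _))
    have h4 := hX.deg u
    omega
  have hDbig : d * M.card ≤ 2 * D.card := by
    have h1 : ∑ _u ∈ M, d ≤ ∑ u ∈ M, ((nb G u \ K).card + (nb G u ∩ M).card) :=
      sum_le_sum hdeg
    rw [sum_const, smul_eq_mul, sum_add_distrib, ← hDcard] at h1
    have h2 : M.card * d = d * M.card := mul_comm _ _
    omega
  refine ⟨D, ?_, hDbig⟩
  intro z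
  rw [hD, mem_biUnion]
  constructor
  · rintro ⟨u, hu, hz⟩
    rw [mem_sdiff, mem_nb] at hz
    exact ⟨hz.2, u, hu, hz.1⟩
  · rintro ⟨hz, u, hu, hadj⟩
    exact ⟨u, hu, mem_sdiff.2 ⟨mem_nb.2 hadj, hz⟩⟩

/-- A vertex outside of a closed set has `d` neighbours outside. -/
theorem out_nb (hX : Ctx G Cl d r q) {K : Finset V} (hK : Cl K) {z : V} (hz : z ∉ K) :
    d ≤ (nb G z \ K).card := by
  have h1 : (nb G z ∩ K).card ≤ 1 := by
    rw [card_le_one]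
    intro a ha b hb
    rw [mem_inter, mem_nb] at ha hb
    exact hX.one K hK z hz a ha.2 b hb.2 ha.1 hb.1
  have h2 := card_sdiff_add_card_inter (nb G z) K
  have h3 := hX.deg z
  omega

theorem supC {B : ℕ} (hG : NoC4 G) (hX : Ctx G (ClC G) d r q) (hB : 1 ≤ B) (hd2 : 2 ≤ d)
    (hn : Fintype.card V ≤ B * d ^ 2) :
    Sup (ClC G) ((32 * B ^ 3) ^ 2) q 2 := by
  classical
  intro K₀ K h₀ hK hsub hm hq
  obtain ⟨D, hD, hDc⟩ := boundary hX h₀ hK hq
  obtain ⟨s, hs⟩ : ∃ s, s = (K \ K₀).card := ⟨_, rfl⟩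
  obtain ⟨n, hne⟩ : ∃ n, n = Fintype.card V := ⟨_, rfl⟩
  rw [← hs] at hm hDc hq ⊢
  rw [← hne] at hn
  have hB3 : 1 ≤ B ^ 3 := Nat.pow_pos (by omega)
  have hBs : 4 * B ≤ s := by
    refine le_trans ?_ hm
    calc 4 * B ≤ 1024 * B ^ 6 := Nat.mul_le_mul (by norm_num) (Nat.le_self_pow (by norm_num) B)
      _ = (32 * B ^ 3) ^ 2 := by ring
  have hs1 : 1 ≤ s := by omega
  obtain ⟨U, hU⟩ : ∃ U : Finset V, U = univ \ K := ⟨_, rfl⟩
  have hUm : ∀ a, a ∈ U ↔ a ∉ K := by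
    intro a
    rw [hU, mem_sdiff]
    simp
  obtain ⟨y, hy⟩ : ∃ y : V → ℕ, y = fun a => (nb G a ∩ D).card := ⟨_, rfl⟩
  have hUn : U.card ≤ n := by
    rw [hne]
    exact card_le_univ _
  -- the number of the paths from the boundary to the outside
  have hY1 : ∑ a ∈ U, y a = ∑ z ∈ D, (nb G z \ K).card := by
    have e1 : ∀ a ∈ U, y a = ∑ z ∈ D, if G.Adj z a then 1 else 0 := by
      intro a _
      rw [hy, ← card_filter]
      change (nb G a ∩ D).card = _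
      congr 1
      ext z
      rw [mem_inter, mem_nb, mem_filter, G.adj_comm]
      tauto
    have e2 : ∀ z ∈ D, (nb G z \ K).card = ∑ a ∈ U, if G.Adj z a then 1 else 0 := by
      intro z _
      rw [← card_filter]
      congr 1
      ext a
      rw [mem_sdiff, mem_nb, mem_filter, hUm]
      tauto
    rw [sum_congr rfl e1, sum_congr rfl e2, sum_comm]
  obtain ⟨Y, hYe⟩ : ∃ Y, Y = ∑ a ∈ U, y a := ⟨_, rfl⟩
  have hY2 : D.card * d ≤ Y := by
    rw [hYe, hY1, ← smul_eq_mul, ← sum_const]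
    exact sum_le_sum fun z hz => out_nb hX hK ((hD z).1 hz).1
  have hY3 : d ^ 2 * s ≤ 2 * Y := by
    calc d ^ 2 * s = d * s * d := by ring
      _ ≤ 2 * D.card * d := Nat.mul_le_mul_right _ hDc
      _ = 2 * (D.card * d) := by ring
      _ ≤ 2 * Y := Nat.mul_le_mul_left _ hY2
  have hY4 : 2 * n ≤ Y := by
    have h1 : B * (2 * (2 * n)) ≤ B * (2 * Y) := by
      calc B * (2 * (2 * n)) = 4 * B * n := by ring
        _ ≤ s * (B * d ^ 2) := Nat.mul_le_mul hBs hn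
        _ = B * (d ^ 2 * s) := by ring
        _ ≤ _ := Nat.mul_le_mul_left _ hY3
    have := Nat.le_of_mul_le_mul_left h1 (by omega)
    omega
  -- the good configurations
  obtain ⟨T, hT⟩ : ∃ T : Finset (Σ _ : V, V × V), T = U.sigma fun a => (nb G a ∩ D).offDiag :=
    ⟨_, rfl⟩
  have hTc : T.card + Y = ∑ a ∈ U, y a ^ 2 := by
    rw [hT, card_sigma, hYe, ← sum_add_distrib]
    refine sum_congr rfl fun a _ => ?_
    rw [offDiag_card, hy, pow_two]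
    have : (nb G a ∩ D).card ≤ (nb G a ∩ D).card * (nb G a ∩ D).card := Nat.le_mul_self _
    simp only
    omega
  have hT2 : Y ^ 2 ≤ 2 * n * T.card := by
    have h1 := cs U y hUn
    rw [← hYe, ← hTc] at h1
    have h2 : 2 * n * Y ≤ Y ^ 2 := by
      rw [pow_two]
      exact Nat.mul_le_mul_right _ hY4
    have e1 : 2 * (n * (T.card + Y)) = 2 * n * T.card + 2 * n * Y := by ring
    omega
  -- the vertices that are individualized
  obtain ⟨R, hR⟩ : ∃ R : (Σ _ : V, V × V) → V × V → Prop, R = fun t v =>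
      (G.Adj t.2.1 v.1 ∧ v.1 ≠ t.1) ∧ G.Adj t.2.2 v.2 ∧ v.2 ≠ t.1 := ⟨_, rfl⟩
  have hmemT : ∀ t ∈ T, t.1 ∉ K ∧ (G.Adj t.1 t.2.1 ∧ t.2.1 ∈ D) ∧ (G.Adj t.1 t.2.2 ∧ t.2.2 ∈ D) ∧
      t.2.1 ≠ t.2.2 := by
    intro t ht
    rw [hT, mem_sigma, mem_offDiag, mem_inter, mem_inter, mem_nb, mem_nb, hUm] at ht
    exact ⟨ht.1, ht.2.1, ht.2.2.1, ht.2.2.2⟩
  have hser : ∀ t ∈ T, (d - 1) ^ 2 ≤ ((U ×ˢ U).filter fun v => R t v).card := by
    intro t ht
    obtain ⟨h1, ⟨h2, h3⟩, ⟨h4, h5⟩, h6⟩ := hmemT t ht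
    have h7 : ∀ z, G.Adj t.1 z → z ∈ D → d - 1 ≤ ((nb G z \ K).erase t.1).card := by
      intro z _ hz
      have h8 := out_nb hX hK ((hD z).1 hz).1
      have h9 := pred_card_le_card_erase (s := nb G z \ K) (a := t.1)
      omega
    calc (d - 1) ^ 2 = (d - 1) * (d - 1) := by ring
      _ ≤ ((nb G t.2.1 \ K).erase t.1).card * ((nb G t.2.2 \ K).erase t.1).card :=
          Nat.mul_le_mul (h7 _ h2 h3) (h7 _ h4 h5)
      _ = (((nb G t.2.1 \ K).erase t.1) ×ˢ ((nb G t.2.2 \ K).erase t.1)).card :=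
          (card_product _ _).symm
      _ ≤ _ := by
          refine card_le_card ?_
          intro v hv
          rw [mem_product, mem_erase, mem_erase, mem_sdiff, mem_sdiff, mem_nb, mem_nb] at hv
          rw [mem_filter, mem_product, hUm, hUm, hR]
          exact ⟨⟨hv.1.2.2, hv.2.2.2⟩, ⟨hv.1.2.1, hv.1.1⟩, hv.2.2.1, hv.2.1⟩
  have hTne : 0 < T.card := by
    rcases Nat.eq_zero_or_pos T.card with h1 | h1
    · exfalso
      rw [h1, mul_zero] at hT2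
      have h2 : 0 < Y := by
        have : 0 < d ^ 2 * s := Nat.mul_pos (Nat.pow_pos (by omega)) hs1
        omega
      have := Nat.pow_pos (n := 2) h2
      omega
    · exact h1
  obtain ⟨t₀, ht₀⟩ := card_pos.1 hTne
  have hPne : (U ×ˢ U).Nonempty :=
    ⟨(t₀.1, t₀.1), mem_product.2 ⟨(hUm _).2 (hmemT t₀ ht₀).1, (hUm _).2 (hmemT t₀ ht₀).1⟩⟩
  have hPn : (U ×ˢ U).card ≤ n ^ 2 := by
    rw [card_product, pow_two]
    exact Nat.mul_le_mul hUn hUn
  obtain ⟨v, hv, hpig⟩ := pigeon T (U ×ˢ U) R hser hPn hPne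
  rw [mem_product, hUm, hUm] at hv
  refine ⟨v.1, v.2, fun K' hK' hsub' => ?_⟩
  have hKK' : K ⊆ K' := (subset_insert _ _).trans ((subset_insert _ _).trans hsub')
  have hv1 : v.1 ∈ K' := hsub' (mem_insert_self _ _)
  have hv2 : v.2 ∈ K' := hsub' (mem_insert_of_mem (mem_insert_self _ _))
  have hin : (T.filter fun t => R t v).card ≤ (K' \ K₀).card := by
    refine card_le_card_of_injOn (fun t => t.1) ?_ ?_
    · intro t ht
      rw [mem_coe, mem_filter, hR] at ht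
      obtain ⟨ht, ⟨h1, h2⟩, h3, h4⟩ := ht
      obtain ⟨h5, ⟨h6, h7⟩, ⟨h8, h9⟩, h10⟩ := hmemT t ht
      obtain ⟨h11, u, hu, h12⟩ := (hD _).1 h7
      obtain ⟨h13, u', hu', h14⟩ := (hD _).1 h9
      have h15 : t.2.1 ∈ K' := hK' u (hKK' (mem_sdiff.1 hu).1) v.1 hv1
        (fun h => hv.1 (h ▸ (mem_sdiff.1 hu).1)) _ h12.symm h1
      have h16 : t.2.2 ∈ K' := hK' u' (hKK' (mem_sdiff.1 hu').1) v.2 hv2
        (fun h => hv.2 (h ▸ (mem_sdiff.1 hu').1)) _ h14.symm h3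
      rw [mem_coe, mem_sdiff]
      exact ⟨hK' _ h15 _ h16 h10 _ h6 h8, fun h => h5 (hsub h)⟩
    · intro t ht t' ht' htt
      rw [mem_coe, mem_filter, hR] at ht ht'
      obtain ⟨ht, ⟨h1, h2⟩, h3, h4⟩ := ht
      obtain ⟨ht', ⟨h1', h2'⟩, h3', h4'⟩ := ht'
      obtain ⟨h5, ⟨h6, h7⟩, ⟨h8, h9⟩, h10⟩ := hmemT t ht
      obtain ⟨h5', ⟨h6', h7'⟩, ⟨h8', h9'⟩, h10'⟩ := hmemT t' ht'
      simp only at htt
      rw [← htt] at h6' h8'
      have e1 : t.2.1 = t'.2.1 := hG v.1 t.1 _ _ h2 h1 h6.symm h1' h6'.symm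
      have e2 : t.2.2 = t'.2.2 := hG v.2 t.1 _ _ h4 h3 h8.symm h3' h8'.symm
      obtain ⟨a, z₁, z₂⟩ := t
      obtain ⟨a', z₁', z₂'⟩ := t'
      simp only at htt e1 e2
      subst htt e1 e2
      rfl
  obtain ⟨F, hF⟩ : ∃ F, F = (T.filter fun t => R t v).card := ⟨_, rfl⟩
  rw [← hF] at hpig hin
  -- the final computation
  have hfin : s ^ 2 ≤ 32 * B ^ 3 * F := by
    have h1 : d ^ 4 * s ^ 2 * (d - 1) ^ 2 ≤ 8 * n ^ 3 * F := by
      calc d ^ 4 * s ^ 2 * (d - 1) ^ 2 = (d ^ 2 * s) ^ 2 * (d - 1) ^ 2 := by ring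
        _ ≤ (2 * Y) ^ 2 * (d - 1) ^ 2 := Nat.mul_le_mul_right _ (Nat.pow_le_pow_left hY3 2)
        _ = 4 * Y ^ 2 * (d - 1) ^ 2 := by ring
        _ ≤ 4 * (2 * n * T.card) * (d - 1) ^ 2 :=
            Nat.mul_le_mul_right _ (Nat.mul_le_mul_left _ hT2)
        _ = 8 * n * ((d - 1) ^ 2 * T.card) := by ring
        _ ≤ 8 * n * (n ^ 2 * F) := Nat.mul_le_mul_left _ hpig
        _ = _ := by ring
    have h2 : n ^ 3 ≤ B ^ 3 * d ^ 6 := by
      calc n ^ 3 ≤ (B * d ^ 2) ^ 3 := Nat.pow_le_pow_left hn 3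
        _ = _ := by ring
    have h3 : d ^ 2 ≤ 4 * (d - 1) ^ 2 := by
      calc d ^ 2 ≤ (2 * (d - 1)) ^ 2 := Nat.pow_le_pow_left (by omega) 2
        _ = _ := by ring
    have h4 : d ^ 6 * s ^ 2 ≤ d ^ 6 * (32 * B ^ 3 * F) := by
      calc d ^ 6 * s ^ 2 = d ^ 4 * s ^ 2 * d ^ 2 := by ring
        _ ≤ d ^ 4 * s ^ 2 * (4 * (d - 1) ^ 2) := Nat.mul_le_mul_left _ h3
        _ = 4 * (d ^ 4 * s ^ 2 * (d - 1) ^ 2) := by ring
        _ ≤ 4 * (8 * n ^ 3 * F) := Nat.mul_le_mul_left _ h1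
        _ = 32 * F * n ^ 3 := by ring
        _ ≤ 32 * F * (B ^ 3 * d ^ 6) := Nat.mul_le_mul_left _ h2
        _ = _ := by ring
    exact Nat.le_of_mul_le_mul_left h4 (Nat.pow_pos (by omega))
  have hfin2 : s ^ 2 ≤ 32 * B ^ 3 * (K' \ K₀).card := hfin.trans (Nat.mul_le_mul_left _ hin)
  obtain ⟨E, hE⟩ : ∃ E, E = 32 * B ^ 3 := ⟨_, rfl⟩
  rw [← hE] at hfin2 hm
  have hE1 : 1 ≤ E := by omega
  have h5 : s * (s ^ (2 + 1)) ≤ s * ((K' \ K₀).card ^ 2) := by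
    calc s * (s ^ (2 + 1)) = (s ^ 2) ^ 2 := by ring
      _ ≤ (E * (K' \ K₀).card) ^ 2 := Nat.pow_le_pow_left hfin2 2
      _ = E ^ 2 * (K' \ K₀).card ^ 2 := by ring
      _ ≤ _ := Nat.mul_le_mul_right _ hm
  exact Nat.le_of_mul_le_mul_left h5 hs1

end

end Run7.h33.LL
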