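import Pool.Agent.Run7.h33.LL.TwoMain

/-!
# Dense nets
-/

set_option autoImplicit false
set_option linter.unusedSectionVars false

namespace Run7.h33.LL

open SimpleGraph Finset Run7.h33.NM Run7.h33.AF Pool.Agent.N624.NT Pool.Agent.W185.SRG

theorem log_sq_le (B : ℕ) : Nat.log 2 (3 * B ^ 2) + 1 ≤ 4 * (Nat.log 2 B + 1) := by
  obtain ⟨l, hl⟩ : ∃ l, l = Nat.log 2 B := ⟨_, rfl⟩
  have h1 : B < 2 ^ (l + 1) := by
    rw [hl]
    exact Nat.lt_pow_succ_log_self (by norm_num) B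
  have h2 : 3 * B ^ 2 < 2 ^ (2 * l + 4) := by
    calc 3 * B ^ 2 ≤ 4 * B ^ 2 := Nat.mul_le_mul_right _ (by norm_num)
      _ < 4 * (2 ^ (l + 1)) ^ 2 :=
          Nat.mul_lt_mul_of_pos_left (Nat.pow_lt_pow_left h1 (by norm_num)) (by norm_num)
      _ = 2 ^ (2 * l + 4) := by ring
  have h3 : Nat.log 2 (3 * B ^ 2) < 2 * l + 4 := Nat.log_lt_of_lt_pow' (by omega) h2
  rw [← hl]
  omega

/-- Dense nets. -/
theorem main_net' {k : ℕ} {P Q W : Type} [Fintype P] [Fintype Q] [Fintype W] {f : Fin k → P → Q}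
    {H : SimpleGraph W} {N B : ℕ} (hf : IsNet f)
    (hk : 2 ≤ k) (hQ : 2 ≤ Fintype.card Q) (hB : Fintype.card Q ≤ B * (k - 1))
    (hN : 10 ^ 6 * B ^ 2 * (B ^ 2 * (Nat.log 2 B + 1) + Nat.log 2 (Nat.log 2 (Fintype.card Q)))
      ≤ N)
    (hW : WLEquivalent N (incGraph f) H) : Nonempty (incGraph f ≃g H) := by
  classical
  obtain ⟨q, hq⟩ : ∃ q, q = k - 1 := ⟨_, rfl⟩
  obtain ⟨s, hs⟩ : ∃ s, s = Fintype.card Q := ⟨_, rfl⟩
  have hqs : q ≤ s := by
    rw [hq, hs]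
    exact net_le hf hk hQ
  rw [← hq, ← hs] at hB
  rw [← hs] at hN hQ
  have hB1 : 1 ≤ B := by
    rcases Nat.eq_zero_or_pos B with rfl | h
    · omega
    · exact h
  have hcard : Fintype.card (P ⊕ Fin k × Q) = s * s + k * s := by
    rw [Fintype.card_sum, Fintype.card_prod, Fintype.card_fin, net_card_points hf hk, hs]
  have hks : k * s ≤ 2 * (q * s) := by
    calc k * s ≤ 2 * q * s := Nat.mul_le_mul_right _ (by omega)
      _ = _ := by ring
  obtain ⟨δ, hδ⟩ : ∃ δ, δ = min k s := ⟨_, rfl⟩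
  have hδq : q ≤ δ := by
    rw [hδ]
    exact le_min (by omega) hqs
  refine main_two (δ := δ) (A := 3 * B ^ 2) (by rw [hδ]; exact le_min hk hQ)
    (Nat.mul_pos (by norm_num) (Nat.pow_pos hB1)) (noC4_of (net_c4 hf)) ?_ ?_ ?_ hW
  · rintro (p | ⟨i, a⟩)
    · rw [net_card_point, hδ]
      exact min_le_left _ _
    · rw [net_card_line hf hk, ← hs, hδ]
      exact min_le_right _ _
  · rw [hcard]
    calc s * s + k * s ≤ s * s + 2 * (q * s) := Nat.add_le_add_left hks _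
      _ ≤ (B * q) * (B * q) + 2 * (q * (B * q)) := by gcongr
      _ = (B ^ 2 + 2 * B) * q ^ 2 := by ring
      _ ≤ 3 * B ^ 2 * q ^ 2 := by
          refine Nat.mul_le_mul_right _ ?_
          have : B ≤ B ^ 2 := by
            rw [pow_two]
            exact Nat.le_mul_self B
          omega
      _ ≤ 3 * B ^ 2 * δ ^ 2 := Nat.mul_le_mul_left _ (Nat.pow_le_pow_left hδq 2)
  · refine le_trans ?_ hN
    have h1 := loglog_le (s := s) (n := Fintype.card (P ⊕ Fin k × Q)) hQ (by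
      rw [hcard]
      have : q * s ≤ s * s := Nat.mul_le_mul_right _ hqs
      have e : 4 * s ^ 2 = 4 * (s * s) := by ring
      omega)
    have h2 := log_sq_le B
    obtain ⟨X, hX⟩ : ∃ X, X = B ^ 2 * (Nat.log 2 B + 1) := ⟨_, rfl⟩
    have hX1 : 1 ≤ X := by
      rw [hX]
      exact Nat.mul_pos (Nat.pow_pos hB1) (Nat.succ_pos _)
    rw [← hX]
    have h3 : 3 * B ^ 2 * (Nat.log 2 (3 * B ^ 2) + 1) ≤ 12 * X := by
      calc 3 * B ^ 2 * (Nat.log 2 (3 * B ^ 2) + 1) ≤ 3 * B ^ 2 * (4 * (Nat.log 2 B + 1)) :=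
            Nat.mul_le_mul_left _ h2
        _ = 12 * X := by rw [hX]; ring
    calc 20000 * (3 * B ^ 2) * (3 * B ^ 2 * (Nat.log 2 (3 * B ^ 2) + 1) +
          Nat.log 2 (Nat.log 2 (Fintype.card (P ⊕ Fin k × Q))))
        ≤ 20000 * (3 * B ^ 2) * (15 * (X + Nat.log 2 (Nat.log 2 s))) :=
          Nat.mul_le_mul_left _ (by omega)
      _ = 900000 * B ^ 2 * (X + Nat.log 2 (Nat.log 2 s)) := by ring
      _ ≤ _ := by
          gcongr
          norm_num

end Run7.h33.LL
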